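import Mathlib

/-! Module AKS for helper57 (MP_b5f63d_co.RandomPoints).

Independent sets in triangle-free graphs (Ajtai–Komlós–Szemerédi, the proof of Alon–Spencer).
For an independent set `I` and a vertex `v` put `X_v(I) = d * [v ∈ I] + |{w ∈ I : R v w}|`; the mean
over the independent sets is at least `log d / 8`, and the sum over `v` is at most `2 d |I|`.
-/

set_option autoImplicit false

namespace Pool.Agent.Helper57.KS

theorem two_sum_card {V : Type*} [DecidableEq V] (A : Finset V) :
    2 * ∑ t ∈ A.powerset, (t.card : ℝ) = (A.card : ℝ) * 2 ^ A.card := by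
  induction A using Finset.induction_on with
  | empty => simp
  | insert a s ha ih =>
    rw [Finset.sum_powerset_insert ha]
    have h1 : ∑ t ∈ s.powerset, (((insert a t).card : ℕ) : ℝ)
        = ∑ t ∈ s.powerset, (t.card : ℝ) + 2 ^ s.card := by
      have h2 : ∀ t ∈ s.powerset, (((insert a t).card : ℕ) : ℝ) = (t.card : ℝ) + 1 := by
        intro t ht
        rw [Finset.card_insert_of_notMem (fun h => ha (Finset.mem_powerset.mp ht h))]
        push_cast; ring
      rw [Finset.sum_congr rfl h2, Finset.sum_add_distrib]
      congr 1
      simp [Finset.card_powerset]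
    rw [h1, Finset.card_insert_of_notMem ha]
    push_cast
    rw [pow_succ]
    linarith

theorem num (d : ℝ) (hd : 1 ≤ d) (x : ℕ) :
    ((2 : ℝ) ^ x + 1) * (Real.log d / 8) ≤ d + (x : ℝ) * 2 ^ x / 2 := by
  have hl0 : 0 ≤ Real.log d := Real.log_nonneg hd
  have h2x : (1 : ℝ) ≤ 2 ^ x := one_le_pow₀ (by norm_num)
  have hx0 : (0 : ℝ) ≤ x := Nat.cast_nonneg x
  by_cases h : (4 : ℝ) ^ x ≤ d
  · have hs : (2 : ℝ) ^ x ≤ Real.sqrt d := by
      apply Real.le_sqrt_of_sq_le
      calc ((2 : ℝ) ^ x) ^ 2 = 4 ^ x := by rw [← pow_mul, mul_comm, pow_mul]; norm_num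
        _ ≤ d := h
    have hs1 : 1 ≤ Real.sqrt d := h2x.trans hs
    have hlog : Real.log d ≤ 2 * Real.sqrt d := by
      have h3 : Real.log d = 2 * Real.log (Real.sqrt d) := by
        rw [Real.log_sqrt (by linarith)]; ring
      have h4 := Real.log_le_sub_one_of_pos (show 0 < Real.sqrt d by linarith)
      linarith
    have hsq : Real.sqrt d * Real.sqrt d = d := Real.mul_self_sqrt (by linarith)
    have h5 : ((2 : ℝ) ^ x + 1) * (Real.log d / 8) ≤ (2 * Real.sqrt d) * (2 * Real.sqrt d / 8) := by
      apply mul_le_mul
      · linarith
      · linarith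
      · positivity
      · positivity
    have h6 : (0 : ℝ) ≤ (x : ℝ) * 2 ^ x / 2 := by positivity
    nlinarith
  · push Not at h
    have hlog : Real.log d ≤ 2 * x := by
      have h1 : Real.log d ≤ Real.log ((4 : ℝ) ^ x) :=
        Real.log_le_log (by linarith) h.le
      rw [Real.log_pow] at h1
      have h2 : Real.log 4 ≤ 2 := by
        have : (4 : ℝ) = 2 ^ 2 := by norm_num
        rw [this, Real.log_pow]
        have := Real.log_two_lt_d9
        push_cast
        linarith
      nlinarith
    have h5 : ((2 : ℝ) ^ x + 1) * (Real.log d / 8) ≤ (2 * 2 ^ x) * (2 * x / 8) := by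
      apply mul_le_mul
      · linarith
      · linarith
      · positivity
      · positivity
    have h6 : (2 * (2 : ℝ) ^ x) * (2 * x / 8) = (x : ℝ) * 2 ^ x / 2 := by ring
    linarith

theorem aks {V : Type*} [DecidableEq V] (R : V → V → Prop) (hs : ∀ x y, R x y → R y x)
    (hi : ∀ x, ¬ R x x) (W : Finset V)
    (htri : ∀ x ∈ W, ∀ y ∈ W, ∀ z ∈ W, R x y → R y z → ¬ R x z)
    (d : ℝ) (hd : 1 ≤ d)
    (hdeg : ∀ x ∈ W, ∀ P ⊆ W, (∀ y ∈ P, R x y) → (P.card : ℝ) ≤ d) :
    ∃ I ⊆ W, (∀ x ∈ I, ∀ y ∈ I, ¬ R x y) ∧ (W.card : ℝ) * Real.log d ≤ 16 * d * I.card := by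
  classical
  set c : ℝ := Real.log d / 8 with hc
  set F : Finset (Finset V) := W.powerset.filter (fun I => ∀ x ∈ I, ∀ y ∈ I, ¬ R x y) with hF
  have memF : ∀ I, I ∈ F ↔ I ⊆ W ∧ ∀ x ∈ I, ∀ y ∈ I, ¬ R x y := by
    intro I
    rw [hF, Finset.mem_filter, Finset.mem_powerset]
  set X : V → Finset V → ℝ := fun v I =>
    d * (if v ∈ I then 1 else 0) + ((I.filter (fun w => R v w)).card : ℝ) with hX
  have hX0 : ∀ v I, ((I.filter (fun w => R v w)).card : ℝ) ≤ X v I := by
    intro v I
    simp only [hX]
    have : (0 : ℝ) ≤ d * (if v ∈ I then 1 else 0) := by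
      apply mul_nonneg (by linarith)
      split_ifs <;> norm_num
    linarith
  -- (a)
  have ha : ∀ v ∈ W, (F.card : ℝ) * c ≤ ∑ I ∈ F, X v I := by
    intro v hv
    set N : Finset V := W.filter (fun w => R v w) with hN
    set f : Finset V → Finset V := fun I => I \ (insert v N) with hf
    have key : ∀ J ∈ F.image f, (((F.filter (fun I => f I = J)).card : ℕ) : ℝ) * c
        ≤ ∑ I ∈ F.filter (fun I => f I = J), X v I := by
      intro J hJ
      obtain ⟨I0, hI0, hJ0⟩ := Finset.mem_image.mp hJ
      have hI0' := (memF I0).mp hI0
      have hJI : J ⊆ I0 := by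
        rw [← hJ0]; exact Finset.sdiff_subset
      have hJW : J ⊆ W := hJI.trans hI0'.1
      have hJind : ∀ x ∈ J, ∀ y ∈ J, ¬ R x y := fun x hx y hy =>
        hI0'.2 x (hJI hx) y (hJI hy)
      have hvJ : v ∉ J := by
        rw [← hJ0]; simp [hf]
      have hJN : ∀ w ∈ J, w ∉ N := by
        intro w hw
        rw [← hJ0] at hw
        simp only [hf, Finset.mem_sdiff, Finset.mem_insert, not_or] at hw
        exact hw.2.2
      have hvN : v ∉ N := by
        rw [hN, Finset.mem_filter]; intro h; exact hi v h.2
      set A : Finset V := N.filter (fun w => ∀ u ∈ J, ¬ R u w) with hA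
      have hAN : A ⊆ N := Finset.filter_subset _ _
      have hNW : N ⊆ W := Finset.filter_subset _ _
      have hRN : ∀ w ∈ N, R v w := fun w hw => (Finset.mem_filter.mp hw).2
      have hfib : F.filter (fun I => f I = J)
          = insert (insert v J) (A.powerset.image (fun B => J ∪ B)) := by
        ext I
        rw [Finset.mem_filter, memF, Finset.mem_insert, Finset.mem_image]
        constructor
        · rintro ⟨⟨hIW, hIi⟩, hfI⟩
          have hJI' : J ⊆ I := by rw [← hfI]; exact Finset.sdiff_subset
          have hmem : ∀ w ∈ I, w ∈ J ∨ w = v ∨ w ∈ N := by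
            intro w hw
            by_cases h : w ∈ insert v N
            · rw [Finset.mem_insert] at h
              exact Or.inr h
            · left
              rw [← hfI]
              exact Finset.mem_sdiff.mpr ⟨hw, h⟩
          by_cases hvI : v ∈ I
          · left
            apply Finset.Subset.antisymm
            · intro w hw
              rcases hmem w hw with h | h | h
              · exact Finset.mem_insert_of_mem h
              · rw [h]; exact Finset.mem_insert_self _ _
              · exact absurd (hRN w h) (hIi v hvI w hw)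
            · exact Finset.insert_subset hvI hJI'
          · right
            refine ⟨I ∩ N, ?_, ?_⟩
            · rw [Finset.mem_powerset]
              intro w hw
              rw [Finset.mem_inter] at hw
              rw [hA, Finset.mem_filter]
              exact ⟨hw.2, fun u hu => hIi u (hJI' hu) w hw.1⟩
            · apply Finset.Subset.antisymm
              · exact Finset.union_subset hJI' Finset.inter_subset_left
              · intro w hw
                rcases hmem w hw with h | h | h
                · exact Finset.mem_union_left _ h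
                · exact absurd (h ▸ hw) hvI
                · exact Finset.mem_union_right _ (Finset.mem_inter.mpr ⟨hw, h⟩)
        · rintro (h | ⟨B, hB, rfl⟩)
          · subst h
            refine ⟨⟨Finset.insert_subset hv hJW, ?_⟩, ?_⟩
            · intro x hx y hy
              rw [Finset.mem_insert] at hx hy
              rcases hx with rfl | hx
              · rcases hy with rfl | hy
                · exact hi _
                · intro h
                  exact hJN y hy (Finset.mem_filter.mpr ⟨hJW hy, h⟩)
              · rcases hy with rfl | hy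
                · intro h
                  exact hJN x hx (Finset.mem_filter.mpr ⟨hJW hx, hs _ _ h⟩)
                · exact hJind x hx y hy
            · apply Finset.Subset.antisymm
              · intro w hw
                simp only [hf, Finset.mem_sdiff, Finset.mem_insert, not_or] at hw
                rcases hw.1 with h | h
                · exact absurd h hw.2.1
                · exact h
              · intro w hw
                simp only [hf, Finset.mem_sdiff, Finset.mem_insert, not_or]
                exact ⟨Or.inr hw, fun h => hvJ (h ▸ hw), hJN w hw⟩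
          · have hBA := Finset.mem_powerset.mp hB
            refine ⟨⟨Finset.union_subset hJW (hBA.trans (hAN.trans hNW)), ?_⟩, ?_⟩
            · intro x hx y hy
              rw [Finset.mem_union] at hx hy
              rcases hx with hx | hx
              · rcases hy with hy | hy
                · exact hJind x hx y hy
                · exact (Finset.mem_filter.mp (hBA hy)).2 x hx
              · rcases hy with hy | hy
                · intro h
                  exact (Finset.mem_filter.mp (hBA hx)).2 y hy (hs _ _ h)
                · intro h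
                  have h1 := hRN x (hAN (hBA hx))
                  have h2 := hRN y (hAN (hBA hy))
                  exact htri v hv x (hNW (hAN (hBA hx))) y (hNW (hAN (hBA hy))) h1 h h2
            · apply Finset.Subset.antisymm
              · intro w hw
                simp only [hf, Finset.mem_sdiff, Finset.mem_insert, not_or, Finset.mem_union] at hw
                rcases hw.1 with h | h
                · exact h
                · exact absurd (hAN (hBA h)) hw.2.2
              · intro w hw
                simp only [hf, Finset.mem_sdiff, Finset.mem_insert, not_or, Finset.mem_union]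
                exact ⟨Or.inl hw, fun h => hvJ (h ▸ hw), hJN w hw⟩
      have hnot : insert v J ∉ A.powerset.image (fun B => J ∪ B) := by
        rw [Finset.mem_image]
        rintro ⟨B, hB, h⟩
        have hv' : v ∈ J ∪ B := by rw [h]; exact Finset.mem_insert_self _ _
        rw [Finset.mem_union] at hv'
        rcases hv' with h' | h'
        · exact hvJ h'
        · exact hvN (hAN (Finset.mem_powerset.mp hB h'))
      have hinj : Set.InjOn (fun B => J ∪ B) (A.powerset : Set (Finset V)) := by
        intro B hB C hC h
        have hB' := Finset.mem_powerset.mp (Finset.mem_coe.mp hB)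
        have hC' := Finset.mem_powerset.mp (Finset.mem_coe.mp hC)
        simp only at h
        have aux : ∀ B C : Finset V, B ⊆ A → J ∪ B = J ∪ C → B ⊆ C := by
          intro B C hB h w hw
          have hw' : w ∈ J ∪ C := by rw [← h]; exact Finset.mem_union_right _ hw
          rw [Finset.mem_union] at hw'
          rcases hw' with h' | h'
          · exact absurd (hAN (hB hw)) (hJN w h')
          · exact h'
        exact Finset.Subset.antisymm (aux B C hB' h) (aux C B hC' h.symm)
      rw [hfib, Finset.card_insert_of_notMem hnot, Finset.sum_insert hnot,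
        Finset.card_image_of_injOn hinj, Finset.sum_image (fun B hB C hC h => hinj hB hC h),
        Finset.card_powerset]
      have h1 : d ≤ X v (insert v J) := by
        simp only [hX, Finset.mem_insert_self, if_true, mul_one]
        have : (0 : ℝ) ≤ (((insert v J).filter (fun w => R v w)).card : ℝ) := Nat.cast_nonneg _
        linarith
      have h2 : ∑ B ∈ A.powerset, (B.card : ℝ) ≤ ∑ B ∈ A.powerset, X v (J ∪ B) := by
        apply Finset.sum_le_sum
        intro B hB
        refine le_trans ?_ (hX0 v (J ∪ B))
        have : B ⊆ (J ∪ B).filter (fun w => R v w) := by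
          intro w hw
          exact Finset.mem_filter.mpr ⟨Finset.mem_union_right _ hw,
            hRN w (hAN (Finset.mem_powerset.mp hB hw))⟩
        exact_mod_cast Finset.card_le_card this
      have h3 := two_sum_card A
      have h4 := num d hd A.card
      push_cast
      rw [← hc] at h4
      linarith
    have hmaps : ∀ I ∈ F, f I ∈ F.image f := fun I hI => Finset.mem_image_of_mem f hI
    have e1 : (F.card : ℝ) = ∑ J ∈ F.image f, (((F.filter (fun I => f I = J)).card : ℕ) : ℝ) := by
      rw [← Nat.cast_sum, ← Finset.card_eq_sum_card_fiberwise hmaps]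
    have e2 : ∑ I ∈ F, X v I = ∑ J ∈ F.image f, ∑ I ∈ F.filter (fun I => f I = J), X v I :=
      (Finset.sum_fiberwise_of_maps_to hmaps (X v)).symm
    rw [e1, e2, Finset.sum_mul]
    exact Finset.sum_le_sum key
  -- (b)
  have hb : ∀ I ∈ F, ∑ v ∈ W, X v I ≤ 2 * d * I.card := by
    intro I hI
    have hI' := (memF I).mp hI
    simp only [hX]
    rw [Finset.sum_add_distrib, ← Finset.mul_sum]
    have e1 : ∑ v ∈ W, (if v ∈ I then (1 : ℝ) else 0) = I.card := by
      rw [Finset.sum_ite_mem, Finset.inter_eq_right.mpr hI'.1]
      simp
    have e2 : ∑ v ∈ W, (((I.filter (fun w => R v w)).card : ℕ) : ℝ)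
        = ∑ w ∈ I, (((W.filter (fun v => R v w)).card : ℕ) : ℝ) := by
      have := Finset.sum_card_bipartiteAbove_eq_sum_card_bipartiteBelow (s := W) (t := I) R
      unfold Finset.bipartiteAbove Finset.bipartiteBelow at this
      exact_mod_cast this
    rw [e1, e2]
    have e3 : ∑ w ∈ I, (((W.filter (fun v => R v w)).card : ℕ) : ℝ) ≤ ∑ _w ∈ I, d := by
      apply Finset.sum_le_sum
      intro w hw
      apply hdeg w (hI'.1 hw) _ (Finset.filter_subset _ _)
      intro y hy
      exact hs _ _ (Finset.mem_filter.mp hy).2
    rw [Finset.sum_const, nsmul_eq_mul] at e3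
    linarith
  -- (c)
  by_contra hcon
  push Not at hcon
  have hne : ∅ ∈ F := by
    rw [memF]
    simp
  have h1 : ∀ I ∈ F, 2 * d * (I.card : ℝ) < (W.card : ℝ) * c := by
    intro I hI
    have hI' := (memF I).mp hI
    have := hcon I hI'.1 hI'.2
    rw [hc]
    linarith
  have h2 : ∑ I ∈ F, ∑ v ∈ W, X v I < ∑ I ∈ F, (W.card : ℝ) * c :=
    Finset.sum_lt_sum_of_nonempty ⟨∅, hne⟩ fun I hI => lt_of_le_of_lt (hb I hI) (h1 I hI)
  have h3 : ∑ v ∈ W, (F.card : ℝ) * c ≤ ∑ v ∈ W, ∑ I ∈ F, X v I := Finset.sum_le_sum ha
  rw [Finset.sum_comm] at h3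
  rw [Finset.sum_const, nsmul_eq_mul] at h2 h3
  have e : (F.card : ℝ) * ((W.card : ℝ) * c) = (W.card : ℝ) * ((F.card : ℝ) * c) := by ring
  linarith

end Pool.Agent.Helper57.KS
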