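import Pool.Agent.Helper57.KS.Uniform

/-! Almost regular simplices in large sets of unit vectors: asymptotic form (for MP_b5f63d_co). -/

open MeasureTheory Metric Filter Set
open scoped Topology RealInnerProductSpace
open Pool.Agent.H818R2 Pool.Agent.N596.KC Pool.Agent.K4H71.SP

namespace Pool.Agent.Helper57.KS

/-- All inner products of distinct points of `S` are within `ε` of `γ`. -/
def AlmostRegular {n : ℕ} (S : Finset (EuclideanSpace ℝ (Fin n))) (γ ε : ℝ) : Prop :=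
  ∀ x ∈ S, ∀ y ∈ S, x ≠ y → |⟪x, y⟫ - γ| ≤ ε

open Classical in
/-- The number of ordered pairs of points of `T` whose inner product differs by more than `ε`
from `γ`. -/
noncomputable def bad {n : ℕ} (T : Finset (EuclideanSpace ℝ (Fin n))) (γ ε : ℝ) : ℕ :=
  ((T ×ˢ T).filter (fun p => ε < |⟪p.1, p.2⟫ - γ|)).card

/-- The exponent in the size of the simplices. -/
noncomputable def expo (ε : ℝ) : ℝ := ε ^ 2 / (9 * Real.log (2 / ε) + ε ^ 2)

lemma expo_pos {ε : ℝ} (h0 : 0 < ε) (h1 : ε ≤ 1) : 0 < expo ε := by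
  have : 0 < Real.log (2 / ε) := Real.log_pos (by rw [lt_div_iff₀ h0]; linarith)
  unfold expo; positivity

lemma ip_of_dist {n : ℕ} {x y : EuclideanSpace ℝ (Fin n)} (hx : ‖x‖ = 1) (hy : ‖y‖ = 1)
    {ε ρ : ℝ} (hε0 : 0 < ε) (hε1 : ε ≤ 1) (hρ0 : 0 < ρ) (hρ1 : ρ ≤ 1)
    (h : (1 - ε / 3) * (√2 * ρ) ≤ dist x y ∧ dist x y ≤ (1 + ε / 3) * (√2 * ρ)) :
    |⟪x, y⟫ - (1 - ρ ^ 2)| ≤ ε := by
  have hd : dist x y ^ 2 = 2 - 2 * ⟪x, y⟫ := by
    rw [dist_eq_norm, norm_sub_sq_real, hx, hy]; ring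
  have s2 : (√2 : ℝ) ^ 2 = 2 := Real.sq_sqrt (by norm_num)
  have h1 : ((1 - ε / 3) * (√2 * ρ)) ^ 2 ≤ dist x y ^ 2 :=
    pow_le_pow_left₀ (mul_nonneg (by linarith) (by positivity)) h.1 2
  have h2 : dist x y ^ 2 ≤ ((1 + ε / 3) * (√2 * ρ)) ^ 2 :=
    pow_le_pow_left₀ dist_nonneg h.2 2
  rw [mul_pow, mul_pow, s2, hd] at h1 h2
  have hρ2 : ρ ^ 2 ≤ 1 := pow_le_one₀ hρ0.le hρ1
  have hρ3 : 0 < ρ ^ 2 := by positivity
  rw [abs_le]
  constructor
  · nlinarith [mul_nonneg hε0.le (sub_nonneg.2 hρ2), mul_nonneg hε0.le (sub_nonneg.2 hε1),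
      mul_nonneg (mul_nonneg hε0.le (sub_nonneg.2 hε1)) hρ3.le]
  · nlinarith [mul_nonneg hε0.le (sub_nonneg.2 hρ2), mul_nonneg hε0.le (sub_nonneg.2 hε1),
      mul_nonneg (mul_nonneg hε0.le (sub_nonneg.2 hε1)) hρ3.le]

lemma ip_of_small {n : ℕ} {x y c : EuclideanSpace ℝ (Fin n)} (hx : ‖x‖ = 1) (hy : ‖y‖ = 1)
    {ε ρ : ℝ} (hρ : 2 * ρ ^ 2 ≤ ε) (hxc : dist x c ≤ ρ) (hyc : dist y c ≤ ρ) :
    |⟪x, y⟫ - 1| ≤ ε := by
  have hd : dist x y ^ 2 = 2 - 2 * ⟪x, y⟫ := by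
    rw [dist_eq_norm, norm_sub_sq_real, hx, hy]; ring
  have h1 : dist x y ≤ 2 * ρ := (dist_triangle_right x y c).trans (by linarith)
  have h2 : dist x y ^ 2 ≤ (2 * ρ) ^ 2 := pow_le_pow_left₀ dist_nonneg h1 2
  have h3 : 0 ≤ dist x y ^ 2 := by positivity
  rw [abs_le]
  constructor
  · nlinarith
  · nlinarith

/-- the number of scales -/
lemma exists_scales {ε R r : ℝ} (hε0 : 0 < ε) (hε : ε ≤ 1 / 2) (hr : 0 < r) (hR : 0 < R)
    (hrR : r ≤ R) :
    ∃ J : ℕ, √(1 - ε ^ 2) ^ J * R ≤ r ∧ (J : ℝ) ≤ (2 * Real.log (R / r) + ε ^ 2) / ε ^ 2 := by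
  set t : ℝ := √(1 - ε ^ 2) with ht
  have h0 : 0 < 1 - ε ^ 2 := by nlinarith
  have ht0 : 0 < t := Real.sqrt_pos.2 h0
  have ht1 : t < 1 := by
    rw [ht, Real.sqrt_lt' one_pos]
    nlinarith [sq_pos_of_pos hε0]
  have hRr : 1 ≤ R / r := by rw [le_div_iff₀ hr]; linarith
  have hlogR : 0 ≤ Real.log (R / r) := Real.log_nonneg hRr
  have hexJ : ∃ j : ℕ, t ^ j * R ≤ r := by
    obtain ⟨j, hj⟩ := exists_pow_lt_of_lt_one (show 0 < r / R by positivity) ht1
    refine ⟨j, ?_⟩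
    rw [lt_div_iff₀ hR] at hj
    exact hj.le
  set J : ℕ := Nat.find hexJ with hJ
  have hJle' : t ^ J * R ≤ r := Nat.find_spec hexJ
  have hJmin : ∀ j < J, r < t ^ j * R := fun j hj => not_le.1 (Nat.find_min hexJ hj)
  refine ⟨J, hJle', ?_⟩
  rcases Nat.eq_zero_or_pos J with hJ0 | hJ1
  · rw [hJ0]; push_cast; positivity
  have h1 := hJmin (J - 1) (by omega)
  have h2 : Real.log r < Real.log (t ^ (J - 1) * R) := Real.log_lt_log hr h1
  rw [Real.log_mul (by positivity) hR.ne', Real.log_pow, Nat.cast_sub hJ1] at h2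
  have h3 : Real.log t = Real.log (1 - ε ^ 2) / 2 := by rw [ht, Real.log_sqrt h0.le]
  have h4 : Real.log (1 - ε ^ 2) ≤ -ε ^ 2 := by
    have := Real.log_le_sub_one_of_pos h0
    linarith
  rw [Real.log_div hR.ne' hr.ne', le_div_iff₀ (by positivity)]
  have h5 : (0 : ℝ) ≤ (J : ℝ) - (1 : ℕ) := by
    push_cast
    have : (1 : ℝ) ≤ J := by exact_mod_cast hJ1
    linarith
  have h6 := mul_le_mul_of_nonneg_left h4 h5
  rw [h3] at h2
  push_cast at h2 h6
  nlinarith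

/-- The basic step for unit vectors: a part `T` of `C` of almost the size of `T0` with almost
constant inner products, and an almost regular simplex in it. -/
theorem core {n : ℕ} {C : Finset (EuclideanSpace ℝ (Fin n))} (hC : ∀ x ∈ C, ‖x‖ = 1) {s κ ε : ℝ}
    (hs1 : s < 1) (hs0 : 0 ≤ s) (hκ : 0 ≤ κ) (hε0 : 0 < ε) (hε1 : ε ≤ 1)
    {c0 : EuclideanSpace ℝ (Fin n)}
    {T0 : Finset (EuclideanSpace ℝ (Fin n))} (hT0C : T0 ⊆ C)
    (hT0c : ∀ x ∈ T0, dist x c0 ≤ √(1 - s)) (hT0 : T0.Nonempty) :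
    ∃ (T : Finset (EuclideanSpace ℝ (Fin n))) (γ : ℝ), T ⊆ C ∧ T.Nonempty ∧ s ≤ γ ∧ γ ≤ 1 ∧
      (2 : ℝ) ^ (-κ * n) * T0.card ≤ T.card ∧
      ((bad T γ ε : ℕ) : ℝ) ≤ 4 * (2 : ℝ) ^ (-(κ * expo ε) * n) * T.card ^ 2 ∧
      ∃ S ⊆ T, min (T.card : ℝ) ((2 : ℝ) ^ (κ * expo ε * n) / 6) ≤ S.card ∧
        AlmostRegular S γ ε := by
  classical
  have h1s : 0 < 1 - s := by linarith
  set R : ℝ := √(1 - s) with hR
  have hR0 : 0 < R := Real.sqrt_pos.2 h1s
  have hR2 : R ^ 2 = 1 - s := Real.sq_sqrt h1s.le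
  have hR1 : R ≤ 1 := by
    rw [hR]; exact Real.sqrt_le_one.2 (by linarith)
  set r : ℝ := √(ε / 2) with hr
  have hr0 : 0 < r := Real.sqrt_pos.2 (by linarith)
  have hr2 : r ^ 2 = ε / 2 := Real.sq_sqrt (by linarith)
  have he0 := expo_pos hε0 hε1
  have hlog : 0 < Real.log (2 / ε) := Real.log_pos (by rw [lt_div_iff₀ hε0]; linarith)
  -- the number of scales
  obtain ⟨J, hJ, hJe⟩ : ∃ J : ℕ, √(1 - (ε / 3) ^ 2) ^ J * R ≤ r ∧ J * expo ε ≤ 1 := by
    rcases le_or_gt r R with h | h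
    · obtain ⟨J, h1, h2⟩ := exists_scales (ε := ε / 3) (by positivity) (by linarith) hr0 hR0 h
      refine ⟨J, h1, ?_⟩
      have h3 : 2 * Real.log (R / r) ≤ Real.log (2 / ε) := by
        have h4 : Real.log (R / r) ≤ Real.log (1 / r) :=
          Real.log_le_log (by positivity) (by gcongr)
        have h5 : 2 * Real.log (1 / r) = Real.log (2 / ε) := by
          have : (2 : ℝ) / ε = (1 / r) ^ 2 := by rw [div_pow, hr2]; field_simp
          rw [this, Real.log_pow]; norm_num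
        linarith
      have h6 : (J : ℝ) ≤ (9 * Real.log (2 / ε) + ε ^ 2) / ε ^ 2 := by
        refine h2.trans ?_
        rw [div_le_div_iff₀ (by positivity) (by positivity)]
        have : 0 < ε ^ 2 := by positivity
        nlinarith
      unfold expo
      rw [mul_div_assoc', div_le_one (by positivity)]
      rw [le_div_iff₀ (by positivity)] at h6
      exact h6
    · exact ⟨0, by simpa using h.le, by simp⟩
  set q : ℝ := (2 : ℝ) ^ (κ * expo ε * n) with hq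
  have hn0 : (0 : ℝ) ≤ n := Nat.cast_nonneg n
  have hq1 : 1 ≤ q := Real.one_le_rpow (by norm_num) (by positivity)
  have hq0 : 0 < q := by linarith
  have hqJ : q ^ J ≤ (2 : ℝ) ^ (κ * n) := by
    rw [hq, ← Real.rpow_natCast, ← Real.rpow_mul (by norm_num)]
    apply Real.rpow_le_rpow_of_exponent_le (by norm_num)
    have : κ * n * (J * expo ε) ≤ κ * n * 1 := mul_le_mul_of_nonneg_left hJe (by positivity)
    calc κ * expo ε * n * J = κ * n * (J * expo ε) := by ring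
      _ ≤ _ := by linarith
  obtain ⟨T, c, ρ, hTC, hTne, hρ0, hρR, hTc, hTcard, hcase⟩ :=
    uniformize (C := C) (R := R) (r := r) (ε := ε / 3) (q := q) hR0 (by positivity) (by linarith)
      hq1 (J := J) hJ (c0 := c0) (T0 := T0) hT0C hT0c hT0
  have hTpos : (0 : ℝ) < T.card := by exact_mod_cast hTne.card_pos
  have hsize : (2 : ℝ) ^ (-κ * n) * T0.card ≤ T.card := by
    have h1 : (T0.card : ℝ) ≤ T.card * (2 : ℝ) ^ (κ * n) :=
      hTcard.trans (mul_le_mul_of_nonneg_left hqJ hTpos.le)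
    calc (2 : ℝ) ^ (-κ * n) * T0.card ≤ (2 : ℝ) ^ (-κ * n) * (T.card * (2 : ℝ) ^ (κ * n)) :=
          mul_le_mul_of_nonneg_left h1 (by positivity)
      _ = T.card * ((2 : ℝ) ^ (-κ * n) * (2 : ℝ) ^ (κ * n)) := by ring
      _ = T.card := by
          rw [← Real.rpow_add (by norm_num)]
          have : -κ * n + κ * n = 0 := by ring
          rw [this, Real.rpow_zero, mul_one]
  rcases hcase with hsmall | ⟨hbad, hS⟩
  · -- all points are close to each other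
    have hall : ∀ x ∈ T, ∀ y ∈ T, |⟪x, y⟫ - 1| ≤ ε := fun x hx y hy =>
      ip_of_small (hC x (hTC hx)) (hC y (hTC hy)) (ρ := r) (by rw [hr2]; linarith)
        ((hTc x hx).trans hsmall) ((hTc y hy).trans hsmall)
    refine ⟨T, 1, hTC, hTne, hs1.le, le_rfl, hsize, ?_, T, subset_rfl, min_le_left _ _,
      fun x hx y hy _ => hall x hx y hy⟩
    have : bad T 1 ε = 0 := by
      rw [bad, Finset.card_eq_zero, Finset.filter_eq_empty_iff]
      rintro ⟨x, y⟩ hxy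
      rw [Finset.mem_product] at hxy
      exact not_lt.2 (hall x hxy.1 y hxy.2)
    rw [this]
    push_cast
    positivity
  · have hρ1 : ρ ≤ 1 := hρR.trans hR1
    have hρ2 : ρ ^ 2 ≤ 1 - s := by
      rw [← hR2]; exact pow_le_pow_left₀ hρ0.le hρR 2
    refine ⟨T, 1 - ρ ^ 2, hTC, hTne, by linarith, by nlinarith, hsize, ?_, ?_⟩
    · have h1 : bad T (1 - ρ ^ 2) ε ≤ (badDist T (ε / 3) (√2 * ρ)).card := by
        rw [bad, badDist]
        apply Finset.card_le_card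
        intro p hp
        rw [Finset.mem_filter, Finset.mem_product] at hp ⊢
        refine ⟨hp.1, fun h => ?_⟩
        exact absurd (ip_of_dist (hC _ (hTC hp.1.1)) (hC _ (hTC hp.1.2)) hε0 hε1 hρ0 hρ1 h)
          (not_le.2 hp.2)
      have h2 : ((bad T (1 - ρ ^ 2) ε : ℕ) : ℝ) * q ≤ 4 * T.card ^ 2 := by
        refine le_trans (mul_le_mul_of_nonneg_right ?_ hq0.le) hbad
        exact_mod_cast h1
      have h3 : (2 : ℝ) ^ (-(κ * expo ε) * n) = q⁻¹ := by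
        rw [hq, ← Real.rpow_neg (by norm_num)]
        congr 1; ring
      rw [h3]
      rw [← le_div_iff₀ hq0] at h2
      calc _ ≤ _ := h2
        _ = _ := by ring
    · rcases le_or_gt q 6 with h6 | h6
      · obtain ⟨x, hx⟩ := hTne
        refine ⟨{x}, by simpa using hx, ?_, ?_⟩
        · refine (min_le_right _ _).trans ?_
          simp only [Finset.card_singleton, Nat.cast_one]
          linarith
        · intro a ha b hb hab
          rw [Finset.mem_singleton] at ha hb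
          exact absurd (ha.trans hb.symm) hab
      · obtain ⟨S, hST, hSc, hSd⟩ := hS h6
        refine ⟨S, hST, (min_le_right _ _).trans hSc, ?_⟩
        intro x hx y hy hxy
        exact ip_of_dist (hC _ (hTC (hST hx))) (hC _ (hTC (hST hy))) hε0 hε1 hρ0 hρ1
          (hSd x hx y hy hxy)

/-- large `n` for the volume of caps -/
lemma exists_base {s b : ℝ} (hb0 : 0 < b) (hb : b ^ 2 < 1 - s) (hs0 : 0 ≤ s) :
    ∃ ε : ℝ, 0 < ε ∧ ε < b ∧ (√s) ^ 2 + b ^ 2 + 7 * ε ≤ 1 ∧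
      ∀ᶠ n : ℕ in atTop, 4 * √(b ^ 2 - ε ^ 2) ^ n ≤ b ^ n := by
  set g : ℝ := 1 - s - b ^ 2 with hg
  have hg0 : 0 < g := by rw [hg]; linarith
  set ε : ℝ := min (g / 14) (b / 2) with hε
  have hε0 : 0 < ε := by positivity
  have hε1 : ε ≤ g / 14 := min_le_left _ _
  have hε2 : ε ≤ b / 2 := min_le_right _ _
  refine ⟨ε, hε0, by linarith, by rw [Real.sq_sqrt hs0]; linarith, ?_⟩
  set r : ℝ := √(b ^ 2 - ε ^ 2) with hr
  have hr0 : 0 < r := Real.sqrt_pos.2 (by nlinarith)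
  have hrs : r < b := by
    rw [hr, Real.sqrt_lt' hb0]
    nlinarith
  have hlim : Tendsto (fun n : ℕ => (r / b) ^ n) atTop (𝓝 0) :=
    tendsto_pow_atTop_nhds_zero_of_lt_one (by positivity) ((div_lt_one hb0).2 hrs)
  filter_upwards [hlim.eventually (gt_mem_nhds (show (0 : ℝ) < 1 / 4 by norm_num))] with n h1
  rw [div_pow, div_lt_iff₀ (by positivity)] at h1
  linarith

/-- A cap of Euclidean radius `√(1 - s)` with many points of `C`. -/
theorem exists_ball {s b : ℝ} (hb0 : 0 < b) (hb : b ^ 2 < 1 - s) (hs0 : 0 ≤ s) :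
    ∀ᶠ n : ℕ in atTop, ∀ C : Finset (EuclideanSpace ℝ (Fin n)), (∀ x ∈ C, ‖x‖ = 1) →
      C.Nonempty → ∃ (c : EuclideanSpace ℝ (Fin n)) (T : Finset (EuclideanSpace ℝ (Fin n))),
        T ⊆ C ∧ (∀ x ∈ T, dist x c ≤ √(1 - s)) ∧ C.card * b ^ n ≤ 2 * T.card := by
  obtain ⟨ε, hε0, hεb, hg, hev⟩ := exists_base hb0 hb hs0
  filter_upwards [hev] with n hn C hC hne
  obtain ⟨z, T, hTC, hz, hTz, hcard⟩ := exists_cap (E := EuclideanSpace ℝ (Fin n)) hC
    (q := √s) (s := b) (ε := ε) (Real.sqrt_nonneg _) hb0 hε0 hεb hg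
    (by rw [finrank_euclideanSpace_fin]; exact hn) hne
  rw [finrank_euclideanSpace_fin] at hcard
  refine ⟨√s • z, T, hTC, fun x hx => ?_, hcard⟩
  have h1 : dist x (√s • z) ^ 2 ≤ 1 - s := by
    rw [dist_eq_norm, norm_sub_sq_real, hC x (hTC hx), norm_smul, hz, mul_one,
      Real.norm_of_nonneg (Real.sqrt_nonneg _), inner_smul_right, Real.sq_sqrt hs0]
    have h2 := mul_le_mul_of_nonneg_left (hTz x hx).le (Real.sqrt_nonneg s)
    rw [Real.mul_self_sqrt hs0] at h2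
    linarith
  rw [← Real.sqrt_sq (dist_nonneg (x := x) (y := √s • z))]
  exact Real.sqrt_le_sqrt h1

end Pool.Agent.Helper57.KS
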