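import Pool.Agent.Helper57.KS.Asym

/-! Almost regular simplices in large sets of unit vectors: final statements (for MP_b5f63d_co). -/

open MeasureTheory Metric Filter Set
open scoped Topology RealInnerProductSpace
open Pool.Agent.H818R2 Pool.Agent.N596.KC Pool.Agent.K4H71.SP

namespace Pool.Agent.Helper57.KS

/-- all dimensions -/
theorem uniform_all {n : ℕ} {C : Finset (EuclideanSpace ℝ (Fin n))} (hC : ∀ x ∈ C, ‖x‖ = 1)
    (hne : C.Nonempty) {κ ε : ℝ} (hκ : 0 ≤ κ) (hε0 : 0 < ε) (hε1 : ε ≤ 1) :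
    ∃ T ⊆ C, ∃ γ : ℝ, 0 ≤ γ ∧ γ ≤ 1 ∧ (2 : ℝ) ^ (-κ * n) * C.card ≤ T.card ∧
      ((bad T γ ε : ℕ) : ℝ) ≤ 4 * (2 : ℝ) ^ (-(κ * expo ε) * n) * T.card ^ 2 := by
  obtain ⟨T, γ, h1, -, h2, h3, h4, h5, -⟩ := core hC (s := 0) (by norm_num) le_rfl hκ hε0 hε1
    (c0 := 0) (T0 := C) subset_rfl (fun x hx => by
      rw [dist_zero_right, hC x hx]; simp) hne
  exact ⟨T, h1, γ, h2, h3, h4, h5⟩

/-- large `n` and exponentials -/
lemma ev_pow {a K : ℝ} (ha : 0 < a) : ∀ᶠ n : ℕ in atTop, K ≤ (2 : ℝ) ^ (a * n) := by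
  have h : Tendsto (fun n : ℕ => ((2 : ℝ) ^ a) ^ n) atTop atTop :=
    tendsto_pow_atTop_atTop_of_one_lt (Real.one_lt_rpow (by norm_num) ha)
  filter_upwards [h.eventually_ge_atTop K] with n hn
  rwa [← Real.rpow_natCast, ← Real.rpow_mul (by norm_num)] at hn

/-- local version -/
theorem uniform_local {s κ ε : ℝ} (hs0 : 0 ≤ s) (hs1 : s < 1) (hκ : 0 < κ) (hε0 : 0 < ε) :
    ∃ ζ : ℝ, 0 < ζ ∧ ∀ᶠ n : ℕ in atTop, ∀ C : Finset (EuclideanSpace ℝ (Fin n)),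
      (∀ x ∈ C, ‖x‖ = 1) → C.Nonempty →
      ∃ T ⊆ C, ∃ γ : ℝ, s ≤ γ ∧ γ ≤ 1 ∧
        (2 : ℝ) ^ (-κ * n) * √(1 - s) ^ n * C.card ≤ T.card ∧
        ((bad T γ ε : ℕ) : ℝ) ≤ (2 : ℝ) ^ (-ζ * n) * T.card ^ 2 ∧
        ∃ S ⊆ T, min (T.card : ℝ) ((2 : ℝ) ^ (ζ * n)) ≤ S.card ∧ AlmostRegular S γ ε := by
  -- it suffices to consider `ε ≤ 1`
  wlog hε1 : ε ≤ 1 generalizing ε
  · obtain ⟨ζ, hζ, h⟩ := this (ε := 1) one_pos le_rfl
    push Not at hε1
    refine ⟨ζ, hζ, ?_⟩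
    filter_upwards [h] with n hn C hC hne
    obtain ⟨T, hT, γ, h1, h2, h3, h4, S, hS, h5, h6⟩ := hn C hC hne
    refine ⟨T, hT, γ, h1, h2, h3, le_trans ?_ h4, S, hS, h5,
      fun x hx y hy hxy => (h6 x hx y hy hxy).trans hε1.le⟩
    have : bad T γ ε ≤ bad T γ 1 := by
      classical
      rw [bad, bad]
      apply Finset.card_le_card
      intro p hp
      rw [Finset.mem_filter] at hp ⊢
      exact ⟨hp.1, hε1.trans hp.2⟩
    exact_mod_cast this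
  have h1s : 0 < 1 - s := by linarith
  have he := expo_pos hε0 hε1
  set b : ℝ := √(1 - s) * (2 : ℝ) ^ (-(κ / 2)) with hb
  have hR0 : 0 < √(1 - s) := Real.sqrt_pos.2 h1s
  have hb0 : 0 < b := by positivity
  have hb2 : b ^ 2 < 1 - s := by
    rw [hb, mul_pow, Real.sq_sqrt h1s.le]
    have : ((2 : ℝ) ^ (-(κ / 2))) ^ 2 < 1 := by
      apply pow_lt_one₀ (by positivity) _ two_ne_zero
      exact Real.rpow_lt_one_of_one_lt_of_neg (by norm_num) (by linarith)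
    nlinarith
  set ζ : ℝ := κ / 4 * expo ε / 2 with hζ
  have hζ0 : 0 < ζ := by positivity
  refine ⟨ζ, hζ0, ?_⟩
  filter_upwards [exists_ball hb0 hb2 hs0, ev_pow (K := 2) (show (0 : ℝ) < κ / 4 by positivity),
    ev_pow (K := 6) hζ0] with n hn hn2 hn6 C hC hne
  obtain ⟨c, T0, hT0C, hT0c, hT0⟩ := hn C hC hne
  have hCpos : (0 : ℝ) < C.card := by exact_mod_cast hne.card_pos
  have hT0ne : T0.Nonempty := by
    rw [← Finset.card_pos]
    have : (0 : ℝ) < T0.card := by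
      have : 0 < (C.card : ℝ) * b ^ n := by positivity
      linarith
    exact_mod_cast this
  obtain ⟨T, γ, h1, -, h2, h3, h4, h5, S, hS, h6, h7⟩ := core hC hs1 hs0 (κ := κ / 4)
    (by positivity) hε0 hε1 hT0C hT0c hT0ne
  refine ⟨T, h1, γ, h2, h3, ?_, ?_, S, hS, ?_, h7⟩
  · refine le_trans ?_ h4
    have hbn : b ^ n = √(1 - s) ^ n * (2 : ℝ) ^ (-(κ / 2) * n) := by
      rw [hb, mul_pow, ← Real.rpow_natCast ((2 : ℝ) ^ (-(κ / 2))), ← Real.rpow_mul (by norm_num)]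
    have h8 : (C.card : ℝ) * (√(1 - s) ^ n * (2 : ℝ) ^ (-(κ / 2) * n)) / 2 ≤ T0.card := by
      rw [← hbn]; linarith
    have h9 : (2 : ℝ) ^ (-κ * n) * 2 ≤ (2 : ℝ) ^ (-(κ / 4) * n) * (2 : ℝ) ^ (-(κ / 2) * n) := by
      rw [← Real.rpow_add (by norm_num)]
      calc (2 : ℝ) ^ (-κ * n) * 2 ≤ (2 : ℝ) ^ (-κ * n) * (2 : ℝ) ^ (κ / 4 * n) :=
            mul_le_mul_of_nonneg_left hn2 (by positivity)
        _ = _ := by rw [← Real.rpow_add (by norm_num)]; congr 1; ring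
    calc (2 : ℝ) ^ (-κ * n) * √(1 - s) ^ n * C.card
        = ((2 : ℝ) ^ (-κ * n) * 2) * (C.card * √(1 - s) ^ n / 2) := by ring
      _ ≤ ((2 : ℝ) ^ (-(κ / 4) * n) * (2 : ℝ) ^ (-(κ / 2) * n)) * (C.card * √(1 - s) ^ n / 2) :=
          mul_le_mul_of_nonneg_right h9 (by positivity)
      _ = (2 : ℝ) ^ (-(κ / 4) * n) *
          ((C.card : ℝ) * (√(1 - s) ^ n * (2 : ℝ) ^ (-(κ / 2) * n)) / 2) := by ring
      _ ≤ _ := mul_le_mul_of_nonneg_left h8 (by positivity)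
  · refine h5.trans ?_
    apply mul_le_mul_of_nonneg_right _ (by positivity)
    have e1 : -(κ / 4 * expo ε) * (n : ℝ) = -ζ * n + -ζ * n := by rw [hζ]; ring
    rw [e1, Real.rpow_add (by norm_num)]
    have e2 : (4 : ℝ) * (2 : ℝ) ^ (-ζ * n) ≤ 1 := by
      have : (2 : ℝ) ^ (-ζ * n) = ((2 : ℝ) ^ (ζ * n))⁻¹ := by
        rw [← Real.rpow_neg (by norm_num)]; congr 1; ring
      rw [this, ← div_eq_mul_inv, div_le_one (by positivity)]
      linarith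
    have e3 : 0 < (2 : ℝ) ^ (-ζ * n) := by positivity
    nlinarith
  · refine le_trans (min_le_min_left _ ?_) h6
    have e1 : κ / 4 * expo ε * (n : ℝ) = ζ * n + ζ * n := by rw [hζ]; ring
    rw [e1, Real.rpow_add (by norm_num), le_div_iff₀ (by norm_num)]
    exact mul_le_mul_of_nonneg_left hn6 (by positivity)

/-- exponentially large simplices -/
theorem simplex_exists {s c ε : ℝ} (hs0 : 0 ≤ s) (hs1 : s < 1) (hε0 : 0 < ε)
    (hc : -(1 / 2) * Real.logb 2 (1 - s) < c) :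
    ∃ ζ : ℝ, 0 < ζ ∧ ∀ᶠ n : ℕ in atTop, ∀ C : Finset (EuclideanSpace ℝ (Fin n)),
      (∀ x ∈ C, ‖x‖ = 1) → (2 : ℝ) ^ (c * n) ≤ C.card →
      ∃ S ⊆ C, ∃ γ : ℝ, s ≤ γ ∧ γ ≤ 1 ∧ (2 : ℝ) ^ (ζ * n) ≤ S.card ∧ AlmostRegular S γ ε := by
  have h1s : 0 < 1 - s := by linarith
  set κ : ℝ := (c + 1 / 2 * Real.logb 2 (1 - s)) / 2 with hκ
  have hκ0 : 0 < κ := by rw [hκ]; linarith
  obtain ⟨ζ, hζ, h⟩ := uniform_local hs0 hs1 hκ0 hε0
  refine ⟨min ζ κ, by positivity, ?_⟩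
  filter_upwards [h] with n hn C hC hcard
  have hCpos : (0 : ℝ) < C.card := lt_of_lt_of_le (by positivity) hcard
  obtain ⟨T, hT, γ, h1, h2, h3, -, S, hS, h5, h6⟩ := hn C hC
    (Finset.card_pos.1 (by exact_mod_cast hCpos))
  refine ⟨S, hS.trans hT, γ, h1, h2, le_trans (le_min ?_ ?_) h5, h6⟩
  · refine le_trans ?_ h3
    have e1 : √(1 - s) ^ n = (2 : ℝ) ^ (1 / 2 * Real.logb 2 (1 - s) * n) := by
      rw [← Real.rpow_natCast, Real.sqrt_eq_rpow, ← Real.rpow_mul h1s.le]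
      conv_lhs => rw [← Real.rpow_logb (b := 2) (by norm_num) (by norm_num) h1s]
      rw [← Real.rpow_mul (by norm_num)]
      congr 1; ring
    calc (2 : ℝ) ^ (min ζ κ * n) ≤ (2 : ℝ) ^ (κ * n) := by
          apply Real.rpow_le_rpow_of_exponent_le (by norm_num)
          exact mul_le_mul_of_nonneg_right (min_le_right _ _) (Nat.cast_nonneg n)
      _ = (2 : ℝ) ^ (-κ * n) * √(1 - s) ^ n * (2 : ℝ) ^ (c * n) := by
          rw [e1, ← Real.rpow_add (by norm_num), ← Real.rpow_add (by norm_num)]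
          congr 1
          rw [hκ]; ring
      _ ≤ _ := mul_le_mul_of_nonneg_left hcard (by positivity)
  · apply Real.rpow_le_rpow_of_exponent_le (by norm_num)
    exact mul_le_mul_of_nonneg_right (min_le_left _ _) (Nat.cast_nonneg n)

/-- partition into simplices -/
theorem partition_aux {n : ℕ} {P : Finset (EuclideanSpace ℝ (Fin n)) → Prop} {t : ℝ}
    (C : Finset (EuclideanSpace ℝ (Fin n)))
    (h : ∀ D ⊆ C, t ≤ D.card → ∃ S ⊆ D, P S ∧ S.Nonempty) :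
    ∃ F : Finset (Finset (EuclideanSpace ℝ (Fin n))),
      (F : Set (Finset (EuclideanSpace ℝ (Fin n)))).PairwiseDisjoint id ∧
      (∀ S ∈ F, S ⊆ C ∧ P S) ∧
      (Set.ncard {x | x ∈ C ∧ ∀ S ∈ F, x ∉ S} : ℝ) < max t 1 := by
  classical
  induction C using Finset.strongInduction with
  | H C ih =>
    rcases lt_or_ge (C.card : ℝ) t with hlt | hge
    · refine ⟨∅, by simp, by simp, ?_⟩
      have : {x | x ∈ C ∧ ∀ S ∈ (∅ : Finset (Finset (EuclideanSpace ℝ (Fin n)))), x ∉ S} = ↑C := by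
        ext x; simp
      rw [this, Set.ncard_coe_finset]
      exact lt_of_lt_of_le hlt (le_max_left _ _)
    · obtain ⟨S, hSC, hPS, hSne⟩ := h C subset_rfl hge
      obtain ⟨F, hF1, hF2, hF3⟩ := ih (C \ S) (Finset.sdiff_ssubset hSC hSne)
        (fun D hD => h D (hD.trans Finset.sdiff_subset))
      refine ⟨insert S F, ?_, ?_, ?_⟩
      · rw [Finset.coe_insert]
        apply hF1.insert
        intro U hU _
        have := (hF2 U hU).1
        exact (Finset.disjoint_of_subset_right this Finset.disjoint_sdiff)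
      · intro U hU
        rcases Finset.mem_insert.1 hU with rfl | hU
        · exact ⟨hSC, hPS⟩
        · exact ⟨(hF2 U hU).1.trans Finset.sdiff_subset, (hF2 U hU).2⟩
      · refine lt_of_le_of_lt ?_ hF3
        have : {x | x ∈ C ∧ ∀ U ∈ insert S F, x ∉ U} ⊆ {x | x ∈ C \ S ∧ ∀ U ∈ F, x ∉ U} := by
          rintro x ⟨hx, hxU⟩
          exact ⟨Finset.mem_sdiff.2 ⟨hx, hxU S (Finset.mem_insert_self _ _)⟩,
            fun U hU => hxU U (Finset.mem_insert_of_mem hU)⟩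
        have hfin : {x | x ∈ C \ S ∧ ∀ U ∈ F, x ∉ U}.Finite :=
          (C \ S).finite_toSet.subset (fun x hx => hx.1)
        exact_mod_cast Set.ncard_le_ncard this hfin

/-- partition into simplices -/
theorem partition {s c ε : ℝ} (hs0 : 0 ≤ s) (hs1 : s < 1) (hε0 : 0 < ε)
    (hc : -(1 / 2) * Real.logb 2 (1 - s) < c) :
    ∃ ζ : ℝ, 0 < ζ ∧ ∀ᶠ n : ℕ in atTop, ∀ C : Finset (EuclideanSpace ℝ (Fin n)),
      (∀ x ∈ C, ‖x‖ = 1) → ∃ F : Finset (Finset (EuclideanSpace ℝ (Fin n))),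
        (F : Set (Finset (EuclideanSpace ℝ (Fin n)))).PairwiseDisjoint id ∧
        (∀ S ∈ F, S ⊆ C ∧ (2 : ℝ) ^ (ζ * n) ≤ S.card ∧
          ∃ γ : ℝ, s ≤ γ ∧ γ ≤ 1 ∧ AlmostRegular S γ ε) ∧
        (Set.ncard {x | x ∈ C ∧ ∀ S ∈ F, x ∉ S} : ℝ) < (2 : ℝ) ^ (c * n) := by
  obtain ⟨ζ, hζ, h⟩ := simplex_exists hs0 hs1 hε0 hc
  refine ⟨ζ, hζ, ?_⟩
  have hc0 : 0 < c := by
    refine lt_of_le_of_lt ?_ hc
    have : Real.logb 2 (1 - s) ≤ 0 :=
      Real.logb_nonpos (by norm_num) (by linarith) (by linarith)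
    linarith
  filter_upwards [h] with n hn C hC
  obtain ⟨F, h1, h2, h3⟩ := partition_aux (t := (2 : ℝ) ^ (c * n)) C (P := fun S =>
    (2 : ℝ) ^ (ζ * n) ≤ S.card ∧ ∃ γ : ℝ, s ≤ γ ∧ γ ≤ 1 ∧ AlmostRegular S γ ε)
    (fun D hD hDc => by
      obtain ⟨S, hS, γ, h1, h2, h3, h4⟩ := hn D (fun x hx => hC x (hD hx)) hDc
      refine ⟨S, hS, ⟨h3, γ, h1, h2, h4⟩, ?_⟩
      have : (0 : ℝ) < S.card := lt_of_lt_of_le (by positivity) h3
      exact Finset.card_pos.1 (by exact_mod_cast this))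
  refine ⟨F, h1, h2, ?_⟩
  have : max ((2 : ℝ) ^ (c * n)) 1 = (2 : ℝ) ^ (c * n) :=
    max_eq_left (Real.one_le_rpow (by norm_num) (by positivity))
  rwa [this] at h3

/-- replacing `γ` by a number at most `κ` -/
lemma AlmostRegular.min {n : ℕ} {S : Finset (EuclideanSpace ℝ (Fin n))} {γ ε κ : ℝ}
    (h : AlmostRegular S γ ε) (hκ : ∀ x ∈ S, ∀ y ∈ S, x ≠ y → ⟪x, y⟫ ≤ κ) :
    AlmostRegular S (min γ κ) ε := by
  intro x hx y hy hxy
  have h1 := abs_le.1 (h x hx y hy hxy)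
  have h2 := hκ x hx y hy hxy
  rw [abs_le]
  rcases le_total γ κ with h3 | h3
  · rw [min_eq_left h3]; exact h1
  · rw [min_eq_right h3]; constructor <;> linarith [h1.1, h1.2]

/-- kissing configurations, explicit exponent -/
theorem kissing_simplex {s c ε ζ : ℝ} (hs0 : 0 ≤ s) (hs1 : s ≤ 1 / 2) (hε0 : 0 < ε) (hε1 : ε ≤ 1)
    (hζ : ζ < ε ^ 2 / 14 * (c + 1 / 2 * Real.logb 2 (1 - s))) (hζ0 : 0 < ζ) :
    ∀ᶠ n : ℕ in atTop, ∀ P : Finset (EuclideanSpace ℝ (Fin n)), IsSphCode n (Real.pi / 3) P →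
      (2 : ℝ) ^ (c * n) ≤ P.card →
      ∃ S ⊆ P, ∃ γ : ℝ, s ≤ γ ∧ γ ≤ 1 / 2 ∧ (2 : ℝ) ^ (ζ * n) ≤ S.card ∧
        AlmostRegular S γ ε := by
  have h1s : 0 < 1 - s := by linarith
  set δ : ℝ := c + 1 / 2 * Real.logb 2 (1 - s) with hδ
  have hδ0 : 0 < δ := by
    by_contra hcon
    push Not at hcon
    have : ε ^ 2 / 14 * δ ≤ 0 := mul_nonpos_of_nonneg_of_nonpos (by positivity) hcon
    linarith
  -- an exponent between
  obtain ⟨δ1, hδ1, hδ1'⟩ : ∃ δ1 : ℝ, ζ < ε ^ 2 / 14 * δ1 ∧ δ1 < δ := by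
    have h14 : 0 < ε ^ 2 / 14 := by positivity
    have : ζ / (ε ^ 2 / 14) < δ := by rw [div_lt_iff₀ h14]; linarith
    obtain ⟨δ1, h1, h2⟩ := exists_between this
    exact ⟨δ1, by rw [div_lt_iff₀ h14] at h1; linarith, h2⟩
  have hδ10 : 0 < δ1 := by
    by_contra hcon
    push Not at hcon
    have : ε ^ 2 / 14 * δ1 ≤ 0 := mul_nonpos_of_nonneg_of_nonpos (by positivity) hcon
    linarith
  have hR0 : 0 < √(1 - s) := Real.sqrt_pos.2 h1s
  set b : ℝ := (2 : ℝ) ^ (δ1 - c) with hb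
  have hb0 : 0 < b := by positivity
  have hbR : b ^ 2 < 1 - s := by
    have e1 : (1 - s) = (2 : ℝ) ^ (Real.logb 2 (1 - s)) :=
      (Real.rpow_logb (by norm_num) (by norm_num) h1s).symm
    rw [e1, hb, ← Real.rpow_natCast, ← Real.rpow_mul (by norm_num)]
    apply Real.rpow_lt_rpow_of_exponent_lt (by norm_num)
    push_cast
    rw [hδ] at hδ1'
    linarith
  set e : ℝ := (ε / 3) ^ 2 / (2 * Real.log (√(1 - s) / (49 / 100)) + (ε / 3) ^ 2) with he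
  have hRr : 49 / 100 ≤ √(1 - s) := by
    apply Real.le_sqrt_of_sq_le
    norm_num
    linarith
  have hlog0 : 0 ≤ Real.log (√(1 - s) / (49 / 100)) :=
    Real.log_nonneg (by rw [le_div_iff₀ (by norm_num)]; linarith)
  have hlog1 : 2 * Real.log (√(1 - s) / (49 / 100)) ≤ 13 / 9 := by
    have h1 : Real.log (√(1 - s) / (49 / 100)) ≤ Real.log (100 / 49) := by
      apply Real.log_le_log (by positivity)
      rw [div_le_iff₀ (by norm_num)]
      have : √(1 - s) ≤ 1 := Real.sqrt_le_one.2 (by linarith)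
      norm_num
      linarith
    have h2 : Real.log (100 / 49) ≤ 13 / 18 := by
      rw [Real.log_le_iff_le_exp (by norm_num)]
      have h3 : (1 : ℝ) + 13 / 18 + (13 / 18) ^ 2 / 2 + (13 / 18) ^ 3 / 6 + (13 / 18) ^ 4 / 24
          ≤ Real.exp (13 / 18) := by
        have := Real.sum_le_exp_of_nonneg (x := 13 / 18) (by norm_num) 5
        simp only [Finset.sum_range_succ, Finset.sum_range_zero, Nat.factorial] at this
        norm_num at this ⊢
        linarith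
      norm_num at h3 ⊢
      linarith
    linarith
  have hee : ε ^ 2 / 14 ≤ e := by
    rw [he, div_le_div_iff₀ (by norm_num) (by positivity)]
    have : 0 < ε ^ 2 := by positivity
    have : ε ^ 2 ≤ 1 := pow_le_one₀ hε0.le hε1
    nlinarith
  have he0 : 0 < e := lt_of_lt_of_le (by positivity) hee
  have he1 : e ≤ 1 := by
    rw [he, div_le_one (by positivity)]
    linarith
  have hgap : 0 < δ1 * e - ζ := by nlinarith
  filter_upwards [exists_ball hb0 hbR hs0, ev_pow (K := 12) hgap,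
    ev_pow (K := 2) hδ10] with n hn hn12 hn2 P hP hcard
  have hPpos : (0 : ℝ) < P.card := lt_of_lt_of_le (by positivity) hcard
  obtain ⟨z, T0, hT0P, hT0c, hT0⟩ := hn P hP.1 (Finset.card_pos.1 (by exact_mod_cast hPpos))
  have hT0big : (2 : ℝ) ^ (δ1 * n) ≤ 2 * T0.card := by
    refine le_trans ?_ hT0
    calc (2 : ℝ) ^ (δ1 * n) = (2 : ℝ) ^ (c * n) * b ^ n := by
          rw [hb, ← Real.rpow_natCast, ← Real.rpow_mul (by norm_num),
            ← Real.rpow_add (by norm_num)]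
          congr 1; ring
      _ ≤ _ := mul_le_mul_of_nonneg_right hcard (by positivity)
  have hT0ne : T0.Nonempty := by
    rw [← Finset.card_pos]
    have : (0 : ℝ) < T0.card := by
      have : 0 < (2 : ℝ) ^ (δ1 * n) := by positivity
      linarith
    exact_mod_cast this
  have hcap : Cap (↑P : Set (EuclideanSpace ℝ (Fin n))) (49 / 100) 1 := by
    intro c Q hQ hQc
    rw [Finset.card_le_one]
    intro x hx y hy
    by_contra hxy
    have hx' : x ∈ P := by exact_mod_cast hQ (Finset.mem_coe.2 hx)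
    have hy' : y ∈ P := by exact_mod_cast hQ (Finset.mem_coe.2 hy)
    have h1 := hP.2 x hx' y hy' hxy
    rw [Real.cos_pi_div_three] at h1
    have hd : dist x y ^ 2 = 2 - 2 * ⟪x, y⟫ := by
      rw [dist_eq_norm, norm_sub_sq_real, hP.1 x hx', hP.1 y hy']; ring
    have h2 : dist x y ≤ 2 * (49 / 100) :=
      (dist_triangle_right x y c).trans (by linarith [hQc x hx, hQc y hy])
    have h3 : dist x y ^ 2 ≤ (2 * (49 / 100)) ^ 2 := pow_le_pow_left₀ dist_nonneg h2 2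
    nlinarith
  obtain ⟨S, d, hSP, hd1, hd2, hSc, hSd⟩ := multi_scale (C := P) (R := √(1 - s)) (r := 49 / 100)
    (ε := ε / 3) (by norm_num) hRr (by positivity) (by linarith) hcap
    (T0 := T0) (c0 := z) (Finset.coe_subset.2 hT0P) hT0c hT0ne
  rw [Nat.cast_one, div_one, ← he] at hSc
  set ρ : ℝ := d / √2 with hρ
  have hs2 : 0 < √2 := by positivity
  have hdρ : √2 * ρ = d := by rw [hρ]; field_simp
  have hρ0 : 0 < ρ := by
    have : 0 < d := lt_of_lt_of_le (by positivity) hd1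
    positivity
  have hρR : ρ ≤ √(1 - s) := by rw [hρ, div_le_iff₀ hs2]; linarith
  have hR1 : √(1 - s) ≤ 1 := Real.sqrt_le_one.2 (by linarith)
  have hreg : AlmostRegular S (1 - ρ ^ 2) ε := by
    intro x hx y hy hxy
    apply ip_of_dist (hP.1 _ (hSP hx)) (hP.1 _ (hSP hy)) hε0 hε1 hρ0 (hρR.trans hR1)
    rw [hdρ]
    exact hSd x hx y hy hxy
  have hγ : s ≤ 1 - ρ ^ 2 := by
    have : ρ ^ 2 ≤ √(1 - s) ^ 2 := pow_le_pow_left₀ hρ0.le hρR 2
    rw [Real.sq_sqrt h1s.le] at this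
    linarith
  refine ⟨S, hSP, min (1 - ρ ^ 2) (1 / 2), le_min hγ hs1, min_le_right _ _, ?_, hreg.min ?_⟩
  · refine le_trans ?_ hSc
    rw [le_div_iff₀ (by norm_num)]
    have h1 : (2 : ℝ) ^ (δ1 * n) / 2 ≤ T0.card := by linarith
    have h2 : ((2 : ℝ) ^ (δ1 * n) / 2) ^ e ≤ (T0.card : ℝ) ^ e :=
      Real.rpow_le_rpow (by positivity) h1 he0.le
    refine le_trans ?_ h2
    rw [Real.div_rpow (by positivity) (by norm_num), le_div_iff₀ (by positivity)]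
    have h3 : (2 : ℝ) ^ e ≤ 2 := by
      calc (2 : ℝ) ^ e ≤ (2 : ℝ) ^ (1 : ℝ) :=
            Real.rpow_le_rpow_of_exponent_le (by norm_num) he1
        _ = 2 := Real.rpow_one 2
    have h4 : ((2 : ℝ) ^ (δ1 * n)) ^ e = (2 : ℝ) ^ (ζ * n) * (2 : ℝ) ^ ((δ1 * e - ζ) * n) := by
      rw [← Real.rpow_mul (by norm_num), ← Real.rpow_add (by norm_num)]
      congr 1; ring
    rw [h4]
    calc (2 : ℝ) ^ (ζ * n) * 6 * (2 : ℝ) ^ e ≤ (2 : ℝ) ^ (ζ * n) * 6 * 2 :=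
          mul_le_mul_of_nonneg_left h3 (by positivity)
      _ = (2 : ℝ) ^ (ζ * n) * 12 := by ring
      _ ≤ _ := mul_le_mul_of_nonneg_left hn12 (by positivity)
  · intro x hx y hy hxy
    have := hP.2 x (hSP hx) y (hSP hy) hxy
    rwa [Real.cos_pi_div_three] at this

/-- sharpness -/
theorem sharp {θ φ : ℝ} (hθ0 : 0 < θ) (hθ1 : θ ≤ Real.pi / 2) (hφ0 : 0 < φ)
    (hφ1 : φ ≤ Real.pi / 2) (h : Real.cos φ ≤ Real.cos θ ^ 2) {δ : ℝ} (hδ : 0 < δ) :
    ∃ K : ℕ, ∀ᶠ n : ℕ in atTop, ∃ P : Finset (EuclideanSpace ℝ (Fin n)), IsSphCode n θ P ∧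
      (2 : ℝ) ^ ((-(1 / 2) * Real.logb 2 (1 - Real.cos φ) - δ) * n) ≤ P.card ∧
      ∀ S ⊆ P, K < S.card → ∃ x ∈ S, ∃ y ∈ S, x ≠ y ∧ ⟪x, y⟫ ≤ Real.cos φ := by
  obtain ⟨K, hK⟩ := bounded_clusters hθ0 hθ1 hφ0 hφ1 h hδ
  refine ⟨K, ?_⟩
  filter_upwards [hK, eventually_ge_atTop 1] with n hn hn1
  have : NeZero n := ⟨by omega⟩
  obtain ⟨P, hP, hPK, hPc⟩ := clusterCode_mem (n := n) (θ := θ) (φ := φ) (K := K) hθ0 hθ1
  refine ⟨P, hP, by rw [hPc]; exact hn, fun S hS hSc => ?_⟩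
  by_contra hcon
  push Not at hcon
  exact absurd (hPK S hS hcon) (not_le.2 hSc)

/-- near-optimal codes -/
theorem near_opt {θ s ε : ℝ} (hθ0 : 0 < θ) (hθ1 : θ < Real.pi / 2) (hs0 : 0 ≤ s)
    (hs : s < Real.cos θ ^ 2) (hε : 0 < ε) :
    ∃ η : ℝ, 0 < η ∧ ∀ᶠ n : ℕ in atTop, ∀ P : Finset (EuclideanSpace ℝ (Fin n)),
      IsSphCode n θ P → (2 : ℝ) ^ (-η * n) * sphMax n θ ≤ P.card →
      ∃ S ⊆ P, ∃ γ : ℝ, s ≤ γ ∧ γ ≤ Real.cos θ ∧ (2 : ℝ) ^ (η * n) ≤ S.card ∧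
        AlmostRegular S γ ε := by
  have hsin : 0 < Real.sin θ := Real.sin_pos_of_pos_of_lt_pi hθ0 (by linarith [Real.pi_pos])
  have hcos : 0 < Real.cos θ := Real.cos_pos_of_mem_Ioo ⟨by linarith, hθ1⟩
  have hcos1 : Real.cos θ ≤ 1 := Real.cos_le_one θ
  have hs1 : Real.cos θ ^ 2 < 1 := by
    have := Real.sin_sq_add_cos_sq θ
    have : 0 < Real.sin θ ^ 2 := by positivity
    linarith
  have hslt : s < 1 := hs.trans hs1
  have h1 : -(1 / 2) * Real.logb 2 (1 - s) < -Real.logb 2 (Real.sin θ) := by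
    rw [← log_sin hθ0 hθ1]
    have : Real.logb 2 (1 - Real.cos θ ^ 2) < Real.logb 2 (1 - s) :=
      Real.logb_lt_logb (by norm_num) (by linarith) (by linarith)
    linarith
  obtain ⟨c, hc1, hc2⟩ := exists_between h1
  obtain ⟨c', hc3, hc4⟩ := exists_between hc2
  obtain ⟨ζ, hζ, h⟩ := simplex_exists hs0 hslt hε hc1
  refine ⟨min ζ (c' - c), by
    have : 0 < c' - c := by linarith
    positivity, ?_⟩
  filter_upwards [h, pow_le_sphMax hθ0 hθ1 hc4] with n hn hns P hP hPc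
  have hn0 : (0 : ℝ) ≤ n := Nat.cast_nonneg n
  have hbig : (2 : ℝ) ^ (c * n) ≤ P.card := by
    refine le_trans ?_ hPc
    calc (2 : ℝ) ^ (c * n) ≤ (2 : ℝ) ^ (-(min ζ (c' - c)) * n + c' * n) := by
          apply Real.rpow_le_rpow_of_exponent_le (by norm_num)
          have : min ζ (c' - c) * n ≤ (c' - c) * n :=
            mul_le_mul_of_nonneg_right (min_le_right _ _) hn0
          linarith
      _ = (2 : ℝ) ^ (-(min ζ (c' - c)) * n) * (2 : ℝ) ^ (c' * n) := Real.rpow_add (by norm_num) _ _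
      _ ≤ _ := mul_le_mul_of_nonneg_left hns (by positivity)
  obtain ⟨S, hS, γ, h2, h3, h4, h5⟩ := hn P hP.1 hbig
  refine ⟨S, hS, min γ (Real.cos θ), le_min h2 ?_, min_le_right _ _, le_trans ?_ h4,
    h5.min (fun x hx y hy hxy => hP.2 x (hS hx) y (hS hy) hxy)⟩
  · nlinarith
  · apply Real.rpow_le_rpow_of_exponent_le (by norm_num)
    exact mul_le_mul_of_nonneg_right (min_le_left _ _) hn0

end Pool.Agent.Helper57.KS
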