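import Pool.Graph.R_pool_sql_team_seeded_63374d34.Results.MP_b5f63d_co.MeanFieldConfigurations

/-! Kissing configurations in random sets of points: definitions and first moment
(for MP_b5f63d_co). -/

set_option autoImplicit false

open MeasureTheory Set Filter
open scoped ENNReal Topology
open Pool.Agent.Results.MP_b5f63d_co.MeanFieldConfigurations

namespace Pool.Agent.Helper57.KR

/-- The points `x i`, `i ∈ I`, have pairwise angles at least `θ`. -/
def Good {n N : ℕ} (θ : ℝ) (x : Fin N → S n) (I : Finset (Fin N)) : Prop :=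
  ∀ i ∈ I, ∀ j ∈ I, i ≠ j → inner ℝ (x i : E n) (x j : E n) ≤ Real.cos θ

/-- The largest number of points with pairwise angles at least `θ` among the points `x i`. -/
noncomputable def best {n N : ℕ} (θ : ℝ) (x : Fin N → S n) : ℕ :=
  sSup {m | ∃ I : Finset (Fin N), Good θ x I ∧ I.card = m}

/-- The law of `N` independent uniform points of the sphere. -/
noncomputable def law (n N : ℕ) : Measure (Fin N → S n) := Measure.pi fun _ => unif n

theorem Good.mono {n N : ℕ} {θ : ℝ} {x : Fin N → S n} {I J : Finset (Fin N)} (h : Good θ x J)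
    (hI : I ⊆ J) : Good θ x I := fun i hi j hj => h i (hI hi) j (hI hj)

theorem best_bdd {n N : ℕ} (θ : ℝ) (x : Fin N → S n) :
    BddAbove {m | ∃ I : Finset (Fin N), Good θ x I ∧ I.card = m} := by
  refine ⟨N, ?_⟩
  rintro m ⟨I, _, rfl⟩
  simpa using Finset.card_le_univ I

theorem le_best_iff {n N : ℕ} (θ : ℝ) (x : Fin N → S n) (k : ℕ) :
    k ≤ best θ x ↔ ∃ I : Finset (Fin N), Good θ x I ∧ I.card = k := by
  constructor
  · intro h
    obtain ⟨I, hI, hc⟩ := Nat.sSup_mem (s := {m | ∃ I : Finset (Fin N), Good θ x I ∧ I.card = m})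
      ⟨0, ∅, fun i hi => by simp at hi, rfl⟩ (best_bdd θ x)
    have h' : k ≤ I.card := by rw [hc]; exact h
    obtain ⟨J, hJ, hJc⟩ := Finset.exists_subset_card_eq h'
    exact ⟨J, hI.mono hJ, hJc⟩
  · rintro ⟨I, hI, rfl⟩
    exact le_csSup (best_bdd θ x) ⟨I, hI, rfl⟩

/-- `unif n` is a probability measure for `2 ≤ n`. -/
theorem unif_prob (n : ℕ) (hn : 2 ≤ n) : IsProbabilityMeasure (unif n) := by
  obtain ⟨c, rfl⟩ := Nat.exists_eq_add_of_le' hn
  exact (Pool.Agent.N434.SG.rotS c).2.1

instance law_prob (n N : ℕ) [IsProbabilityMeasure (unif n)] : IsProbabilityMeasure (law n N) := by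
  unfold law; infer_instance

theorem map_comp_inj {n k N : ℕ} [IsProbabilityMeasure (unif n)] (e : Fin k → Fin N)
    (he : Function.Injective e) :
    (law n N).map (fun (x : Fin N → S n) (j : Fin k) => x (e j)) = law n k := by
  have h1 : ProbabilityTheory.iIndepFun (fun (i : Fin N) (x : Fin N → S n) => x i) (law n N) :=
    ProbabilityTheory.iIndepFun_pi (μ := fun _ : Fin N => unif n) (X := fun _ => id)
      (fun _ => aemeasurable_id)
  have h2 := h1.precomp he
  rw [ProbabilityTheory.iIndepFun_iff_map_fun_eq_pi_map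
    (fun i => (measurable_pi_apply _).aemeasurable)] at h2
  rw [h2]
  unfold law
  congr 1
  funext j
  exact (measurePreserving_eval (fun _ : Fin N => unif n) (e j)).map_eq

theorem codes_meas (n k : ℕ) (θ : ℝ) : MeasurableSet
    {x : Fin k → S n | ∀ i j, i ≠ j → inner ℝ (x i : E n) (x j : E n) ≤ Real.cos θ} := by
  have : {x : Fin k → S n | ∀ i j, i ≠ j → inner ℝ (x i : E n) (x j : E n) ≤ Real.cos θ} =
      ⋂ (i : Fin k) (j : Fin k) (_ : i ≠ j), {x | inner ℝ (x i : E n) (x j : E n) ≤ Real.cos θ} := by
    ext x; simp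
  rw [this]
  refine MeasurableSet.iInter fun i => MeasurableSet.iInter fun j => MeasurableSet.iInter fun _ => ?_
  apply IsClosed.measurableSet
  apply isClosed_le _ continuous_const
  exact (continuous_subtype_val.comp (continuous_apply i)).inner
    (continuous_subtype_val.comp (continuous_apply j))

theorem good_law {n N : ℕ} [IsProbabilityMeasure (unif n)] (θ : ℝ) (I : Finset (Fin N)) :
    (law n N).real {x | Good θ x I} = prob n θ I.card := by
  have h1 : {x : Fin N → S n | Good θ x I} =
      (fun (x : Fin N → S n) (j : Fin I.card) => x (I.orderEmbOfFin rfl j)) ⁻¹'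
        {y | ∀ i j, i ≠ j → inner ℝ (y i : E n) (y j : E n) ≤ Real.cos θ} := by
    ext x
    simp only [mem_preimage, mem_ofPred_eq]
    constructor
    · intro h i j hij
      exact h _ (Finset.orderEmbOfFin_mem I rfl i) _ (Finset.orderEmbOfFin_mem I rfl j)
        (fun he => hij ((I.orderEmbOfFin rfl).injective he))
    · intro h i hi j hj hij
      have hi' : i ∈ Set.range (I.orderEmbOfFin rfl) := by
        rw [Finset.range_orderEmbOfFin]; exact hi
      have hj' : j ∈ Set.range (I.orderEmbOfFin rfl) := by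
        rw [Finset.range_orderEmbOfFin]; exact hj
      obtain ⟨a, rfl⟩ := hi'
      obtain ⟨b, rfl⟩ := hj'
      exact h a b (fun hab => hij (by rw [hab]))
  have hm : Measurable (fun (x : Fin N → S n) (j : Fin I.card) => x (I.orderEmbOfFin rfl j)) :=
    measurable_pi_lambda _ fun j => measurable_pi_apply _
  rw [h1, measureReal_def, ← Measure.map_apply hm (codes_meas n _ θ),
    map_comp_inj _ (I.orderEmbOfFin rfl).injective]
  rfl

/-- The first moment bound. -/
theorem first_moment {n N : ℕ} [IsProbabilityMeasure (unif n)] (θ : ℝ) (k : ℕ) :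
    (law n N).real {x | k ≤ best θ x} ≤ N.choose k * prob n θ k := by
  classical
  have h1 : {x : Fin N → S n | k ≤ best θ x} ⊆
      ⋃ I ∈ (Finset.univ : Finset (Fin N)).powersetCard k, {x | Good θ x I} := by
    intro x hx
    obtain ⟨I, hI, hc⟩ := (le_best_iff θ x k).1 hx
    simp only [mem_iUnion]
    exact ⟨I, Finset.mem_powersetCard.2 ⟨Finset.subset_univ _, hc⟩, hI⟩
  calc (law n N).real {x | k ≤ best θ x} ≤ _ := measureReal_mono h1 (measure_ne_top _ _)
    _ ≤ ∑ I ∈ (Finset.univ : Finset (Fin N)).powersetCard k, (law n N).real {x | Good θ x I} :=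
        measureReal_biUnion_finset_le _ _
    _ = ∑ I ∈ (Finset.univ : Finset (Fin N)).powersetCard k, prob n θ k := by
        apply Finset.sum_congr rfl
        intro I hI
        rw [good_law, (Finset.mem_powersetCard.1 hI).2]
    _ = _ := by
        rw [Finset.sum_const, Finset.card_powersetCard, Finset.card_univ, Fintype.card_fin,
          nsmul_eq_mul]

theorem choose_le (N k : ℕ) (hk : 0 < k) :
    (N.choose k : ℝ) ≤ (Real.exp 1 * N / k) ^ k := by
  have hk0 : (0 : ℝ) < k := by exact_mod_cast hk
  have h1 : (N.choose k : ℝ) ≤ N ^ k / k.factorial := Nat.choose_le_pow_div k N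
  have h2 : (k : ℝ) ^ k / k.factorial ≤ Real.exp k := Real.pow_div_factorial_le_exp k hk0.le k
  have hf : (0 : ℝ) < k.factorial := by exact_mod_cast k.factorial_pos
  refine h1.trans ?_
  have h3 : (Real.exp 1 * N / k) ^ k = Real.exp k * N ^ k / k ^ k := by
    rw [div_pow, mul_pow, ← Real.exp_nat_mul, mul_one]
  rw [h3, div_le_div_iff₀ hf (by positivity)]
  rw [div_le_iff₀ hf] at h2
  calc (N : ℝ) ^ k * k ^ k ≤ N ^ k * (Real.exp k * k.factorial) :=
        mul_le_mul_of_nonneg_left h2 (by positivity)
    _ = _ := by ring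

/-- First moment, exponential form. -/
theorem first_moment_exp {n N : ℕ} [IsProbabilityMeasure (unif n)] (θ : ℝ) (k : ℕ) (hk : 0 < k)
    (A : ℝ) (hp : prob n θ k ≤ Real.exp (-(A * k)))
    (hN : Real.exp 2 * N ≤ k * Real.exp A) :
    (law n N).real {x | k ≤ best θ x} ≤ Real.exp (-k) := by
  have hk0 : (0 : ℝ) < k := by exact_mod_cast hk
  refine (first_moment θ k).trans ?_
  calc (N.choose k : ℝ) * prob n θ k ≤ (Real.exp 1 * N / k) ^ k * Real.exp (-(A * k)) :=
        mul_le_mul (choose_le N k hk) hp (by unfold prob; positivity) (by positivity)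
    _ = (Real.exp 1 * N / k * Real.exp (-A)) ^ k := by
        rw [mul_pow, ← Real.exp_nat_mul]
        congr 2; ring
    _ ≤ (Real.exp (-1)) ^ k := by
        apply pow_le_pow_left₀ (by positivity)
        rw [div_mul_eq_mul_div, div_le_iff₀ hk0]
        have e1 : Real.exp 1 * N * Real.exp (-A) = Real.exp (-A - 1) * (Real.exp 2 * N) := by
          rw [← mul_assoc, ← Real.exp_add]
          rw [show Real.exp 1 * N * Real.exp (-A) = Real.exp 1 * Real.exp (-A) * N by ring,
            ← Real.exp_add]
          congr 2; ring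
        rw [e1]
        calc _ ≤ Real.exp (-A - 1) * (k * Real.exp A) :=
              mul_le_mul_of_nonneg_left hN (Real.exp_pos _).le
          _ = (Real.exp (-A - 1) * Real.exp A) * k := by ring
          _ = _ := by rw [← Real.exp_add]; congr 2; ring
    _ = Real.exp (-k) := by
        rw [← Real.exp_nat_mul]; congr 1; ring

end Pool.Agent.Helper57.KR
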