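import Pool.Agent.Helper57.KS.RMoment

/-! Kissing configurations in random sets of points: final statements (for MP_b5f63d_co). -/

set_option autoImplicit false

open MeasureTheory Set Filter
open scoped ENNReal Topology
open Pool.Agent.Results.MP_b5f63d_co.MeanFieldConfigurations
open Pool.Agent.N549.SG (capVol sig near)

namespace Pool.Agent.Helper57.KR

theorem cap_pos {c : ℕ} {θ : ℝ} (h : 0 < θ) (h1 : θ < Real.pi / 2) :
    0 < capVol c (Real.cos θ) := by
  obtain ⟨hc, hc1⟩ := cos_mem h h1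
  exact (Pool.Agent.N424.SG.Capr.capr c (Real.cos θ) (Real.cos θ) hc le_rfl hc1).1

/-- lower bound for all intensities -/
theorem lower_all {θ : ℝ} (h : 0 < θ) (h1 : θ < Real.pi / 2) :
    ∀ᶠ n : ℕ in atTop, ∀ (x₀ : S n) (N : ℕ), 1 / cap n θ x₀ ≤ N →
      (law n N).real {x | (best θ x : ℝ) < 1 / (8 * cap n θ x₀)} ≤
        (1 / 2 : ℝ) ^ (N * cap n θ x₀) := by
  obtain ⟨b, hb, hsm⟩ := cap_small h h1
  filter_upwards [hsm, eventually_ge_atTop 2, exp_large b hb 4] with n hs hn2 he x₀ N hN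
  have hP := unif_prob n hn2
  obtain ⟨c, rfl⟩ := Nat.exists_eq_add_of_le' hn2
  have hs0 := hs x₀
  rw [cap_eq] at hN hs0 ⊢
  set Δ := capVol c (Real.cos θ) with hΔ
  have hΔ0 : 0 < Δ := cap_pos h h1
  have hΔ4 : Δ ≤ 1 / 4 := by
    refine hs0.trans ?_
    rw [Real.exp_neg, one_div]
    exact inv_anti₀ (by norm_num) he
  set N1 : ℕ := ⌊1 / (2 * Δ)⌋₊ with hN1
  have hN1a : (N1 : ℝ) ≤ 1 / (2 * Δ) := Nat.floor_le (by positivity)
  have hN1b : 1 / (2 * Δ) < N1 + 1 := Nat.lt_floor_add_one _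
  have hN1d : 1 / (8 * Δ) ≤ (N1 : ℝ) / 2 := by
    have e1 : 1 / (2 * Δ) = 4 * (1 / (8 * Δ)) := by field_simp; norm_num
    have e2 : 1 / 2 ≤ 1 / (8 * Δ) := by
      rw [div_le_div_iff₀ (by norm_num) (by positivity)]; linarith
    rw [e1] at hN1b
    linarith
  have hN1pos : (0 : ℝ) < N1 := by
    have : 0 < 1 / (8 * Δ) := by positivity
    linarith
  set m : ℕ := ⌈1 / (8 * Δ)⌉₊ with hm
  have hset : ∀ M : ℕ, {x : Fin M → S (c + 2) | (best θ x : ℝ) < 1 / (8 * Δ)} =
      {x | best θ x < m} := by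
    intro M
    ext x
    exact (Nat.lt_ceil (n := best θ x) (a := 1 / (8 * Δ))).symm
  have hblock : (law (c + 2) N1).real {x | best θ x < m} ≤ 1 / 2 := by
    rw [← hset]
    have hsub : {x : Fin N1 → S (c + 2) | (best θ x : ℝ) < 1 / (8 * Δ)} ⊆
        {x | (N1 : ℝ) ≤ (pairs θ x : ℝ)} := by
      intro x hx
      by_contra hcon
      rw [mem_ofPred_eq, not_le] at hcon
      have h2 := det_pairs θ x (by exact_mod_cast hcon)
      rw [mem_ofPred_eq] at hx
      linarith
    refine (measureReal_mono hsub (measure_ne_top _ _)).trans ?_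
    refine (pairs_markov θ N1 hN1pos).trans ?_
    rw [← hΔ]
    have e : (N1 : ℝ) ^ 2 * Δ / N1 = N1 * Δ := by field_simp
    rw [e]
    calc (N1 : ℝ) * Δ ≤ 1 / (2 * Δ) * Δ := mul_le_mul_of_nonneg_right hN1a hΔ0.le
      _ = 1 / 2 := by field_simp
  set B : ℕ := N / N1 with hB
  have hBN : B * N1 ≤ N := Nat.div_mul_le_self N N1
  have hBlt : N < (B + 1) * N1 := by
    have hpos : 0 < N1 := by exact_mod_cast hN1pos
    have := Nat.lt_mul_div_succ N hpos
    rw [hB]
    calc N < N1 * (N / N1 + 1) := this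
      _ = _ := by ring
  have hNΔ : 1 ≤ N * Δ := by
    rw [div_le_iff₀ hΔ0] at hN
    exact hN
  have hBge : N * Δ ≤ B := by
    have h2 : (N : ℝ) < (B + 1) * N1 := by exact_mod_cast hBlt
    have h3 : (N : ℝ) < (B + 1) * (1 / (2 * Δ)) :=
      lt_of_lt_of_le h2 (mul_le_mul_of_nonneg_left hN1a (by positivity))
    have h4 : (N : ℝ) * Δ * 2 < B + 1 := by
      have : (B + 1 : ℝ) * (1 / (2 * Δ)) * (Δ * 2) = B + 1 := by field_simp
      rw [← this]
      calc (N : ℝ) * Δ * 2 = N * (Δ * 2) := by ring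
        _ < _ := mul_lt_mul_of_pos_right h3 (by positivity)
    linarith
  rw [hset]
  refine (fail_le θ N1 m N B hBN).trans ?_
  calc (law (c + 2) N1).real {x | best θ x < m} ^ B ≤ (1 / 2 : ℝ) ^ B :=
        pow_le_pow_left₀ measureReal_nonneg hblock B
    _ = (1 / 2 : ℝ) ^ (B : ℝ) := (Real.rpow_natCast _ _).symm
    _ ≤ _ := Real.rpow_le_rpow_of_exponent_ge (by norm_num) (by norm_num) hBge

/-- lower bound of the order `n / Δ` -/
theorem lower_log {θ : ℝ} (h : 0 < θ) (h1 : θ < Real.pi / 2) {σ η : ℝ} (hσ : 0 < σ)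
    (hη : 0 < η) (hL : 2 * σ < L θ) :
    ∀ᶠ n : ℕ in atTop, ∀ (x₀ : S n) (N : ℕ), Real.exp ((σ + η) * n) / cap n θ x₀ ≤ N →
      (law n N).real {x | (best θ x : ℝ) < σ * n / (256 * cap n θ x₀)} ≤
        Real.exp (-Real.exp (η / 2 * n)) := by
  obtain ⟨hc, hc1⟩ := cos_mem h h1
  set t : ℝ := Real.cos θ with ht
  obtain ⟨b1, b2, b3⟩ := Pool.Agent.N549.SG.tp_bounds t hc hc1
  set g : ℝ := L θ - 2 * σ with hg
  have hg0 : 0 < g := by rw [hg]; linarith
  obtain ⟨b, hb, hsm⟩ := cap_small h h1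
  filter_upwards [hsm, eventually_ge_atTop 2, exp_large σ hσ 2, exp_large b hb 4,
    exp_large g hg0 (32 * Real.exp (L θ) / (t * Pool.Agent.N549.SG.tp t)),
    exp_large (η / 2) (by positivity) 8] with n hs hn2 heσ heb heg heη x₀ N hN
  have hP := unif_prob n hn2
  obtain ⟨c, rfl⟩ := Nat.exists_eq_add_of_le' hn2
  have hs0 := hs x₀
  rw [cap_eq] at hN hs0 ⊢
  rw [← ht] at hN hs0 ⊢
  set Δ := capVol c t with hΔ
  have hΔ0 : 0 < Δ := by
    rw [hΔ, ht]; exact cap_pos h h1
  have hΔ4 : Δ ≤ 1 / 4 := by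
    refine hs0.trans ?_
    rw [Real.exp_neg, one_div]
    exact inv_anti₀ (by norm_num) heb
  set nn : ℝ := ((c + 2 : ℕ) : ℝ) with hnn
  set N1 : ℕ := ⌊Real.exp (σ * nn) / Δ⌋₊ with hN1
  have hy0 : 0 < Real.exp (σ * nn) / Δ := by positivity
  have hN1a : (N1 : ℝ) ≤ Real.exp (σ * nn) / Δ := Nat.floor_le hy0.le
  have hN1b : Real.exp (σ * nn) / Δ < N1 + 1 := Nat.lt_floor_add_one _
  have hN1c : Real.exp (σ * nn) ≤ 8 * N1 * Δ := by
    have h2 : Real.exp (σ * nn) < (N1 + 1) * Δ := by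
      rwa [div_lt_iff₀ hΔ0] at hN1b
    nlinarith
  have hN1pos : (0 : ℝ) < N1 := by
    by_contra hcon
    push Not at hcon
    have h2 : 8 * (N1 : ℝ) * Δ ≤ 0 := by nlinarith
    have := Real.exp_pos (σ * nn)
    linarith
  set D : ℝ := 8 * N1 * Δ with hD
  have hD1 : 1 ≤ D := by linarith
  have hlogD : σ * nn ≤ Real.log D := by
    rw [Real.le_log_iff_exp_le (by linarith)]
    exact hN1c
  set m : ℕ := ⌈σ * nn / (256 * Δ)⌉₊ with hm
  have hset : ∀ M : ℕ, {x : Fin M → S (c + 2) | (best θ x : ℝ) < σ * nn / (256 * Δ)} =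
      {x | best θ x < m} := by
    intro M
    ext x
    exact (Nat.lt_ceil (n := best θ x) (a := σ * nn / (256 * Δ))).symm
  have hblock : (law (c + 2) N1).real {x | best θ x < m} ≤ 3 / 4 := by
    rw [← hset]
    have hsub : {x : Fin N1 → S (c + 2) | (best θ x : ℝ) < σ * nn / (256 * Δ)} ⊆
        {x | (N1 : ℝ) * D / 4 ≤ (pairs θ x : ℝ)} ∪ {x | (N1 : ℝ) / 4 ≤ (triangles θ x : ℝ)} := by
      intro x hx
      by_contra hcon
      rw [mem_union, not_or, mem_ofPred_eq, mem_ofPred_eq, not_le, not_le] at hcon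
      obtain ⟨hc1', hc2'⟩ := hcon
      have hT : 4 * triangles θ x ≤ N1 := by
        have : 4 * (triangles θ x : ℝ) ≤ N1 := by linarith
        exact_mod_cast this
      have h2 := det_triangles θ x D hD1 hT (by linarith)
      rw [mem_ofPred_eq, lt_div_iff₀ (by positivity)] at hx
      have h3 : (N1 : ℝ) * (σ * nn) ≤ 32 * D * best θ x :=
        (mul_le_mul_of_nonneg_left hlogD hN1pos.le).trans h2
      have h4 : 32 * D * best θ x = N1 * (best θ x * (256 * Δ)) := by rw [hD]; ring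
      rw [h4] at h3
      have h5 := le_of_mul_le_mul_left h3 hN1pos
      linarith
    refine (measureReal_mono hsub (measure_ne_top _ _)).trans ?_
    refine (measureReal_union_le _ _).trans ?_
    have p1 := pairs_markov (c := c) (N := N1) θ (N1 * D / 4) (by positivity)
    have p2 := triangles_markov (c := c) (N := N1) hc hc1 (N1 / 4) (by positivity)
    rw [← ht, ← hΔ] at p1 p2
    have e1 : (N1 : ℝ) ^ 2 * Δ / (N1 * D / 4) = 1 / 2 := by
      rw [hD]; field_simp; norm_num
    rw [e1] at p1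
    have e2 : (N1 : ℝ) ^ 3 * (2 * capVol c (Pool.Agent.N549.SG.tp t) * Δ) / (N1 / 4) ≤ 1 / 4 := by
      have hcap' : 0 ≤ capVol c (Pool.Agent.N549.SG.tp t) := measureReal_nonneg
      have f1 : (N1 : ℝ) ^ 3 * (2 * capVol c (Pool.Agent.N549.SG.tp t) * Δ) / (N1 / 4) =
          8 * (N1 * Δ) ^ 2 * (capVol c (Pool.Agent.N549.SG.tp t) / Δ) := by
        field_simp
        ring
      rw [f1]
      have f2 : (N1 : ℝ) * Δ ≤ Real.exp (σ * nn) := by
        rwa [le_div_iff₀ hΔ0] at hN1a
      obtain ⟨-, f3⟩ := Pool.Agent.N424.SG.Capr.capr c t (Pool.Agent.N549.SG.tp t) hc b1 b2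
      rw [Pool.Agent.N549.SG.sqrt_ratio t hc hc1] at f3
      have f4 : capVol c (Pool.Agent.N549.SG.tp t) / Δ ≤
          Real.exp (-Pool.Agent.N549.SG.X2 t) ^ (c + 1) / (t * Pool.Agent.N549.SG.tp t) := by
        rw [div_le_iff₀ hΔ0]; exact f3
      have f5 : Pool.Agent.N549.SG.X2 t = L θ := L_eq θ h h1
      rw [f5] at f4
      have f6 : Real.exp (-L θ) ^ (c + 1) = Real.exp (L θ) * Real.exp (-(L θ * nn)) := by
        rw [← Real.exp_nat_mul, ← Real.exp_add]
        congr 1
        rw [hnn]; push_cast; ring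
      rw [f6] at f4
      have f7 : (N1 * Δ : ℝ) ^ 2 ≤ Real.exp (2 * σ * nn) := by
        have := pow_le_pow_left₀ (by positivity) f2 2
        rw [← Real.exp_nat_mul] at this
        refine this.trans (le_of_eq ?_)
        congr 1; push_cast; ring
      calc 8 * (N1 * Δ) ^ 2 * (capVol c (Pool.Agent.N549.SG.tp t) / Δ)
          ≤ 8 * Real.exp (2 * σ * nn) * (Real.exp (L θ) * Real.exp (-(L θ * nn)) /
            (t * Pool.Agent.N549.SG.tp t)) := by
            apply mul_le_mul _ f4 (by positivity) (by positivity)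
            linarith
        _ = (32 * Real.exp (L θ) / (t * Pool.Agent.N549.SG.tp t)) / 4 *
            (Real.exp (2 * σ * nn) * Real.exp (-(L θ * nn))) := by ring
        _ ≤ Real.exp (g * nn) / 4 * (Real.exp (2 * σ * nn) * Real.exp (-(L θ * nn))) := by
            apply mul_le_mul_of_nonneg_right _ (by positivity)
            linarith
        _ = 1 / 4 * (Real.exp (g * nn) * (Real.exp (2 * σ * nn) * Real.exp (-(L θ * nn)))) := by
            ring
        _ = 1 / 4 := by
            rw [← Real.exp_add, ← Real.exp_add]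
            have : g * nn + (2 * σ * nn + -(L θ * nn)) = 0 := by rw [hg]; ring
            rw [this, Real.exp_zero, mul_one]
    linarith
  set B : ℕ := N / N1 with hB
  have hBN : B * N1 ≤ N := Nat.div_mul_le_self N N1
  have hBlt : N < (B + 1) * N1 := by
    have hpos : 0 < N1 := by exact_mod_cast hN1pos
    have := Nat.lt_mul_div_succ N hpos
    rw [hB]
    calc N < N1 * (N / N1 + 1) := this
      _ = _ := by ring
  have hBge : Real.exp (η * nn) ≤ B + 1 := by
    have h2 : (N : ℝ) < (B + 1) * N1 := by exact_mod_cast hBlt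
    have h3 : Real.exp ((σ + η) * nn) / Δ < (B + 1) * (Real.exp (σ * nn) / Δ) :=
      lt_of_le_of_lt hN (lt_of_lt_of_le h2 (mul_le_mul_of_nonneg_left hN1a (by positivity)))
    have h4 : Real.exp ((σ + η) * nn) = Real.exp (η * nn) * Real.exp (σ * nn) := by
      rw [← Real.exp_add]; congr 1; ring
    rw [h4, mul_div_assoc] at h3
    exact (lt_of_mul_lt_mul_right h3 hy0.le).le
  have hBge2 : 4 * Real.exp (η / 2 * nn) ≤ B := by
    have h5 : Real.exp (η * nn) = Real.exp (η / 2 * nn) * Real.exp (η / 2 * nn) := by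
      rw [← Real.exp_add]; congr 1; ring
    rw [h5] at hBge
    nlinarith
  rw [hset]
  refine (fail_le θ N1 m N B hBN).trans ?_
  have hlog34 : Real.log (3 / 4) ≤ -(1 / 4) := by
    have := Real.log_le_sub_one_of_pos (show (0 : ℝ) < 3 / 4 by norm_num)
    linarith
  calc (law (c + 2) N1).real {x | best θ x < m} ^ B ≤ (3 / 4 : ℝ) ^ B :=
        pow_le_pow_left₀ measureReal_nonneg hblock B
    _ = Real.exp (B * Real.log (3 / 4)) := by
        rw [mul_comm, ← Real.rpow_def_of_pos (by norm_num), Real.rpow_natCast]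
    _ ≤ _ := by
        rw [Real.exp_le_exp]
        nlinarith

/-- The order of magnitude. -/
theorem window {θ : ℝ} (h : 0 < θ) (h1 : θ < Real.pi / 2) {δ ε : ℝ} (hδ : 0 < δ) (hε : 0 < ε) :
    ∃ a A : ℝ, 0 < a ∧ 0 < A ∧ ∀ᶠ n : ℕ in atTop, ∀ (x₀ : S n) (N : ℕ),
      Real.exp (δ * n) / cap n θ x₀ ≤ N → N ≤ Real.exp ((K θ - ε) * n) / cap n θ x₀ →
      (law n N).real {x | ¬ (a * n / cap n θ x₀ ≤ best θ x ∧ best θ x ≤ A * n / cap n θ x₀)} ≤
        Real.exp (-Real.exp (a * n)) := by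
  obtain ⟨c, C, hc, hC, hup⟩ := upper_window h h1 hε
  have hL := L_pos θ h h1
  set σ : ℝ := min (δ / 2) (L θ / 4) with hσ
  have hσ0 : 0 < σ := by positivity
  have hσ1 : σ ≤ δ / 2 := min_le_left _ _
  have hσ2 : σ ≤ L θ / 4 := min_le_right _ _
  have hlow := lower_log h h1 (σ := σ) (η := δ / 2) hσ0 (by positivity) (by linarith)
  set a : ℝ := min (σ / 256) (min (c / 2) (δ / 8)) with ha
  have ha0 : 0 < a := by positivity
  have ha1 : a ≤ σ / 256 := min_le_left _ _
  have ha2 : a ≤ c / 2 := (min_le_right _ _).trans (min_le_left _ _)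
  have ha3 : a ≤ δ / 8 := (min_le_right _ _).trans (min_le_right _ _)
  refine ⟨a, C, ha0, hC, ?_⟩
  filter_upwards [hup, hlow, exp_large a ha0 2, eventually_ge_atTop 2] with n hu hl he hn2 x₀ N hN1 hN2
  have hP := unif_prob n hn2
  obtain ⟨c', rfl⟩ := Nat.exists_eq_add_of_le' hn2
  have hΔ0 : 0 < cap (c' + 2) θ x₀ := by rw [cap_eq]; exact cap_pos h h1
  set nn : ℝ := ((c' + 2 : ℕ) : ℝ) with hnn
  have hnn0 : 0 ≤ nn := Nat.cast_nonneg _
  have h2 := hu x₀ N hN2
  have h3 := hl x₀ N (le_trans (by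
    apply div_le_div_of_nonneg_right _ hΔ0.le
    rw [Real.exp_le_exp]
    nlinarith) hN1)
  have hsub : {x : Fin N → S (c' + 2) | ¬ (a * nn / cap (c' + 2) θ x₀ ≤ best θ x ∧
      best θ x ≤ C * nn / cap (c' + 2) θ x₀)} ⊆
      {x | (best θ x : ℝ) < σ * nn / (256 * cap (c' + 2) θ x₀)} ∪
      {x | C * nn / cap (c' + 2) θ x₀ < best θ x} := by
    intro x hx
    rw [mem_ofPred_eq, not_and_or, not_le, not_le] at hx
    rcases hx with hx | hx
    · left
      rw [mem_ofPred_eq]
      refine lt_of_lt_of_le hx ?_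
      rw [div_le_div_iff₀ hΔ0 (by positivity)]
      have : a * nn ≤ σ / 256 * nn := mul_le_mul_of_nonneg_right ha1 hnn0
      nlinarith
    · right; exact hx
  refine (measureReal_mono hsub (measure_ne_top _ _)).trans ?_
  refine (measureReal_union_le _ _).trans ?_
  -- both probabilities are at most `exp (-exp (2 a n))`
  have k1 : Real.exp (-Real.exp (c * nn)) ≤ Real.exp (-Real.exp (2 * a * nn)) := by
    rw [Real.exp_le_exp, neg_le_neg_iff, Real.exp_le_exp]
    nlinarith
  have k2 : Real.exp (-Real.exp (δ / 2 / 2 * nn)) ≤ Real.exp (-Real.exp (2 * a * nn)) := by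
    rw [Real.exp_le_exp, neg_le_neg_iff, Real.exp_le_exp]
    nlinarith
  have k3 : 2 * Real.exp (-Real.exp (2 * a * nn)) ≤ Real.exp (-Real.exp (a * nn)) := by
    have e1 : Real.exp (2 * a * nn) = Real.exp (a * nn) * Real.exp (a * nn) := by
      rw [← Real.exp_add]; congr 1; ring
    have e2 : Real.exp (a * nn) + 1 ≤ Real.exp (2 * a * nn) := by rw [e1]; nlinarith
    have e3 : (2 : ℝ) ≤ Real.exp 1 := by
      have := Real.add_one_le_exp (1 : ℝ); linarith
    calc 2 * Real.exp (-Real.exp (2 * a * nn)) ≤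
          Real.exp 1 * Real.exp (-Real.exp (2 * a * nn)) :=
          mul_le_mul_of_nonneg_right e3 (Real.exp_pos _).le
      _ = Real.exp (1 - Real.exp (2 * a * nn)) := by rw [← Real.exp_add]; congr 1
      _ ≤ _ := by rw [Real.exp_le_exp]; linarith
  linarith

/-- A lower bound for the window of the kissing configurations. -/
theorem K_kiss : (0.0659 : ℝ) < K (Real.pi / 3) := by
  have h3 : (0 : ℝ) < Real.sqrt 3 := by positivity
  have hs3 := Real.sq_sqrt (show (0 : ℝ) ≤ 3 by norm_num)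
  have hs3l : (1.732 : ℝ) < Real.sqrt 3 := by
    rw [Real.lt_sqrt (by norm_num)]; norm_num
  have hs3u : Real.sqrt 3 < 1.73206 := by
    rw [Real.sqrt_lt' (by norm_num)]; norm_num
  have hmu : mu (Real.pi / 3) = Real.sqrt 3 / 3 - 1 / 2 := by
    unfold mu
    rw [Real.sin_pi_div_three]
    field_simp
    nlinarith
  have hm1 : (0.0773 : ℝ) < mu (Real.pi / 3) := by rw [hmu]; linarith
  have hm2 : mu (Real.pi / 3) < 0.0774 := by rw [hmu]; linarith
  unfold K
  rw [Real.sin_pi_div_three]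
  set m := mu (Real.pi / 3) with hm
  have hm0 : 0 < m := by linarith
  have l2 := Real.log_two_gt_d9
  -- the first term
  have k1 : 0.0801 ≤ (1 + m) * Real.log (1 + m) := by
    have h4 : 2 * m / (2 + m) ≤ Real.log (1 + m) := by
      have := Real.le_log_one_add_of_nonneg hm0.le
      rwa [add_comm m 2] at this
    have h5 : 0.07435 ≤ 2 * m / (2 + m) := by
      rw [le_div_iff₀ (by linarith)]; linarith
    nlinarith
  -- the second term
  have k2 : 0.1976 ≤ -(m * Real.log m) := by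
    have h4 : Real.log m ≤ Real.log 0.0774 := Real.log_le_log hm0 hm2.le
    have h5 : Real.log 0.0774 ≤ -2.5564 := by
      have e1 : (0.0774 : ℝ) = (12.9198)⁻¹ * (0.0774 * 12.9198) := by norm_num
      have e2 : Real.log (0.0774 : ℝ) ≤ Real.log ((12.9198 : ℝ)⁻¹) := by
        apply Real.log_le_log (by norm_num)
        norm_num
      have e3 : Real.log ((12.9198 : ℝ)⁻¹) = -Real.log 12.9198 := Real.log_inv _
      have e4 : Real.log (12.9198 : ℝ) = 3 * Real.log 2 + Real.log 1.614975 := by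
        rw [show (12.9198 : ℝ) = 2 ^ 3 * 1.614975 by norm_num,
          Real.log_mul (by norm_num) (by norm_num), Real.log_pow]
        norm_num
      have e5 : 0.477 ≤ Real.log 1.614975 := by
        have e6 : 2 * Real.log 1.2708 ≤ Real.log 1.614975 := by
          rw [show 2 * Real.log (1.2708 : ℝ) = Real.log (1.2708 ^ 2) by
            rw [Real.log_pow]; norm_num]
          exact Real.log_le_log (by norm_num) (by norm_num)
        have e7 := Real.le_log_one_add_of_nonneg (show (0 : ℝ) ≤ 0.2708 by norm_num)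
        have e8 : (0.2385 : ℝ) ≤ 2 * 0.2708 / (0.2708 + 2) := by
          rw [le_div_iff₀ (by norm_num)]; norm_num
        have e9 : (1 : ℝ) + 0.2708 = 1.2708 := by norm_num
        rw [e9] at e7
        linarith
      rw [e3, e4] at e2
      linarith
    nlinarith
  -- the third term
  have k3 : -0.14584 ≤ Real.log (Real.sqrt 3 / 2) := by
    have e1 : Real.log (Real.sqrt 3 / 2) = -Real.log (2 / Real.sqrt 3) := by
      rw [← Real.log_inv, inv_div]
    have e2 : 2 * Real.log (2 / Real.sqrt 3) = Real.log (4 / 3) := by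
      have : (4 / 3 : ℝ) = (2 / Real.sqrt 3) ^ 2 := by
        rw [div_pow, hs3]; norm_num
      rw [this, Real.log_pow]; norm_num
    have e3 : Real.log (4 / 3) ≤ 0.29167 := by
      rw [Real.log_le_iff_le_exp (by norm_num)]
      have := Real.sum_le_exp_of_nonneg (x := 0.29167) (by norm_num) 4
      simp only [Finset.sum_range_succ, Finset.sum_range_zero, Nat.factorial] at this
      norm_num at this ⊢
      linarith
    rw [e1]
    linarith
  linarith

/-- Kissing configurations: between `2^(0.2076 n)` and `2^(0.3025 n)` points the exponent is the one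
of Wyner. -/
theorem kissing_window {ε : ℝ} (hε : 0 < ε) :
    ∃ a : ℝ, 0 < a ∧ ∀ᶠ n : ℕ in atTop, ∀ N : ℕ, (2 : ℝ) ^ ((0.208 : ℝ) * n) ≤ N →
      N ≤ (2 : ℝ) ^ ((0.302 : ℝ) * n) →
      (law n N).real {x | ε < |Real.logb 2 (best (Real.pi / 3) x) / n -
        Real.logb 2 (2 / Real.sqrt 3)|} ≤ Real.exp (-Real.exp (a * n)) := by
  have hpi := Real.pi_pos
  have hθ0 : 0 < Real.pi / 3 := by positivity
  have hθ1 : Real.pi / 3 < Real.pi / 2 := by linarith
  have hlog2 : 0 < Real.log 2 := Real.log_pos (by norm_num)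
  have l2 := Real.log_two_gt_d9
  have l2' := Real.log_two_lt_d9
  have hK := K_kiss
  set w : ℝ := -Real.log (Real.sin (Real.pi / 3)) with hw
  -- bounds for `w`
  have hs3 := Real.sq_sqrt (show (0 : ℝ) ≤ 3 by norm_num)
  have h3 : (0 : ℝ) < Real.sqrt 3 := by positivity
  have hw2 : 2 * w = Real.log (4 / 3) := by
    rw [hw, Real.sin_pi_div_three]
    have : (4 / 3 : ℝ) = (2 / Real.sqrt 3) ^ 2 := by
      rw [div_pow, hs3]; norm_num
    rw [this, Real.log_pow, ← Real.log_inv, inv_div]; norm_num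
  have hwu : w ≤ 0.14385 := by
    have e3 : Real.log (4 / 3) ≤ 0.2877 := by
      rw [Real.log_le_iff_le_exp (by norm_num)]
      have := Real.sum_le_exp_of_nonneg (x := 0.2877) (by norm_num) 6
      simp only [Finset.sum_range_succ, Finset.sum_range_zero, Nat.factorial] at this
      norm_num at this ⊢
      linarith
    linarith
  have hwl : 0.14375 ≤ w := by
    have e3 : 0.2875 ≤ Real.log (4 / 3) := by
      have e4 : 4 * Real.log 1.07456 ≤ Real.log (4 / 3) := by
        rw [show 4 * Real.log (1.07456 : ℝ) = Real.log (1.07456 ^ 4) by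
          rw [Real.log_pow]; norm_num]
        exact Real.log_le_log (by norm_num) (by norm_num)
      have e7 := Real.le_log_one_add_of_nonneg (show (0 : ℝ) ≤ 0.07456 by norm_num)
      have e8 : (0.07188 : ℝ) ≤ 2 * 0.07456 / (0.07456 + 2) := by
        rw [le_div_iff₀ (by norm_num)]; norm_num
      have e9 : (1 : ℝ) + 0.07456 = 1.07456 := by norm_num
      rw [e9] at e7
      linarith
    linarith
  have hwlog : Real.logb 2 (2 / Real.sqrt 3) = w / Real.log 2 := by
    rw [Real.logb, hw, Real.sin_pi_div_three, ← Real.log_inv, inv_div]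
  -- the window in the order of magnitude statement
  obtain ⟨a, A, ha, hA, hwin⟩ := window hθ0 hθ1 (δ := 0.0001) (ε := 0.00001) (by norm_num)
    (by norm_num)
  set ε' : ℝ := ε * Real.log 2 / 2 with hε'
  have hε'0 : 0 < ε' := by positivity
  refine ⟨a, ha, ?_⟩
  filter_upwards [hwin, cap_exponent hθ0 hθ1 (ε := min ε' 0.00001) (by positivity),
    poly_exp ε' hε'0 A, exp_large ε' hε'0 (1 / a), eventually_ge_atTop 2] with n hn hcap hnA hna hn2 N hN1 hN2
  have hP := unif_prob n hn2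
  obtain ⟨c', rfl⟩ := Nat.exists_eq_add_of_le' hn2
  -- a point
  let x₀ : S (c' + 2) := ⟨EuclideanSpace.single 0 1, by simp [S]⟩
  obtain ⟨hc1, hc2⟩ := hcap x₀
  set nn : ℝ := ((c' + 2 : ℕ) : ℝ) with hnn
  have hnn0 : 0 < nn := by rw [hnn]; positivity
  have hnn1 : 1 ≤ nn := by
    rw [hnn]; push_cast
    have : (0 : ℝ) ≤ c' := Nat.cast_nonneg _
    linarith
  set Δ := cap (c' + 2) (Real.pi / 3) x₀ with hΔ
  have hΔ0 : 0 < Δ := by rw [hΔ, cap_eq]; exact cap_pos hθ0 hθ1
  have hεa : min ε' 0.00001 ≤ ε' := min_le_left _ _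
  have hεb : min ε' 0.00001 ≤ 0.00001 := min_le_right _ _
  have hcl : Real.exp (-(w + min ε' 0.00001) * nn) ≤ Δ := by
    refine le_trans (le_of_eq ?_) hc1
    rw [hw]; congr 1; ring
  have hcu : Δ ≤ Real.exp (-(w - min ε' 0.00001) * nn) := by
    refine hc2.trans (le_of_eq ?_)
    rw [hw]; congr 1; ring
  have e2 : ∀ y : ℝ, (2 : ℝ) ^ (y * nn) = Real.exp (y * Real.log 2 * nn) := by
    intro y
    rw [Real.rpow_def_of_pos (by norm_num)]; congr 1; ring
  rw [e2] at hN1 hN2
  have hmain := hn x₀ N (by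
    refine le_trans ?_ hN1
    rw [div_le_iff₀ hΔ0]
    calc Real.exp (0.0001 * nn) ≤ Real.exp (0.208 * Real.log 2 * nn) *
          Real.exp (-(w + min ε' 0.00001) * nn) := by
          rw [← Real.exp_add, Real.exp_le_exp]
          nlinarith
      _ ≤ _ := mul_le_mul_of_nonneg_left hcl (Real.exp_pos _).le) (by
    refine hN2.trans ?_
    rw [le_div_iff₀ hΔ0]
    calc Real.exp (0.302 * Real.log 2 * nn) * Δ ≤ Real.exp (0.302 * Real.log 2 * nn) *
          Real.exp (-(w - min ε' 0.00001) * nn) :=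
          mul_le_mul_of_nonneg_left hcu (Real.exp_pos _).le
      _ ≤ _ := by
          rw [← Real.exp_add, Real.exp_le_exp]
          nlinarith)
  refine le_trans (measureReal_mono ?_ (measure_ne_top _ _)) hmain
  intro x hx
  rw [mem_ofPred_eq] at hx ⊢
  rintro ⟨hb1, hb2⟩
  set M : ℝ := (best (Real.pi / 3) x : ℝ) with hM
  have hM0 : 0 < M := lt_of_lt_of_le (by positivity) hb1
  -- lower bound for the logarithm
  have q1 : (w - 2 * ε') * nn ≤ Real.log M := by
    rw [Real.le_log_iff_exp_le hM0]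
    refine le_trans ?_ hb1
    rw [le_div_iff₀ hΔ0]
    have r1 : Real.exp (-(ε' * nn)) ≤ a * nn := by
      have : Real.exp (-(ε' * nn)) ≤ a := by
        rw [Real.exp_neg, inv_le_comm₀ (Real.exp_pos _) ha, ← one_div]
        exact hna
      nlinarith
    calc Real.exp ((w - 2 * ε') * nn) * Δ ≤ Real.exp ((w - 2 * ε') * nn) *
          Real.exp (-(w - min ε' 0.00001) * nn) :=
          mul_le_mul_of_nonneg_left hcu (Real.exp_pos _).le
      _ ≤ Real.exp (-(ε' * nn)) := by
          rw [← Real.exp_add, Real.exp_le_exp]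
          nlinarith
      _ ≤ _ := r1
  have q2 : Real.log M ≤ (w + 2 * ε') * nn := by
    rw [Real.log_le_iff_le_exp hM0]
    refine hb2.trans ?_
    rw [div_le_iff₀ hΔ0]
    calc A * nn ≤ Real.exp (ε' * nn) := hnA
      _ ≤ Real.exp ((w + 2 * ε') * nn) * Real.exp (-(w + min ε' 0.00001) * nn) := by
          rw [← Real.exp_add, Real.exp_le_exp]
          nlinarith
      _ ≤ _ := mul_le_mul_of_nonneg_left hcl (Real.exp_pos _).le
  have q3 : |Real.logb 2 M / nn - Real.logb 2 (2 / Real.sqrt 3)| ≤ ε := by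
    rw [hwlog]
    have e3 : Real.logb 2 M / nn - w / Real.log 2 = (Real.log M - w * nn) / (nn * Real.log 2) := by
      rw [Real.logb]; field_simp
    rw [e3, abs_div, abs_of_pos (show 0 < nn * Real.log 2 by positivity),
      div_le_iff₀ (by positivity), abs_le]
    have e4 : ε * (nn * Real.log 2) = 2 * ε' * nn := by rw [hε']; ring
    rw [e4]
    constructor <;> linarith
  exact absurd hx (not_lt.2 q3)

end Pool.Agent.Helper57.KR
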