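import Pool.Agent.Helper57.KS.RUpper
import Pool.Agent.Helper57.KS.AKS

/-! Kissing configurations in random sets of points: lower bounds (for MP_b5f63d_co). -/

set_option autoImplicit false

open MeasureTheory Set Filter
open scoped ENNReal Topology
open Pool.Agent.Results.MP_b5f63d_co.MeanFieldConfigurations
open Pool.Agent.N549.SG (capVol sig near)

namespace Pool.Agent.Helper57.KR

theorem good_meas {n N : ℕ} (θ : ℝ) (I : Finset (Fin N)) :
    MeasurableSet {x : Fin N → S n | Good θ x I} := by
  have : {x : Fin N → S n | Good θ x I} =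
      ⋂ (i ∈ I) (j ∈ I) (_ : i ≠ j), {x | inner ℝ (x i : E n) (x j : E n) ≤ Real.cos θ} := by
    ext x; simp [Good]
  rw [this]
  refine Finset.measurableSet_biInter _ fun i _ => Finset.measurableSet_biInter _ fun j _ =>
    MeasurableSet.iInter fun _ => ?_
  apply IsClosed.measurableSet
  apply isClosed_le _ continuous_const
  exact (continuous_subtype_val.comp (continuous_apply i)).inner
    (continuous_subtype_val.comp (continuous_apply j))

theorem best_meas {n N : ℕ} (θ : ℝ) (k : ℕ) :
    MeasurableSet {x : Fin N → S n | best θ x < k} := by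
  classical
  have : {x : Fin N → S n | best θ x < k} =
      (⋃ I ∈ (Finset.univ : Finset (Fin N)).powersetCard k, {x | Good θ x I})ᶜ := by
    ext x
    simp only [mem_compl_iff, mem_iUnion, mem_ofPred_eq, not_exists]
    rw [← not_le, le_best_iff]
    constructor
    · intro h I hI hg
      exact h ⟨I, hg, (Finset.mem_powersetCard.1 hI).2⟩
    · rintro h ⟨I, hg, hc⟩
      exact h I (Finset.mem_powersetCard.2 ⟨Finset.subset_univ _, hc⟩) hg
  rw [this]
  exact (Finset.measurableSet_biUnion _ fun I _ => good_meas θ I).compl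

theorem best_comp {n N k : ℕ} (θ : ℝ) (x : Fin N → S n) (e : Fin k ↪ Fin N) :
    best θ (fun j => x (e j)) ≤ best θ x := by
  rw [le_best_iff]
  obtain ⟨I, hI, hc⟩ := (le_best_iff θ (fun j => x (e j)) _).1 le_rfl
  refine ⟨I.map e, ?_, by rw [Finset.card_map, hc]⟩
  intro i hi j hj hij
  obtain ⟨a, ha, rfl⟩ := Finset.mem_map.1 hi
  obtain ⟨b, hb, rfl⟩ := Finset.mem_map.1 hj
  exact hI a ha b hb (fun h => hij (by rw [h]))

/-- the law of the two parts -/
theorem append_pres {n : ℕ} [IsProbabilityMeasure (unif n)] (a b : ℕ) :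
    MeasurePreserving (fun x : Fin (a + b) → S n =>
      ((fun i : Fin a => x (Fin.castAdd b i)), (fun j : Fin b => x (Fin.natAdd a j))))
      (law n (a + b)) ((law n a).prod (law n b)) := by
  have h1 := measurePreserving_piCongrLeft (fun _ : Fin (a + b) => unif n)
    (finSumFinEquiv : Fin a ⊕ Fin b ≃ Fin (a + b))
  have h2 := measurePreserving_sumPiEquivProdPi (fun _ : Fin a ⊕ Fin b => unif n)
  exact h2.comp h1.symm

/-- submultiplicativity of the failure probabilities -/
theorem fail_add {n : ℕ} [IsProbabilityMeasure (unif n)] (θ : ℝ) (a b m : ℕ) :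
    (law n (a + b)).real {x | best θ x < m} ≤
      (law n a).real {x | best θ x < m} * (law n b).real {x | best θ x < m} := by
  have h1 : {x : Fin (a + b) → S n | best θ x < m} ⊆ (fun x : Fin (a + b) → S n =>
      ((fun i : Fin a => x (Fin.castAdd b i)), (fun j : Fin b => x (Fin.natAdd a j)))) ⁻¹'
      ({x | best θ x < m} ×ˢ {x | best θ x < m}) := by
    intro x hx
    refine ⟨?_, ?_⟩
    · exact lt_of_le_of_lt (best_comp θ x (Fin.castAddEmb b)) hx
    · exact lt_of_le_of_lt (best_comp θ x (Fin.natAddEmb a)) hx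
  refine (measureReal_mono h1 (measure_ne_top _ _)).trans (le_of_eq ?_)
  rw [measureReal_def, (append_pres a b).measure_preimage
    ((best_meas θ m).prod (best_meas θ m)).nullMeasurableSet, Measure.prod_prod,
    ENNReal.toReal_mul]
  rfl

theorem fail_blocks {n : ℕ} [IsProbabilityMeasure (unif n)] (θ : ℝ) (N1 m : ℕ) (B r : ℕ) :
    (law n (B * N1 + r)).real {x | best θ x < m} ≤
      (law n N1).real {x | best θ x < m} ^ B := by
  induction B with
  | zero =>
    rw [pow_zero]
    exact measureReal_le_one
  | succ B ih =>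
    have e : (B + 1) * N1 + r = (B * N1 + r) + N1 := by ring
    rw [e, pow_succ]
    refine (fail_add θ (B * N1 + r) N1 m).trans ?_
    exact mul_le_mul_of_nonneg_right ih measureReal_nonneg

theorem fail_le {n : ℕ} [IsProbabilityMeasure (unif n)] (θ : ℝ) (N1 m N B : ℕ)
    (h : B * N1 ≤ N) :
    (law n N).real {x | best θ x < m} ≤ (law n N1).real {x | best θ x < m} ^ B := by
  obtain ⟨r, rfl⟩ := Nat.exists_eq_add_of_le h
  exact fail_blocks θ N1 m B r

/-! ### Near pairs -/

/-- the points `x i`, `x j` are different members with an angle less than `θ` -/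
def Near {n N : ℕ} (θ : ℝ) (x : Fin N → S n) (i j : Fin N) : Prop :=
  i ≠ j ∧ Real.cos θ < inner ℝ (x i : E n) (x j : E n)

open Classical in
/-- the number of near pairs -/
noncomputable def pairs {n N : ℕ} (θ : ℝ) (x : Fin N → S n) : ℕ :=
  (Finset.univ.filter (fun p : Fin N × Fin N => Near θ x p.1 p.2)).card

open Classical in
/-- the number of triangles -/
noncomputable def triangles {n N : ℕ} (θ : ℝ) (x : Fin N → S n) : ℕ :=
  (Finset.univ.filter (fun p : Fin N × Fin N × Fin N =>
    Near θ x p.1 p.2.1 ∧ Near θ x p.2.1 p.2.2 ∧ Near θ x p.1 p.2.2)).card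

theorem Near.symm {n N : ℕ} {θ : ℝ} {x : Fin N → S n} {i j : Fin N} (h : Near θ x i j) :
    Near θ x j i := ⟨h.1.symm, by rw [real_inner_comm]; exact h.2⟩

theorem good_of_indep {n N : ℕ} {θ : ℝ} {x : Fin N → S n} {I : Finset (Fin N)}
    (h : ∀ i ∈ I, ∀ j ∈ I, ¬ Near θ x i j) : Good θ x I := by
  intro i hi j hj hij
  by_contra hcon
  exact h i hi j hj ⟨hij, not_le.1 hcon⟩

/-- few near pairs -/
theorem det_pairs {n N : ℕ} (θ : ℝ) (x : Fin N → S n) (h : pairs θ x < N) :
    (N : ℝ) / 2 ≤ best θ x := by
  classical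
  set V : Finset (Fin N) := Finset.univ.filter (fun i => ∃ j, i < j ∧ Near θ x i j) with hV
  set P := Finset.univ.filter (fun p : Fin N × Fin N => Near θ x p.1 p.2) with hP
  have hPc : P.card < N := h
  -- twice the number of members of V is at most the number of pairs
  have h1 : 2 * V.card ≤ P.card := by
    have hA : V.card ≤ (P.filter (fun p => p.1 < p.2)).card := by
      have : V ⊆ (P.filter (fun p => p.1 < p.2)).image Prod.fst := by
        intro i hi
        obtain ⟨j, hij, hn⟩ := (Finset.mem_filter.1 hi).2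
        exact Finset.mem_image.2 ⟨(i, j), Finset.mem_filter.2
          ⟨Finset.mem_filter.2 ⟨Finset.mem_univ _, hn⟩, hij⟩, rfl⟩
      exact (Finset.card_le_card this).trans Finset.card_image_le
    have hB : (P.filter (fun p => p.1 < p.2)).card = (P.filter (fun p => p.2 < p.1)).card := by
      apply Finset.card_bij (fun p _ => (p.2, p.1))
      · intro p hp
        obtain ⟨hp1, hp2⟩ := Finset.mem_filter.1 hp
        exact Finset.mem_filter.2 ⟨Finset.mem_filter.2 ⟨Finset.mem_univ _,
          (Finset.mem_filter.1 hp1).2.symm⟩, hp2⟩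
      · rintro ⟨a, b⟩ _ ⟨c, d⟩ _ h
        simp only [Prod.mk.injEq] at h ⊢
        exact ⟨h.2, h.1⟩
      · intro p hp
        obtain ⟨hp1, hp2⟩ := Finset.mem_filter.1 hp
        exact ⟨(p.2, p.1), Finset.mem_filter.2 ⟨Finset.mem_filter.2 ⟨Finset.mem_univ _,
          (Finset.mem_filter.1 hp1).2.symm⟩, hp2⟩, rfl⟩
    have hC : (P.filter (fun p => p.1 < p.2)).card + (P.filter (fun p => p.2 < p.1)).card ≤
        P.card := by
      rw [← Finset.card_union_of_disjoint]
      · exact Finset.card_le_card (Finset.union_subset (Finset.filter_subset _ _)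
          (Finset.filter_subset _ _))
      · rw [Finset.disjoint_left]
        intro p hp hq
        exact absurd (Finset.mem_filter.1 hp).2 (not_lt.2 (Finset.mem_filter.1 hq).2.le)
    omega
  have hgood : Good θ x (Finset.univ \ V) := by
    apply good_of_indep
    intro i hi j hj hn
    rcases lt_trichotomy i j with h2 | h2 | h2
    · exact (Finset.mem_sdiff.1 hi).2 (Finset.mem_filter.2 ⟨Finset.mem_univ _, j, h2, hn⟩)
    · exact hn.1 h2
    · exact (Finset.mem_sdiff.1 hj).2 (Finset.mem_filter.2 ⟨Finset.mem_univ _, i, h2, hn.symm⟩)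
  have h2 : (Finset.univ \ V).card ≤ best θ x := (le_best_iff θ x _).2 ⟨_, hgood, rfl⟩
  have h3 : (Finset.univ \ V).card = N - V.card := by
    rw [Finset.card_sdiff_of_subset (Finset.subset_univ _), Finset.card_univ, Fintype.card_fin]
  have h4 : N ≤ 2 * best θ x := by omega
  have h5 : (N : ℝ) ≤ 2 * best θ x := by exact_mod_cast h4
  linarith

/-- few near pairs and few triangles -/
theorem det_triangles {n N : ℕ} (θ : ℝ) (x : Fin N → S n) (D : ℝ) (hD : 1 ≤ D)
    (hT : 4 * triangles θ x ≤ N) (hP : 4 * (pairs θ x : ℝ) ≤ N * D) :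
    (N : ℝ) * Real.log D ≤ 32 * D * best θ x := by
  classical
  set V1 : Finset (Fin N) := Finset.univ.filter (fun i => ∃ j k, Near θ x i j ∧ Near θ x j k ∧
    Near θ x i k) with hV1
  set V2 : Finset (Fin N) := Finset.univ.filter (fun i =>
    D < (Finset.univ.filter (fun j => Near θ x i j)).card) with hV2
  have h1 : V1.card ≤ triangles θ x := by
    unfold triangles
    set T := Finset.univ.filter (fun p : Fin N × Fin N × Fin N =>
      Near θ x p.1 p.2.1 ∧ Near θ x p.2.1 p.2.2 ∧ Near θ x p.1 p.2.2) with hTdef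
    have : V1 ⊆ T.image Prod.fst := by
      intro i hi
      obtain ⟨j, k, h⟩ := (Finset.mem_filter.1 hi).2
      exact Finset.mem_image.2 ⟨(i, j, k), Finset.mem_filter.2 ⟨Finset.mem_univ _, h⟩, rfl⟩
    exact (Finset.card_le_card this).trans Finset.card_image_le
  have h2 : (V2.card : ℝ) * D ≤ pairs θ x := by
    have e : (pairs θ x : ℝ) = ∑ i : Fin N,
        ((Finset.univ.filter (fun j => Near θ x i j)).card : ℝ) := by
      unfold pairs
      rw [Finset.card_filter]
      push_cast
      rw [Fintype.sum_prod_type]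
      apply Finset.sum_congr rfl
      intro i _
      rw [Finset.card_filter]
      push_cast
      rfl
    rw [e]
    calc (V2.card : ℝ) * D = ∑ _i ∈ V2, D := by rw [Finset.sum_const, nsmul_eq_mul]
      _ ≤ ∑ i ∈ V2, ((Finset.univ.filter (fun j => Near θ x i j)).card : ℝ) := by
          apply Finset.sum_le_sum
          intro i hi
          exact (Finset.mem_filter.1 hi).2.le
      _ ≤ _ := Finset.sum_le_sum_of_subset_of_nonneg (Finset.subset_univ _)
          (fun _ _ _ => Nat.cast_nonneg _)
  set W : Finset (Fin N) := Finset.univ \ (V1 ∪ V2) with hW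
  have hWc : (N : ℝ) / 2 ≤ W.card := by
    have h3 : W.card = N - (V1 ∪ V2).card := by
      rw [hW, Finset.card_sdiff_of_subset (Finset.subset_univ _), Finset.card_univ,
        Fintype.card_fin]
    have h4 : (V1 ∪ V2).card ≤ V1.card + V2.card := Finset.card_union_le _ _
    have h5 : (4 : ℝ) * V2.card ≤ N := by
      have : 4 * ((V2.card : ℝ) * D) ≤ N * D := by linarith
      have h6 : (4 * (V2.card : ℝ)) * D ≤ N * D := by linarith
      exact le_of_mul_le_mul_right h6 (by linarith)
    have h6 : (4 : ℝ) * V1.card ≤ N := by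
      have : 4 * V1.card ≤ N := by omega
      exact_mod_cast this
    have h7 : (N : ℝ) ≤ W.card + (V1.card + V2.card) := by
      have : N ≤ W.card + (V1.card + V2.card) := by omega
      exact_mod_cast this
    linarith
  obtain ⟨I, hIW, hI, hIc⟩ := Pool.Agent.Helper57.KS.aks (Near θ x) (fun _ _ h => h.symm)
    (fun i h => h.1 rfl) W
    (by
      intro a ha b _ c _ hab hbc hac
      rw [hW, Finset.mem_sdiff, Finset.mem_union, not_or] at ha
      exact ha.2.1 (Finset.mem_filter.2 ⟨Finset.mem_univ _, b, c, hab, hbc, hac⟩))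
    D hD
    (by
      intro a ha P hPW hPn
      rw [hW, Finset.mem_sdiff, Finset.mem_union, not_or] at ha
      have h8 : ¬ D < (Finset.univ.filter (fun j => Near θ x a j)).card := fun h =>
        ha.2.2 (Finset.mem_filter.2 ⟨Finset.mem_univ _, h⟩)
      refine le_trans ?_ (not_lt.1 h8)
      have : P ⊆ Finset.univ.filter (fun j => Near θ x a j) := fun y hy =>
        Finset.mem_filter.2 ⟨Finset.mem_univ _, hPn y hy⟩
      exact_mod_cast Finset.card_le_card this)
  have hbest : (I.card : ℝ) ≤ best θ x := by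
    exact_mod_cast (le_best_iff θ x _).2 ⟨I, good_of_indep hI, rfl⟩
  have hlog : 0 ≤ Real.log D := Real.log_nonneg hD
  calc (N : ℝ) * Real.log D = 2 * ((N : ℝ) / 2 * Real.log D) := by ring
    _ ≤ 2 * (W.card * Real.log D) := by
        have := mul_le_mul_of_nonneg_right hWc hlog
        linarith
    _ ≤ 2 * (16 * D * I.card) := by linarith
    _ = 32 * D * I.card := by ring
    _ ≤ _ := mul_le_mul_of_nonneg_left hbest (by positivity)

end Pool.Agent.Helper57.KR
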