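import Pool.Agent.Helper57.KS.RLower

/-! Kissing configurations in random sets of points: near pairs and triangles
(for MP_b5f63d_co). -/

set_option autoImplicit false

open MeasureTheory Set Filter
open scoped ENNReal Topology
open Pool.Agent.Results.MP_b5f63d_co.MeanFieldConfigurations
open Pool.Agent.N549.SG (capVol sig near)

namespace Pool.Agent.Helper57.KR

/-- Markov's inequality for the number of events. -/
theorem count_markov {Ω ι : Type*} [MeasurableSpace Ω] (μ : Measure Ω) [IsFiniteMeasure μ]
    (s : Finset ι) (F : ι → Set Ω) (hF : ∀ p ∈ s, MeasurableSet (F p)) (q : ℝ)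
    (hq : ∀ p ∈ s, μ.real (F p) ≤ q) (f : Ω → ℝ)
    (hf : ∀ x, f x = ∑ p ∈ s, (F p).indicator (fun _ => (1 : ℝ)) x) (a : ℝ) (ha : 0 < a) :
    μ.real {x | a ≤ f x} ≤ s.card * q / a := by
  have hf0 : ∀ x, 0 ≤ f x := fun x => by
    rw [hf]
    exact Finset.sum_nonneg fun p _ => indicator_nonneg (fun _ _ => zero_le_one) x
  have hint : ∀ p ∈ s, Integrable ((F p).indicator (fun _ => (1 : ℝ))) μ := fun p hp =>
    (integrable_const 1).indicator (hF p hp)
  have hfint : Integrable f μ := by
    have : f = fun x => ∑ p ∈ s, (F p).indicator (fun _ => (1 : ℝ)) x := funext hf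
    rw [this]
    exact integrable_finsetSum _ hint
  have h1 := mul_meas_ge_le_integral_of_nonneg (Filter.Eventually.of_forall hf0) hfint a
  have h2 : ∫ x, f x ∂μ = ∑ p ∈ s, μ.real (F p) := by
    have : f = fun x => ∑ p ∈ s, (F p).indicator (fun _ => (1 : ℝ)) x := funext hf
    rw [this, integral_finsetSum _ hint]
    apply Finset.sum_congr rfl
    intro p hp
    rw [integral_indicator (hF p hp)]
    simp
  rw [h2] at h1
  rw [le_div_iff₀ ha]
  calc μ.real {x | a ≤ f x} * a = a * μ.real {x | a ≤ f x} := mul_comm _ _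
    _ ≤ _ := h1
    _ ≤ ∑ _p ∈ s, q := Finset.sum_le_sum hq
    _ = _ := by rw [Finset.sum_const, nsmul_eq_mul]

/-- the indicator of a near pair -/
noncomputable def nF (n : ℕ) (t : ℝ) (x y : S n) : ℝ≥0∞ :=
  if t < inner ℝ (x : E n) (y : E n) then 1 else 0

theorem nF_meas (n : ℕ) (t : ℝ) : Measurable (Function.uncurry (nF n t)) :=
  Measurable.ite (measurableSet_lt measurable_const
    (Pool.Agent.N549.SG.cont_inner n).measurable) measurable_const measurable_const

theorem near_meas' (n : ℕ) (t : ℝ) (u : S n) : MeasurableSet (near n t u) := by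
  have h : Continuous fun y : S n => inner ℝ (u : E n) (y : E n) :=
    continuous_const.inner continuous_subtype_val
  exact measurableSet_lt measurable_const h.measurable

theorem nF_lint (n : ℕ) (t : ℝ) (u : S n) : (fun v => nF n t u v) = (near n t u).indicator 1 := by
  funext v
  unfold nF near
  by_cases h : t < inner ℝ (u : E n) (v : E n)
  · rw [if_pos h, indicator_of_mem (show v ∈ {y : S n | t < inner ℝ (u : E n) (y : E n)} from h)]
    rfl
  · rw [if_neg h, indicator_of_notMem (show v ∉ {y : S n | t < inner ℝ (u : E n) (y : E n)} from h)]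

theorem pair_law (c : ℕ) (t : ℝ) : (Measure.pi fun _ : Fin 2 => sig (c + 2))
    {x | t < inner ℝ (x 0 : E (c + 2)) (x 1 : E (c + 2))} = ENNReal.ofReal (capVol c t) := by
  have hP : IsProbabilityMeasure (sig (c + 2)) := (Pool.Agent.N434.SG.rotS c).2.1
  have h1 := Pool.Agent.N364.HG.A_eq (μ := sig (c + 2)) (nF_meas (c + 2) t) 2 (fun _ => 1)
    measurable_const
  have h2 : Pool.Agent.N549.HG.A (sig (c + 2)) (nF (c + 2) t) 2 (fun _ => 1) =
      ENNReal.ofReal (capVol c t) := by
    simp only [Pool.Agent.N549.HG.A, mul_one, one_mul]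
    have : ∀ u : S (c + 2), ∫⁻ v, nF (c + 2) t u v ∂(sig (c + 2)) =
        ENNReal.ofReal (capVol c t) := by
      intro u
      rw [show (fun v => nF (c + 2) t u v) = _ from nF_lint (c + 2) t u,
        lintegral_indicator_one (near_meas' (c + 2) t u)]
      exact (Pool.Agent.N434.SG.rotS c).2.2 t u
    rw [lintegral_congr this, lintegral_const, measure_univ, mul_one]
  have hm : MeasurableSet {x : Fin 2 → S (c + 2) |
      t < inner ℝ (x 0 : E (c + 2)) (x 1 : E (c + 2))} := by
    apply measurableSet_lt measurable_const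
    exact ((continuous_subtype_val.comp (continuous_apply 0)).inner
      (continuous_subtype_val.comp (continuous_apply 1))).measurable
  rw [← h2, h1, ← lintegral_indicator_one hm]
  apply lintegral_congr
  intro x
  simp only [Finset.prod_const_one, one_mul, Pool.Agent.N364.HG.Wk, mul_one, indicator,
    mem_ofPred_eq, Pi.one_apply]
  simp [nF]

theorem triangle_law (c : ℕ) (t : ℝ) (ht : 0 < t) (ht1 : t < 1) :
    (Measure.pi fun _ : Fin 3 => sig (c + 2))
    {x | t < inner ℝ (x 0 : E (c + 2)) (x 1 : E (c + 2)) ∧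
      t < inner ℝ (x 1 : E (c + 2)) (x 2 : E (c + 2)) ∧
      t < inner ℝ (x 0 : E (c + 2)) (x 2 : E (c + 2))} ≤
      ENNReal.ofReal (2 * capVol c (Pool.Agent.N549.SG.tp t)) * ENNReal.ofReal (capVol c t) := by
  have hP : IsProbabilityMeasure (sig (c + 2)) := (Pool.Agent.N434.SG.rotS c).2.1
  have h1 := Pool.Agent.N364.HG.A_eq (μ := sig (c + 2)) (nF_meas (c + 2) t) 3 (fun _ => 1)
    measurable_const
  have h2 : Pool.Agent.N549.HG.A (sig (c + 2)) (nF (c + 2) t) 3 (fun _ => 1) ≤
      ENNReal.ofReal (2 * capVol c (Pool.Agent.N549.SG.tp t)) * ENNReal.ofReal (capVol c t) := by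
    simp only [Pool.Agent.N549.HG.A, mul_one, one_mul]
    have : ∀ u : S (c + 2), ∫⁻ v, nF (c + 2) t u v *
        (∫⁻ w, nF (c + 2) t u w * nF (c + 2) t v w ∂(sig (c + 2))) ∂(sig (c + 2)) ≤
        ENNReal.ofReal (2 * capVol c (Pool.Agent.N549.SG.tp t)) *
          ENNReal.ofReal (capVol c t) := by
      intro u
      have hu := near_meas' (c + 2) t u
      have h3 : ∀ v : S (c + 2), ∫⁻ w, nF (c + 2) t u w * nF (c + 2) t v w ∂(sig (c + 2)) =
          sig (c + 2) (near (c + 2) t u ∩ near (c + 2) t v) := by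
        intro v
        rw [← lintegral_indicator_one (hu.inter (near_meas' (c + 2) t v))]
        apply lintegral_congr
        intro w
        rw [show nF (c + 2) t u w = (near (c + 2) t u).indicator 1 w from
            congrFun (nF_lint (c + 2) t u) w,
          show nF (c + 2) t v w = (near (c + 2) t v).indicator 1 w from
            congrFun (nF_lint (c + 2) t v) w]
        by_cases hw1 : w ∈ near (c + 2) t u <;> by_cases hw2 : w ∈ near (c + 2) t v <;>
          simp [hw1, hw2]
      simp only [h3]
      have h4 : ∫⁻ v, nF (c + 2) t u v * sig (c + 2) (near (c + 2) t u ∩ near (c + 2) t v)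
          ∂(sig (c + 2)) = ∫⁻ v in near (c + 2) t u,
            sig (c + 2) (near (c + 2) t u ∩ near (c + 2) t v) ∂(sig (c + 2)) := by
        rw [← lintegral_indicator hu]
        apply lintegral_congr
        intro v
        rw [show nF (c + 2) t u v = (near (c + 2) t u).indicator 1 v from
            congrFun (nF_lint (c + 2) t u) v]
        by_cases hv : v ∈ near (c + 2) t u <;> simp [hv]
      rw [h4]
      refine (Pool.Agent.N424.SG.locs c t ht ht1 u _ hu subset_rfl).trans ?_
      rw [(Pool.Agent.N434.SG.rotS c).2.2 t u]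
      exact le_rfl
    refine (lintegral_mono this).trans ?_
    rw [lintegral_const, measure_univ, mul_one]
  have hm : MeasurableSet {x : Fin 3 → S (c + 2) |
      t < inner ℝ (x 0 : E (c + 2)) (x 1 : E (c + 2)) ∧
      t < inner ℝ (x 1 : E (c + 2)) (x 2 : E (c + 2)) ∧
      t < inner ℝ (x 0 : E (c + 2)) (x 2 : E (c + 2))} := by
    have hc : ∀ i j : Fin 3, MeasurableSet {x : Fin 3 → S (c + 2) |
        t < inner ℝ (x i : E (c + 2)) (x j : E (c + 2))} := fun i j =>
      measurableSet_lt measurable_const ((continuous_subtype_val.comp (continuous_apply i)).inner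
        (continuous_subtype_val.comp (continuous_apply j))).measurable
    exact (hc 0 1).inter ((hc 1 2).inter (hc 0 2))
  refine le_trans (le_of_eq ?_) h2
  rw [h1, ← lintegral_indicator_one hm]
  apply lintegral_congr
  intro x
  simp only [Finset.prod_const_one, one_mul, Pool.Agent.N364.HG.Wk, mul_one, indicator,
    mem_ofPred_eq, Pi.one_apply, Fin.prod_univ_succ, Finset.univ_eq_empty, Finset.prod_empty]
  have e1 : (Fin.succ (Fin.succ 0) : Fin 3) = 2 := rfl
  have e2 : (Fin.succ 0 : Fin 3) = 1 := rfl
  simp only [nF, e1, e2]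
  by_cases a1 : t < inner ℝ (x 0 : E (c + 2)) (x 1 : E (c + 2)) <;>
    by_cases a2 : t < inner ℝ (x 1 : E (c + 2)) (x 2 : E (c + 2)) <;>
      by_cases a3 : t < inner ℝ (x 0 : E (c + 2)) (x 2 : E (c + 2)) <;>
        simp [a1, a2, a3]

theorem near_set_meas {n N : ℕ} (θ : ℝ) (i j : Fin N) :
    MeasurableSet {x : Fin N → S n | Near θ x i j} := by
  by_cases h : i = j
  · have : {x : Fin N → S n | Near θ x i j} = ∅ := by
      ext x; simp [Near, h]
    rw [this]; exact MeasurableSet.empty
  · have : {x : Fin N → S n | Near θ x i j} =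
        {x | Real.cos θ < inner ℝ (x i : E n) (x j : E n)} := by
      ext x; simp [Near, h]
    rw [this]
    exact measurableSet_lt measurable_const ((continuous_subtype_val.comp
      (continuous_apply i)).inner (continuous_subtype_val.comp (continuous_apply j))).measurable

theorem near_prob {c N : ℕ} (θ : ℝ) (i j : Fin N) :
    (law (c + 2) N).real {x | Near θ x i j} ≤ capVol c (Real.cos θ) := by
  have hP : IsProbabilityMeasure (unif (c + 2)) := (Pool.Agent.N434.SG.rotS c).2.1
  have h0 : 0 ≤ capVol c (Real.cos θ) := measureReal_nonneg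
  by_cases h : i = j
  · have : {x : Fin N → S (c + 2) | Near θ x i j} = ∅ := by
      ext x; simp [Near, h]
    rw [this]; simpa using h0
  · have hinj : Function.Injective (![i, j] : Fin 2 → Fin N) := by
      intro a b hab
      fin_cases a <;> fin_cases b <;> simp_all
    have hset : {x : Fin N → S (c + 2) | Near θ x i j} =
        (fun (x : Fin N → S (c + 2)) (a : Fin 2) => x ((![i, j] : Fin 2 → Fin N) a)) ⁻¹'
        {x | Real.cos θ < inner ℝ (x 0 : E (c + 2)) (x 1 : E (c + 2))} := by
      ext x
      simp [Near, h]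
    have hm : MeasurableSet {x : Fin 2 → S (c + 2) |
        Real.cos θ < inner ℝ (x 0 : E (c + 2)) (x 1 : E (c + 2))} :=
      measurableSet_lt measurable_const ((continuous_subtype_val.comp (continuous_apply 0)).inner
        (continuous_subtype_val.comp (continuous_apply 1))).measurable
    have hme : Measurable (fun (x : Fin N → S (c + 2)) (a : Fin 2) =>
        x ((![i, j] : Fin 2 → Fin N) a)) := measurable_pi_lambda _ fun a => measurable_pi_apply _
    rw [hset, measureReal_def, ← Measure.map_apply hme hm, map_comp_inj _ hinj]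
    have h2 := pair_law c (Real.cos θ)
    have h3 : (law (c + 2) 2) {x | Real.cos θ < inner ℝ (x 0 : E (c + 2)) (x 1 : E (c + 2))} =
        ENNReal.ofReal (capVol c (Real.cos θ)) := h2
    rw [h3, ENNReal.toReal_ofReal h0]

theorem tri_prob {c N : ℕ} {θ : ℝ} (hc : 0 < Real.cos θ) (hc1 : Real.cos θ < 1) (i j k : Fin N) :
    (law (c + 2) N).real {x | Near θ x i j ∧ Near θ x j k ∧ Near θ x i k} ≤
      2 * capVol c (Pool.Agent.N549.SG.tp (Real.cos θ)) * capVol c (Real.cos θ) := by
  have hP : IsProbabilityMeasure (unif (c + 2)) := (Pool.Agent.N434.SG.rotS c).2.1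
  have h0 : 0 ≤ capVol c (Real.cos θ) := measureReal_nonneg
  have h0' : 0 ≤ capVol c (Pool.Agent.N549.SG.tp (Real.cos θ)) := measureReal_nonneg
  by_cases h : i = j ∨ j = k ∨ i = k
  · have : {x : Fin N → S (c + 2) | Near θ x i j ∧ Near θ x j k ∧ Near θ x i k} = ∅ := by
      ext x
      simp only [mem_ofPred_eq, mem_empty_iff_false, iff_false]
      rintro ⟨h1, h2, h3⟩
      rcases h with h | h | h
      · exact h1.1 h
      · exact h2.1 h
      · exact h3.1 h
    rw [this]
    simp only [measureReal_empty]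
    positivity
  · push Not at h
    obtain ⟨hij, hjk, hik⟩ := h
    have hinj : Function.Injective (![i, j, k] : Fin 3 → Fin N) := by
      intro a b hab
      fin_cases a <;> fin_cases b <;> simp_all
    have hset : {x : Fin N → S (c + 2) | Near θ x i j ∧ Near θ x j k ∧ Near θ x i k} =
        (fun (x : Fin N → S (c + 2)) (a : Fin 3) => x ((![i, j, k] : Fin 3 → Fin N) a)) ⁻¹'
        {x | Real.cos θ < inner ℝ (x 0 : E (c + 2)) (x 1 : E (c + 2)) ∧
          Real.cos θ < inner ℝ (x 1 : E (c + 2)) (x 2 : E (c + 2)) ∧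
          Real.cos θ < inner ℝ (x 0 : E (c + 2)) (x 2 : E (c + 2))} := by
      ext x
      simp [Near, hij, hjk, hik]
    have hm : MeasurableSet {x : Fin 3 → S (c + 2) |
        Real.cos θ < inner ℝ (x 0 : E (c + 2)) (x 1 : E (c + 2)) ∧
          Real.cos θ < inner ℝ (x 1 : E (c + 2)) (x 2 : E (c + 2)) ∧
          Real.cos θ < inner ℝ (x 0 : E (c + 2)) (x 2 : E (c + 2))} := by
      have hc : ∀ i j : Fin 3, MeasurableSet {x : Fin 3 → S (c + 2) |
          Real.cos θ < inner ℝ (x i : E (c + 2)) (x j : E (c + 2))} := fun i j =>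
        measurableSet_lt measurable_const ((continuous_subtype_val.comp
          (continuous_apply i)).inner
          (continuous_subtype_val.comp (continuous_apply j))).measurable
      exact (hc 0 1).inter ((hc 1 2).inter (hc 0 2))
    have hme : Measurable (fun (x : Fin N → S (c + 2)) (a : Fin 3) =>
        x ((![i, j, k] : Fin 3 → Fin N) a)) := measurable_pi_lambda _ fun a => measurable_pi_apply _
    rw [hset, measureReal_def, ← Measure.map_apply hme hm, map_comp_inj _ hinj]
    have h2 := triangle_law c (Real.cos θ) hc hc1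
    have h3 : (law (c + 2) 3) {x | Real.cos θ < inner ℝ (x 0 : E (c + 2)) (x 1 : E (c + 2)) ∧
          Real.cos θ < inner ℝ (x 1 : E (c + 2)) (x 2 : E (c + 2)) ∧
          Real.cos θ < inner ℝ (x 0 : E (c + 2)) (x 2 : E (c + 2))} ≤
        ENNReal.ofReal (2 * capVol c (Pool.Agent.N549.SG.tp (Real.cos θ))) *
          ENNReal.ofReal (capVol c (Real.cos θ)) := h2
    have h4 := ENNReal.toReal_mono (ENNReal.mul_ne_top ENNReal.ofReal_ne_top
      ENNReal.ofReal_ne_top) h3
    rw [ENNReal.toReal_mul, ENNReal.toReal_ofReal (by positivity), ENNReal.toReal_ofReal h0] at h4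
    exact h4

theorem pairs_markov {c N : ℕ} (θ : ℝ) (a : ℝ) (ha : 0 < a) :
    (law (c + 2) N).real {x | a ≤ (pairs θ x : ℝ)} ≤ N ^ 2 * capVol c (Real.cos θ) / a := by
  classical
  have hP : IsProbabilityMeasure (unif (c + 2)) := (Pool.Agent.N434.SG.rotS c).2.1
  have h := count_markov (law (c + 2) N) (Finset.univ : Finset (Fin N × Fin N))
    (fun p => {x | Near θ x p.1 p.2}) (fun p _ => near_set_meas θ p.1 p.2)
    (capVol c (Real.cos θ)) (fun p _ => near_prob θ p.1 p.2) (fun x => (pairs θ x : ℝ)) (by
      intro x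
      unfold pairs
      rw [Finset.card_filter]
      push_cast
      apply Finset.sum_congr rfl
      intro p _
      by_cases hp : Near θ x p.1 p.2 <;> simp [indicator, hp]) a ha
  rw [Finset.card_univ, Fintype.card_prod, Fintype.card_fin] at h
  push_cast at h
  rw [sq]
  exact h

theorem triangles_markov {c N : ℕ} {θ : ℝ} (hc : 0 < Real.cos θ) (hc1 : Real.cos θ < 1)
    (a : ℝ) (ha : 0 < a) :
    (law (c + 2) N).real {x | a ≤ (triangles θ x : ℝ)} ≤
      N ^ 3 * (2 * capVol c (Pool.Agent.N549.SG.tp (Real.cos θ)) * capVol c (Real.cos θ)) / a := by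
  classical
  have hP : IsProbabilityMeasure (unif (c + 2)) := (Pool.Agent.N434.SG.rotS c).2.1
  have h := count_markov (law (c + 2) N) (Finset.univ : Finset (Fin N × Fin N × Fin N))
    (fun p => {x | Near θ x p.1 p.2.1 ∧ Near θ x p.2.1 p.2.2 ∧ Near θ x p.1 p.2.2})
    (fun p _ => (near_set_meas θ p.1 p.2.1).inter ((near_set_meas θ p.2.1 p.2.2).inter
      (near_set_meas θ p.1 p.2.2)))
    _ (fun p _ => tri_prob hc hc1 p.1 p.2.1 p.2.2) (fun x => (triangles θ x : ℝ)) (by
      intro x
      unfold triangles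
      rw [Finset.card_filter]
      push_cast
      apply Finset.sum_congr rfl
      intro p _
      by_cases hp : Near θ x p.1 p.2.1 ∧ Near θ x p.2.1 p.2.2 ∧ Near θ x p.1 p.2.2 <;>
        simp [indicator, hp]) a ha
  rw [Finset.card_univ, Fintype.card_prod, Fintype.card_prod, Fintype.card_fin] at h
  push_cast at h
  have e : (N : ℝ) ^ 3 = N * (N * N) := by ring
  rw [e]
  exact h

end Pool.Agent.Helper57.KR
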