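import Pool.Agent.Helper57.KS.RBasic

/-! Kissing configurations in random sets of points: upper bounds (for MP_b5f63d_co). -/

set_option autoImplicit false

open MeasureTheory Set Filter
open scoped ENNReal Topology
open Pool.Agent.Results.MP_b5f63d_co.MeanFieldConfigurations
open Pool.Agent.N549.SG (capVol sig near)

namespace Pool.Agent.Helper57.KR

theorem cap_eq (c : ℕ) (θ : ℝ) (x₀ : S (c + 2)) : cap (c + 2) θ x₀ = capVol c (Real.cos θ) := by
  have h2 := (Pool.Agent.N434.SG.rotS c).2.2 (Real.cos θ) x₀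
  have h3 : cap (c + 2) θ x₀ = (sig (c + 2)).real (near (c + 2) (Real.cos θ) x₀) := rfl
  rw [h3, measureReal_def, h2, ENNReal.toReal_ofReal]
  exact measureReal_nonneg

theorem capVol_le_one (c : ℕ) (t : ℝ) : capVol c t ≤ 1 := by
  have : IsProbabilityMeasure (sig (c + 2)) := (Pool.Agent.N434.SG.rotS c).2.1
  exact measureReal_le_one

theorem cos_mem {θ : ℝ} (h : 0 < θ) (h1 : θ < Real.pi / 2) : 0 < Real.cos θ ∧ Real.cos θ < 1 := by
  refine ⟨Real.cos_pos_of_mem_Ioo ⟨by linarith, h1⟩, ?_⟩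
  rw [← Real.cos_zero]
  exact Real.cos_lt_cos_of_nonneg_of_le_pi_div_two le_rfl h1.le h

theorem exp_large (a : ℝ) (ha : 0 < a) (B : ℝ) : ∀ᶠ n : ℕ in atTop, B ≤ Real.exp (a * n) := by
  have h : Tendsto (fun n : ℕ => a * (n : ℝ)) atTop atTop :=
    (tendsto_natCast_atTop_atTop).const_mul_atTop ha
  exact (Real.tendsto_exp_atTop.comp h).eventually_ge_atTop B

theorem poly_exp (a : ℝ) (ha : 0 < a) (B : ℝ) : ∀ᶠ n : ℕ in atTop,
    B * n ≤ Real.exp (a * n) := by
  have h1 := exp_large (a / 2) (by positivity) (B * (2 / a))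
  filter_upwards [h1] with n hn
  have h2 : a / 2 * n ≤ Real.exp (a / 2 * n) := by
    have := Real.add_one_le_exp (a / 2 * n)
    linarith
  have h3 : (n : ℝ) ≤ 2 / a * Real.exp (a / 2 * n) := by
    rw [div_mul_eq_mul_div, le_div_iff₀ ha]; linarith
  rcases le_or_gt B 0 with hB | hB
  · have : B * n ≤ 0 := mul_nonpos_of_nonpos_of_nonneg hB (Nat.cast_nonneg n)
    exact this.trans (Real.exp_pos _).le
  calc B * n ≤ B * (2 / a * Real.exp (a / 2 * n)) := mul_le_mul_of_nonneg_left h3 hB.le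
    _ = (B * (2 / a)) * Real.exp (a / 2 * n) := by ring
    _ ≤ Real.exp (a / 2 * n) * Real.exp (a / 2 * n) :=
        mul_le_mul_of_nonneg_right hn (Real.exp_pos _).le
    _ = _ := by rw [← Real.exp_add]; congr 1; ring

/-- caps are exponentially small -/
theorem cap_small {θ : ℝ} (h : 0 < θ) (h1 : θ < Real.pi / 2) : ∃ b : ℝ, 0 < b ∧
    ∀ᶠ n : ℕ in atTop, ∀ x₀ : S n, cap n θ x₀ ≤ Real.exp (-(b * n)) := by
  obtain ⟨hc, hc1⟩ := cos_mem h h1
  obtain ⟨b, c₀, hb, hb1⟩ := Pool.Agent.N549.SG.capVol_exp Pool.Agent.N424.SG.Capr.capr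
    Pool.Agent.N434.SG.rotS (Real.cos θ) hc hc1
  refine ⟨b, hb, ?_⟩
  filter_upwards [eventually_ge_atTop (c₀ + 2)] with n hn x₀
  obtain ⟨c, rfl⟩ := Nat.exists_eq_add_of_le' (show 2 ≤ n by omega)
  rw [cap_eq]
  have := hb1 c (by omega)
  push_cast
  exact this

/-- The exponent of the caps is `log (sin θ)`. -/
theorem cap_exponent {θ : ℝ} (h : 0 < θ) (h1 : θ < Real.pi / 2) {ε : ℝ} (hε : 0 < ε) :
    ∀ᶠ n : ℕ in atTop, ∀ x₀ : S n, Real.exp ((Real.log (Real.sin θ) - ε) * n) ≤ cap n θ x₀ ∧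
      cap n θ x₀ ≤ Real.exp ((Real.log (Real.sin θ) + ε) * n) := by
  obtain ⟨hc, hc1⟩ := cos_mem h h1
  have hs : 0 < Real.sin θ := Real.sin_pos_of_pos_of_lt_pi h (by linarith [Real.pi_pos])
  set t : ℝ := Real.cos θ with ht
  have hsq : Real.sqrt (1 - t ^ 2) = Real.sin θ := by
    have : 1 - t ^ 2 = Real.sin θ ^ 2 := by
      have := Real.sin_sq_add_cos_sq θ
      rw [ht]; linarith
    rw [this, Real.sqrt_sq hs.le]
  -- the second level
  obtain ⟨t0, ht0, ht0t, ht0e⟩ : ∃ t0 : ℝ, 0 < t0 ∧ t0 ≤ t ∧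
      -(ε / 2) ≤ Real.log (1 - t0 ^ 2) / 2 := by
    have hcont : Tendsto (fun u : ℝ => Real.log (1 - u ^ 2) / 2) (𝓝[>] 0) (𝓝 0) := by
      have h2 : ContinuousAt (fun u : ℝ => Real.log (1 - u ^ 2) / 2) 0 := by
        apply ContinuousAt.div_const
        apply ContinuousAt.log
        · fun_prop
        · norm_num
      have h3 := h2.tendsto
      norm_num at h3
      exact h3.mono_left nhdsWithin_le_nhds
    have e1 := hcont.eventually (lt_mem_nhds (show -(ε / 2) < 0 by linarith))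
    have e2 : ∀ᶠ u : ℝ in 𝓝[>] 0, 0 < u := eventually_mem_nhdsWithin
    have e3 : ∀ᶠ u : ℝ in 𝓝[>] 0, u < t := by
      exact nhdsWithin_le_nhds (gt_mem_nhds hc)
    obtain ⟨u, h1, h2, h3⟩ := (e1.and (e2.and e3)).exists
    exact ⟨u, h2, h3.le, h1.le⟩
  have ht01 : t0 ^ 2 < 1 := by nlinarith
  set ρ : ℝ := Real.sqrt ((1 - t ^ 2) / (1 - t0 ^ 2)) with hρ
  have hρ0 : 0 < ρ := Real.sqrt_pos.2 (div_pos (by nlinarith) (by linarith))
  have hρlog : Real.log ρ ≤ Real.log (Real.sin θ) + ε / 2 := by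
    rw [hρ, Real.sqrt_div (by nlinarith), hsq, Real.log_div hs.ne'
      (Real.sqrt_pos.2 (by linarith)).ne', Real.log_sqrt (by linarith)]
    linarith
  have l1 := poly_exp (ε / 2) (by positivity) (2 / (t * 1) * Real.sin θ)
  have l2 := exp_large (ε / 2) (by positivity) (1 / (ρ * (t0 * t)))
  filter_upwards [l1, l2, eventually_ge_atTop 2] with n hn1 hn2 hn x₀
  obtain ⟨c, rfl⟩ := Nat.exists_eq_add_of_le' hn
  rw [cap_eq, ← ht]
  have ecast : ((c + 2 : ℕ) : ℝ) = (c : ℝ) + 2 := by push_cast; ring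
  constructor
  · have hV := Pool.Agent.N921.SG.LowV.lowv c t hc hc1
    rw [hsq] at hV
    refine le_trans ?_ hV
    rw [le_div_iff₀ (by positivity)]
    have e1 : Real.exp ((Real.log (Real.sin θ) - ε) * ((c + 2 : ℕ) : ℝ)) =
        Real.sin θ ^ (c + 2) * Real.exp (-(ε * ((c + 2 : ℕ) : ℝ))) := by
      rw [← Real.exp_log (pow_pos hs (c + 2)), Real.log_pow, ← Real.exp_add]
      congr 1; push_cast; ring
    rw [e1]
    have e2 : Real.exp (-(ε * ((c + 2 : ℕ) : ℝ))) * Real.exp (ε / 2 * ((c + 2 : ℕ) : ℝ)) ≤ 1 := by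
      rw [← Real.exp_add]
      apply Real.exp_le_one_iff.2
      have : 0 ≤ ε * ((c + 2 : ℕ) : ℝ) := by positivity
      linarith
    have e3 : Real.sin θ * (2 * ((c : ℝ) + 2)) ≤ t * Real.exp (ε / 2 * ((c + 2 : ℕ) : ℝ)) := by
      rw [ecast] at hn1 ⊢
      have : Real.sin θ * (2 * ((c : ℝ) + 2)) = t * (2 / (t * 1) * Real.sin θ * ((c : ℝ) + 2)) := by
        field_simp
      rw [this]
      exact mul_le_mul_of_nonneg_left hn1 hc.le
    calc Real.sin θ ^ (c + 2) * Real.exp (-(ε * ((c + 2 : ℕ) : ℝ))) * (2 * ((c : ℝ) + 2))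
        = Real.sin θ ^ (c + 1) * Real.exp (-(ε * ((c + 2 : ℕ) : ℝ))) *
          (Real.sin θ * (2 * ((c : ℝ) + 2))) := by ring
      _ ≤ Real.sin θ ^ (c + 1) * Real.exp (-(ε * ((c + 2 : ℕ) : ℝ))) *
          (t * Real.exp (ε / 2 * ((c + 2 : ℕ) : ℝ))) :=
          mul_le_mul_of_nonneg_left e3 (by positivity)
      _ = t * Real.sin θ ^ (c + 1) * (Real.exp (-(ε * ((c + 2 : ℕ) : ℝ))) *
          Real.exp (ε / 2 * ((c + 2 : ℕ) : ℝ))) := by ring
      _ ≤ t * Real.sin θ ^ (c + 1) * 1 := mul_le_mul_of_nonneg_left e2 (by positivity)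
      _ = _ := by ring
  · obtain ⟨-, hV⟩ := Pool.Agent.N424.SG.Capr.capr c t0 t ht0 ht0t hc1
    refine hV.trans ?_
    have h0 : 0 ≤ capVol c t0 := measureReal_nonneg
    have h2 := capVol_le_one c t0
    have e1 : ρ ^ (c + 1) / (t0 * t) * capVol c t0 ≤ ρ ^ (c + 1) / (t0 * t) * 1 :=
      mul_le_mul_of_nonneg_left h2 (by positivity)
    refine e1.trans ?_
    have e2 : ρ ^ (c + 1) / (t0 * t) * 1 = ρ ^ (c + 2) * (1 / (ρ * (t0 * t))) := by
      rw [pow_succ ρ (c + 1)]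
      field_simp
    rw [e2]
    have e3 : ρ ^ (c + 2) ≤ Real.exp ((Real.log (Real.sin θ) + ε / 2) * ((c + 2 : ℕ) : ℝ)) := by
      rw [← Real.exp_log (pow_pos hρ0 (c + 2)), Real.log_pow, Real.exp_le_exp]
      rw [mul_comm]
      exact mul_le_mul_of_nonneg_right hρlog (Nat.cast_nonneg _)
    calc _ ≤ Real.exp ((Real.log (Real.sin θ) + ε / 2) * ((c + 2 : ℕ) : ℝ)) *
          Real.exp (ε / 2 * ((c + 2 : ℕ) : ℝ)) := mul_le_mul e3 hn2 (by positivity) (by positivity)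
      _ = _ := by rw [← Real.exp_add]; congr 1; ring

/-- Upper bound in the window: the order of magnitude. -/
theorem upper_window {θ : ℝ} (h : 0 < θ) (h1 : θ < Real.pi / 2) {ε : ℝ} (hε : 0 < ε) :
    ∃ c C : ℝ, 0 < c ∧ 0 < C ∧ ∀ᶠ n : ℕ in atTop, ∀ (x₀ : S n) (N : ℕ),
      N ≤ Real.exp ((K θ - ε) * n) / cap n θ x₀ →
      (law n N).real {x | C * n / cap n θ x₀ < best θ x} ≤ Real.exp (-Real.exp (c * n)) := by
  obtain ⟨a, C, n₀, ha, hC, key⟩ := (result.1 θ h h1).2 (ε / 2) (by positivity)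
  obtain ⟨b, hb, hsm⟩ := cap_small h h1
  refine ⟨b / 2, C, by positivity, hC, ?_⟩
  filter_upwards [hsm, eventually_ge_atTop n₀, eventually_ge_atTop 2,
    exp_large (ε / 2) (by positivity) (Real.exp 2 / C),
    exp_large (b / 2) (by positivity) (1 / C)] with n hs hn0 hn2 he2 heC x₀ N hN
  have hP := unif_prob n hn2
  set Δ := cap n θ x₀ with hΔ
  obtain ⟨hΔ0, -, -, k3⟩ := key n hn0 x₀ Δ hΔ
  have hn0' : (0 : ℝ) < n := by exact_mod_cast (show 0 < n by omega)
  have hn1' : (1 : ℝ) ≤ n := by exact_mod_cast (show 1 ≤ n by omega)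
  set y : ℝ := C * n / Δ with hy
  have hy0 : 0 < y := by positivity
  set k : ℕ := ⌈y⌉₊ with hk
  have hk0 : 0 < k := Nat.ceil_pos.2 hy0
  have hyk : y ≤ k := Nat.le_ceil y
  have hsub : {x : Fin N → S n | y < best θ x} ⊆ {x | k ≤ best θ x} := by
    intro x hx
    exact Nat.ceil_le.2 (le_of_lt hx)
  refine (measureReal_mono hsub (measure_ne_top _ _)).trans ?_
  have hkΔ : C * n ≤ k * Δ := by
    rw [hy, div_le_iff₀ hΔ0] at hyk
    exact hyk
  refine (first_moment_exp θ k hk0 ((K θ - ε / 2) * n) (k3 k hkΔ) ?_).trans ?_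
  · calc Real.exp 2 * N ≤ Real.exp 2 * (Real.exp ((K θ - ε) * n) / Δ) :=
          mul_le_mul_of_nonneg_left hN (Real.exp_pos _).le
      _ ≤ (C * Real.exp (ε / 2 * n)) * (Real.exp ((K θ - ε) * n) / Δ) := by
          apply mul_le_mul_of_nonneg_right _ (by positivity)
          rw [div_le_iff₀ hC] at he2
          linarith
      _ = C / Δ * (Real.exp (ε / 2 * n) * Real.exp ((K θ - ε) * n)) := by ring
      _ = C / Δ * Real.exp ((K θ - ε / 2) * n) := by
          rw [← Real.exp_add]; congr 2; ring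
      _ ≤ k * Real.exp ((K θ - ε / 2) * n) := by
          apply mul_le_mul_of_nonneg_right _ (Real.exp_pos _).le
          refine le_trans ?_ hyk
          rw [hy]
          apply div_le_div_of_nonneg_right _ hΔ0.le
          nlinarith
  · rw [Real.exp_le_exp, neg_le_neg_iff]
    refine le_trans ?_ hyk
    rw [hy, le_div_iff₀ hΔ0]
    calc Real.exp (b / 2 * n) * Δ ≤ Real.exp (b / 2 * n) * Real.exp (-(b * n)) :=
          mul_le_mul_of_nonneg_left (hs x₀) (Real.exp_pos _).le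
      _ = (Real.exp (b / 2 * n))⁻¹ := by rw [← Real.exp_add, ← Real.exp_neg]; congr 1; ring
      _ ≤ C := by
          rw [inv_le_comm₀ (Real.exp_pos _) hC, ← one_div]
          exact heC
      _ ≤ C * n := by nlinarith

/-- Upper bound for all intensities. -/
theorem upper_all {θ : ℝ} (h : 0 < θ) (h1 : θ < Real.pi / 2) {ε : ℝ} (hε : 0 < ε) :
    ∃ c : ℝ, 0 < c ∧ ∀ᶠ n : ℕ in atTop, ∀ (x₀ : S n) (N : ℕ) (s : ℝ), 
      N ≤ Real.exp (s * n) / cap n θ x₀ →
      (law n N).real {x | Real.exp ((max 0 (s - K θ) + ε) * n) / cap n θ x₀ < best θ x} ≤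
        Real.exp (-Real.exp (c * n)) := by
  obtain ⟨a, C, n₀, ha, hC, key⟩ := (result.1 θ h h1).2 (ε / 2) (by positivity)
  obtain ⟨b, hb, hsm⟩ := cap_small h h1
  refine ⟨b, by positivity, ?_⟩
  filter_upwards [hsm, eventually_ge_atTop n₀, eventually_ge_atTop 2,
    exp_large (ε / 2) (by positivity) (Real.exp 2), poly_exp ε hε C] with n hs hn0 hn2 he2 heC x₀ N s hN
  have hP := unif_prob n hn2
  set Δ := cap n θ x₀ with hΔ
  obtain ⟨hΔ0, -, -, k3⟩ := key n hn0 x₀ Δ hΔ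
  set m : ℝ := max 0 (s - K θ) with hm
  have hm0 : 0 ≤ m := le_max_left _ _
  have hm1 : s - K θ ≤ m := le_max_right _ _
  have hn0' : (0 : ℝ) < n := by exact_mod_cast (show 0 < n by omega)
  set y : ℝ := Real.exp ((m + ε) * n) / Δ with hy
  have hy0 : 0 < y := by positivity
  set k : ℕ := ⌈y⌉₊ with hk
  have hk0 : 0 < k := Nat.ceil_pos.2 hy0
  have hyk : y ≤ k := Nat.le_ceil y
  have hsub : {x : Fin N → S n | y < best θ x} ⊆ {x | k ≤ best θ x} := by
    intro x hx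
    exact Nat.ceil_le.2 (le_of_lt hx)
  refine (measureReal_mono hsub (measure_ne_top _ _)).trans ?_
  have hmε : Real.exp (ε * n) ≤ Real.exp ((m + ε) * n) := by
    rw [Real.exp_le_exp]; nlinarith
  have hkΔ : C * n ≤ k * Δ := by
    have h2 := hyk
    rw [hy, div_le_iff₀ hΔ0] at h2
    linarith
  refine (first_moment_exp θ k hk0 ((K θ - ε / 2) * n) (k3 k hkΔ) ?_).trans ?_
  · calc Real.exp 2 * N ≤ Real.exp 2 * (Real.exp (s * n) / Δ) :=
          mul_le_mul_of_nonneg_left hN (Real.exp_pos _).le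
      _ ≤ Real.exp (ε / 2 * n) * (Real.exp (s * n) / Δ) :=
          mul_le_mul_of_nonneg_right he2 (by positivity)
      _ = Real.exp (ε / 2 * n + s * n) / Δ := by rw [Real.exp_add]; ring
      _ ≤ Real.exp ((m + ε) * n + (K θ - ε / 2) * n) / Δ := by
          apply div_le_div_of_nonneg_right _ hΔ0.le
          rw [Real.exp_le_exp]
          nlinarith
      _ = y * Real.exp ((K θ - ε / 2) * n) := by rw [hy, Real.exp_add]; ring
      _ ≤ _ := mul_le_mul_of_nonneg_right hyk (Real.exp_pos _).le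
  · rw [Real.exp_le_exp, neg_le_neg_iff]
    refine le_trans ?_ hyk
    rw [hy, le_div_iff₀ hΔ0]
    calc Real.exp (b * n) * Δ ≤ Real.exp (b * n) * Real.exp (-(b * n)) :=
          mul_le_mul_of_nonneg_left (hs x₀) (Real.exp_pos _).le
      _ = 1 := by rw [← Real.exp_add]; simp
      _ ≤ Real.exp (ε * n) := Real.one_le_exp (by positivity)
      _ ≤ _ := hmε

/-- Upper bound with the constant of the first moment. -/
theorem upper_sharp {θ : ℝ} (h : 0 < θ) (h1 : θ < Real.pi / 2) {σ ε : ℝ} (hσ : 0 ≤ σ) (hε : 0 < ε)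
    (hX : 2 * σ + ε < X θ) :
    ∃ c : ℝ, 0 < c ∧ ∀ᶠ n : ℕ in atTop, ∀ (x₀ : S n) (N : ℕ),
      N ≤ Real.exp (σ * n) / cap n θ x₀ →
      (law n N).real {x | (2 * σ + ε) * n / cap n θ x₀ < best θ x} ≤
        Real.exp (-Real.exp (c * n)) := by
  set g : ℝ := X θ - (2 * σ + ε) with hg
  have hg0 : 0 < g := by rw [hg]; linarith
  obtain ⟨a, C, n₀, ha, hC, key⟩ := (result.1 θ h h1).2 (g / 2) (by positivity)
  obtain ⟨b, hb, hsm⟩ := cap_small h h1
  -- the relative error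
  set δ : ℝ := min (1 / 2) (ε / (4 * (2 * σ + ε))) with hδ
  have hsum : 0 < 2 * σ + ε := by linarith
  have hδ0 : 0 < δ := by positivity
  have hδ1 : δ ≤ ε / (4 * (2 * σ + ε)) := min_le_right _ _
  refine ⟨b / 2, by positivity, ?_⟩
  filter_upwards [hsm, eventually_ge_atTop n₀, eventually_ge_atTop 2,
    exp_large (ε / 8) (by positivity) (Real.exp 2), exp_large a ha (1 / δ),
    exp_large a ha 1, eventually_ge_atTop ⌈2 / g⌉₊, eventually_ge_atTop ⌈1 / (2 * σ + ε)⌉₊,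
    exp_large (b / 2) (by positivity) 1]
    with n hs hn0 hn2 he2 heδ hea hng hnε heb x₀ N hN
  have hP := unif_prob n hn2
  set Δ := cap n θ x₀ with hΔ
  obtain ⟨hΔ0, -, k2, -⟩ := key n hn0 x₀ Δ hΔ
  have hn0' : (0 : ℝ) < n := by exact_mod_cast (show 0 < n by omega)
  have hng' : 2 / g ≤ n := Nat.ceil_le.1 hng
  have hnε' : 1 / (2 * σ + ε) ≤ n := Nat.ceil_le.1 hnε
  rw [div_le_iff₀ hg0] at hng'
  rw [div_le_iff₀ hsum] at hnε'
  have hΔ1 : Δ ≤ 1 := (hs x₀).trans (Real.exp_le_one_iff.2 (by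
    have : 0 ≤ b * n := by positivity
    linarith))
  set y : ℝ := (2 * σ + ε) * n / Δ with hy
  have hy0 : 0 < y := by positivity
  set k : ℕ := ⌈y⌉₊ with hk
  have hk0 : 0 < k := Nat.ceil_pos.2 hy0
  have hyk : y ≤ k := Nat.le_ceil y
  have hky : (k : ℝ) < y + 1 := Nat.ceil_lt_add_one hy0.le
  have hsub : {x : Fin N → S n | y < best θ x} ⊆ {x | k ≤ best θ x} := by
    intro x hx
    exact Nat.ceil_le.2 (le_of_lt hx)
  refine (measureReal_mono hsub (measure_ne_top _ _)).trans ?_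
  have hkΔ1 : (2 * σ + ε) * n ≤ k * Δ := by
    have h2 := hyk
    rw [hy, div_le_iff₀ hΔ0] at h2
    exact h2
  have hkΔ2 : k * Δ ≤ (X θ - g / 2) * n := by
    have h2 : k * Δ ≤ (y + 1) * Δ := mul_le_mul_of_nonneg_right hky.le hΔ0.le
    have h3 : (y + 1) * Δ = (2 * σ + ε) * n + Δ := by
      rw [hy, add_mul, div_mul_cancel₀ _ hΔ0.ne', one_mul]
    have h4 : X θ = g + (2 * σ + ε) := by rw [hg]; ring
    rw [h4]
    nlinarith
  have hkΔ0 : Real.exp (-(a * n)) ≤ k * Δ := by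
    have : Real.exp (-(a * n)) ≤ 1 := by
      rw [Real.exp_neg]
      exact inv_le_one_of_one_le₀ hea
    linarith
  obtain ⟨hp0, hp⟩ := k2 k hkΔ0 hkΔ2
  have hexp : Real.exp (-(a * n)) ≤ δ := by
    rw [Real.exp_neg, inv_le_comm₀ (Real.exp_pos _) hδ0, ← one_div]
    exact heδ
  have hk0' : (0 : ℝ) < k := by exact_mod_cast hk0
  have hprob : prob n θ k ≤ Real.exp (-((σ + ε / 4) * n * k)) := by
    rw [← Real.log_le_iff_le_exp hp0]
    have h2 := (abs_le.1 hp).2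
    have h3 : (k : ℝ) ^ 2 * Δ * Real.exp (-(a * n)) ≤ k ^ 2 * Δ * δ :=
      mul_le_mul_of_nonneg_left hexp (by positivity)
    have h4 : (1 / 2 - δ) * (k ^ 2 * Δ) ≥ (1 / 2 - δ) * ((2 * σ + ε) * n * k) := by
      apply mul_le_mul_of_nonneg_left _ (by
        have : δ ≤ 1 / 2 := min_le_left _ _
        linarith)
      calc (2 * σ + ε) * n * k ≤ k * Δ * k := mul_le_mul_of_nonneg_right hkΔ1 hk0'.le
        _ = _ := by ring
    have h5 : δ * (2 * σ + ε) ≤ ε / 4 := by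
      have := mul_le_mul_of_nonneg_right hδ1 hsum.le
      have e : ε / (4 * (2 * σ + ε)) * (2 * σ + ε) = ε / 4 := by field_simp
      linarith
    have h6 : δ * (2 * σ + ε) * (n * k) ≤ ε / 4 * (n * k) :=
      mul_le_mul_of_nonneg_right h5 (by positivity)
    nlinarith
  refine (first_moment_exp θ k hk0 ((σ + ε / 4) * n) hprob ?_).trans ?_
  · calc Real.exp 2 * N ≤ Real.exp 2 * (Real.exp (σ * n) / Δ) :=
          mul_le_mul_of_nonneg_left hN (Real.exp_pos _).le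
      _ ≤ Real.exp (ε / 8 * n) * (Real.exp (σ * n) / Δ) :=
          mul_le_mul_of_nonneg_right he2 (by positivity)
      _ = 1 / Δ * Real.exp (ε / 8 * n + σ * n) := by rw [Real.exp_add]; ring
      _ ≤ y * Real.exp ((σ + ε / 4) * n) := by
          apply mul_le_mul _ _ (Real.exp_pos _).le hy0.le
          · rw [hy]
            apply div_le_div_of_nonneg_right _ hΔ0.le
            linarith
          · rw [Real.exp_le_exp]; nlinarith
      _ ≤ _ := mul_le_mul_of_nonneg_right hyk (Real.exp_pos _).le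
  · rw [Real.exp_le_exp, neg_le_neg_iff]
    refine le_trans ?_ hyk
    rw [hy, le_div_iff₀ hΔ0]
    calc Real.exp (b / 2 * n) * Δ ≤ Real.exp (b / 2 * n) * Real.exp (-(b * n)) :=
          mul_le_mul_of_nonneg_left (hs x₀) (Real.exp_pos _).le
      _ = (Real.exp (b / 2 * n))⁻¹ := by rw [← Real.exp_add, ← Real.exp_neg]; congr 1; ring
      _ ≤ 1 := inv_le_one_of_one_le₀ heb
      _ ≤ _ := by linarith

end Pool.Agent.Helper57.KR
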