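import Pool.Graph.R_pool_sql_team_seeded_63374d34.N596.KC.Asym
import Pool.Graph.R_pool_sql_team_seeded_c8625f6e.K4H71.SP.Simplex

/-! Almost regular simplices in large sets of unit vectors (for MP_b5f63d_co). -/

open MeasureTheory Metric Filter Set
open scoped Topology RealInnerProductSpace
open Pool.Agent.H818R2 Pool.Agent.N596.KC Pool.Agent.K4H71.SP

namespace Pool.Agent.Helper57.KS

section
variable {E : Type*} [NormedAddCommGroup E] [InnerProductSpace ℝ E]

lemma cap_attained_fin (C : Finset E) (r : ℝ) :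
    ∃ (c : E) (T : Finset E), (↑T : Set E) ⊆ ↑C ∧ (∀ x ∈ T, dist x c ≤ r) ∧
      Cap (↑C : Set E) r T.card := by
  set S : Set ℕ := {m | ∃ (c : E) (T : Finset E), (↑T : Set E) ⊆ ↑C ∧ (∀ x ∈ T, dist x c ≤ r) ∧
    T.card = m} with hS
  have hne : S.Nonempty := ⟨0, 0, ∅, by simp, by simp, by simp⟩
  have hbd : BddAbove S := by
    refine ⟨C.card, ?_⟩
    rintro m ⟨c, T, hT, hTc, rfl⟩
    exact Finset.card_le_card (Finset.coe_subset.1 hT)
  obtain ⟨c, T, hT, hTc, hTm⟩ := Nat.sSup_mem hne hbd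
  refine ⟨c, T, hT, hTc, fun c' P hP hPc => ?_⟩
  rw [hTm]
  exact le_csSup hbd ⟨c', P, hP, hPc, rfl⟩

variable [FiniteDimensional ℝ E] [MeasurableSpace E] [BorelSpace E]

/-- If a ball of radius `R` has `D * M` points of the finite set `C` and all balls of radius `r`
have at most `M` points, then there is a large almost regular simplex. -/
theorem multi_scale {C : Finset E} {R r ε : ℝ} (hr : 0 < r) (hrR : r ≤ R)
    (hε0 : 0 < ε) (hε : ε ≤ 1 / 2) {M : ℕ} (hM : Cap (↑C : Set E) r M) {c0 : E} {T0 : Finset E}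
    (hT0C : (↑T0 : Set E) ⊆ ↑C) (hT0c : ∀ x ∈ T0, dist x c0 ≤ R) (hT0 : T0.Nonempty) :
    ∃ (S : Finset E) (d : ℝ), S ⊆ C ∧ √2 * r ≤ d ∧ d ≤ √2 * R ∧
      ((T0.card : ℝ) / M) ^ (ε ^ 2 / (2 * Real.log (R / r) + ε ^ 2)) / 6
        ≤ S.card ∧
      ∀ x ∈ S, ∀ y ∈ S, x ≠ y → (1 - ε) * d ≤ dist x y ∧ dist x y ≤ (1 + ε) * d := by
  classical
  set D : ℝ := (T0.card : ℝ) / M with hD
  set e : ℝ := ε ^ 2 / (2 * Real.log (R / r) + ε ^ 2) with he
  have hR0 : 0 < R := by linarith
  have hRr : 1 ≤ R / r := by rw [le_div_iff₀ hr]; linarith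
  have hlogR : 0 ≤ Real.log (R / r) := Real.log_nonneg hRr
  have he0 : 0 < e := by positivity
  have hD0 : 0 ≤ D := by positivity
  obtain ⟨x0, hx0T⟩ := hT0
  have hx0 : x0 ∈ C := by exact_mod_cast hT0C (Finset.mem_coe.2 hx0T)
  rcases hD0.eq_or_lt with hDz | hDpos
  · refine ⟨∅, √2 * R, by simp, by gcongr, le_rfl, ?_, by simp⟩
    rw [← hDz, Real.zero_rpow he0.ne']
    simp
  have hMpos : (0 : ℝ) < M := by
    rcases (Nat.cast_nonneg (α := ℝ) M).eq_or_lt with h | h
    · rw [hD, ← h, div_zero] at hDpos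
      exact absurd hDpos (lt_irrefl _)
    · exact h
  -- the maximal numbers
  set t : ℝ := √(1 - ε ^ 2) with ht
  have h0 : 0 < 1 - ε ^ 2 := by nlinarith
  have ht2 : t ^ 2 = 1 - ε ^ 2 := Real.sq_sqrt h0.le
  have ht0 : 0 < t := Real.sqrt_pos.2 h0
  have ht1 : t < 1 := by
    rw [ht, Real.sqrt_lt' one_pos]
    nlinarith [sq_pos_of_pos hε0]
  have hch : ∀ j : ℕ, ∃ (c : E) (T : Finset E), (↑T : Set E) ⊆ ↑C ∧
      (∀ x ∈ T, dist x c ≤ t ^ j * R) ∧
      Cap (↑C : Set E) (t ^ j * R) T.card := fun j => cap_attained_fin C _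
  choose cc TT hTX hTc hTM using hch
  rcases le_or_gt (D ^ e) 6 with hsmall | hbig
  · refine ⟨{x0}, √2 * R, by simpa using hx0, by gcongr, le_rfl, ?_, ?_⟩
    · simp only [Finset.card_singleton, Nat.cast_one]
      linarith
    · intro x hx y hy hxy
      rw [Finset.mem_singleton] at hx hy
      exact absurd (hx.trans hy.symm) hxy
  have hN1 : ∀ j, 1 ≤ (TT j).card := fun j => by
    have := hTM j x0 {x0} (by simpa using hx0) (by simp; positivity)
    simpa using this
  have hN0 : D * M ≤ (TT 0).card := by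
    have h1 := hTM 0 c0 T0 hT0C (by simpa using hT0c)
    rw [hD, div_mul_cancel₀ _ hMpos.ne']
    exact_mod_cast h1
  have hexJ : ∃ j : ℕ, t ^ j * R ≤ r := by
    obtain ⟨j, hj⟩ := exists_pow_lt_of_lt_one (show 0 < r / R by positivity) ht1
    refine ⟨j, ?_⟩
    rw [lt_div_iff₀ hR0] at hj
    exact hj.le
  set J : ℕ := Nat.find hexJ with hJ
  have hJle' : t ^ J * R ≤ r := Nat.find_spec hexJ
  have hJmin : ∀ j < J, r < t ^ j * R := fun j hj => not_le.1 (Nat.find_min hexJ hj)
  have hD1 : 1 < D := by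
    by_contra hcon
    push Not at hcon
    have := Real.rpow_le_one hD0 hcon he0.le
    linarith
  have hNJ : ((TT J).card : ℝ) ≤ M := by
    have := hM (cc J) (TT J) (hTX J) (fun x hx => (hTc J x hx).trans hJle')
    exact_mod_cast this
  have hJ1 : 1 ≤ J := by
    by_contra hcon
    have hJ0 : J = 0 := by omega
    rw [hJ0] at hNJ
    nlinarith
  have hJpos : (0 : ℝ) < J := by exact_mod_cast hJ1
  have hJle : (J : ℝ) ≤ (2 * Real.log (R / r) + ε ^ 2) / ε ^ 2 := by
    have h1 := hJmin (J - 1) (by omega)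
    have h2 : Real.log r < Real.log (t ^ (J - 1) * R) := Real.log_lt_log hr h1
    rw [Real.log_mul (by positivity) hR0.ne', Real.log_pow, Nat.cast_sub hJ1] at h2
    have h3 : Real.log t = Real.log (1 - ε ^ 2) / 2 := by rw [ht, Real.log_sqrt h0.le]
    have h4 : Real.log (1 - ε ^ 2) ≤ -ε ^ 2 := by
      have := Real.log_le_sub_one_of_pos h0
      linarith
    rw [Real.log_div hR0.ne' hr.ne', le_div_iff₀ (by positivity)]
    have h5 : (0 : ℝ) ≤ (J : ℝ) - (1 : ℕ) := by
      push_cast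
      have : (1 : ℝ) ≤ J := by exact_mod_cast hJ1
      linarith
    have h6 := mul_le_mul_of_nonneg_left h4 h5
    rw [h3] at h2
    push_cast at h2 h6
    nlinarith
  have heJ : e ≤ 1 / J := by
    rw [he, div_le_div_iff₀ (by positivity) hJpos]
    rw [le_div_iff₀ (by positivity)] at hJle
    linarith
  set q : ℝ := D ^ (1 / (J : ℝ)) with hq
  have hq1 : D ^ e ≤ q := Real.rpow_le_rpow_of_exponent_le hD1.le heJ
  have hq0 : 0 < q := by positivity
  have hqJ : q ^ J = D := by
    rw [hq, ← Real.rpow_natCast, ← Real.rpow_mul hD0, one_div, inv_mul_cancel₀ hJpos.ne',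
      Real.rpow_one]
  -- a scale of fast growth
  have hscale : ∃ j < J, ((TT (j + 1)).card : ℝ) * q ≤ (TT j).card := by
    by_contra hcon
    push Not at hcon
    have aux : ∀ j : ℕ, j + 1 ≤ J → ((TT 0).card : ℝ) < (TT (j + 1)).card * q ^ (j + 1) := by
      intro j
      induction j with
      | zero => intro hj; simpa using hcon 0 (by omega)
      | succ j ih =>
        intro hj
        have h2 := ih (by omega)
        have h3 := hcon (j + 1) (by omega)
        calc ((TT 0).card : ℝ) < (TT (j + 1)).card * q ^ (j + 1) := h2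
          _ ≤ ((TT (j + 1 + 1)).card * q) * q ^ (j + 1) := by
              apply mul_le_mul_of_nonneg_right h3.le (by positivity)
          _ = (TT (j + 1 + 1)).card * q ^ (j + 1 + 1) := by ring
    have h5 := aux (J - 1) (by omega)
    rw [Nat.sub_add_cancel hJ1, hqJ] at h5
    have h6 : ((TT J).card : ℝ) * D ≤ M * D := mul_le_mul_of_nonneg_right hNJ hD0
    linarith
  obtain ⟨j, hj, hjq⟩ := hscale
  have hrj : 0 < t ^ j * R := by positivity
  obtain ⟨S, hSX, hSc, hSd⟩ := one_scale (X := (↑C : Set E)) hrj hε0 hε (hTX j) (hTc j)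
    (M := (TT (j + 1)).card)
    (by
      have h1 := hTM (j + 1)
      have : √(1 - ε ^ 2) * (t ^ j * R) = t ^ (j + 1) * R := by rw [← ht]; ring
      rw [this]; exact h1) (q := q) (by linarith) hjq (hN1 j)
  refine ⟨S, √2 * (t ^ j * R), by exact_mod_cast hSX, ?_, ?_, ?_, hSd⟩
  · exact mul_le_mul_of_nonneg_left (hJmin j hj).le (by positivity)
  · apply mul_le_mul_of_nonneg_left _ (by positivity)
    have : t ^ j ≤ 1 := pow_le_one₀ ht0.le ht1.le
    nlinarith
  · calc D ^ e / 6 ≤ q / 6 := by linarith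
      _ ≤ S.card := hSc

/-- Averaging over the caps: some cap has many points. -/
lemma exists_cap {C : Finset E} (hC : ∀ x ∈ C, ‖x‖ = 1) {q s ε : ℝ} (hq : 0 ≤ q)
    (hs : 0 < s) (hε : 0 < ε) (hεs : ε < s) (hg : q ^ 2 + s ^ 2 + 7 * ε ≤ 1)
    (hn : 4 * √(s ^ 2 - ε ^ 2) ^ Module.finrank ℝ E ≤ s ^ Module.finrank ℝ E)
    (hne : C.Nonempty) :
    ∃ (z : E) (T : Finset E), T ⊆ C ∧ ‖z‖ = 1 ∧ (∀ x ∈ T, q < ⟪x, z⟫) ∧
      C.card * s ^ Module.finrank ℝ E ≤ 2 * T.card := by
  classical
  set n := Module.finrank ℝ E with hndef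
  -- the largest number of points in a dual cone
  let f : E → ℕ := fun z => (C.filter (fun x => z ∈ cone q x)).card
  have hfb : ∀ z, f z ≤ C.card := fun z => Finset.card_filter_le _ _
  obtain ⟨z, hz⟩ : ∃ z, ∀ w, f w ≤ f z := by
    have hbd : BddAbove (Set.range f) := ⟨C.card, by rintro _ ⟨z, rfl⟩; exact hfb z⟩
    obtain ⟨z, hz⟩ := Nat.sSup_mem (Set.range_nonempty f) hbd
    exact ⟨z, fun w => by rw [hz]; exact le_csSup hbd ⟨w, rfl⟩⟩
  set B : ℕ := f z with hB
  have key : ∑ x ∈ C, ∫⁻ z, indicator (cone q x) (fun _ => (1 : ENNReal)) z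
      ≤ ∫⁻ z, indicator (ball (0 : E) 1) (fun _ => (B : ENNReal)) z := by
    rw [← lintegral_finsetSum]
    · apply lintegral_mono
      intro w
      have e1 : ∑ x ∈ C, indicator (cone q x) (fun _ => (1 : ENNReal)) w
          = ((C.filter (fun x => w ∈ cone q x)).card : ENNReal) := by
        rw [Finset.card_filter, Nat.cast_sum]
        apply Finset.sum_congr rfl
        intro x _
        by_cases h : w ∈ cone q x <;> simp [indicator, h]
      simp only [e1]
      by_cases hw : w ∈ ball (0 : E) 1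
      · rw [indicator_of_mem hw]
        have : (C.filter (fun x => w ∈ cone q x)).card ≤ B := hz w
        exact_mod_cast this
      · have : C.filter (fun x => w ∈ cone q x) = ∅ := by
          apply Finset.filter_eq_empty_iff.2
          intro x _ hxz
          exact hw (cone_subset q x hxz)
        rw [this]; simp
    · intro x _
      exact Measurable.indicator measurable_const (measurableSet_cone q x)
  have e2 : ∀ x ∈ C, ∫⁻ z, indicator (cone q x) (fun _ => (1 : ENNReal)) z = volume (cone q x) := by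
    intro x _
    rw [lintegral_indicator_const (measurableSet_cone q x), one_mul]
  rw [Finset.sum_congr rfl e2, lintegral_indicator_const measurableSet_ball] at key
  have hlow : ∀ x ∈ C, ENNReal.ofReal (s ^ n / 2 * vb E) ≤ volume (cone q x) := by
    intro x hx
    apply ENNReal.ofReal_le_of_le_toReal
    exact cap_vol hq hs hε hεs hg hn (hC x hx)
  have h1 : (C.card : ENNReal) * ENNReal.ofReal (s ^ n / 2 * vb E) ≤
      (B : ENNReal) * volume (ball (0 : E) 1) := by
    refine le_trans ?_ key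
    rw [← nsmul_eq_mul, ← Finset.sum_const]
    exact Finset.sum_le_sum hlow
  have h2 := ENNReal.toReal_mono (ENNReal.mul_ne_top (ENNReal.natCast_ne_top B)
    measure_ball_lt_top.ne) h1
  have hv := vb_pos (E := E)
  rw [ENNReal.toReal_mul, ENNReal.toReal_mul, ENNReal.toReal_natCast, ENNReal.toReal_natCast,
    ENNReal.toReal_ofReal (by positivity)] at h2
  have h3 : (volume (ball (0 : E) 1)).toReal = vb E := rfl
  rw [h3] at h2
  have h4 : (C.card * s ^ n) * vb E ≤ (2 * B) * vb E := by nlinarith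
  have h5 : (C.card : ℝ) * s ^ n ≤ 2 * B := le_of_mul_le_mul_right h4 hv
  have hCpos : (0 : ℝ) < C.card := by exact_mod_cast hne.card_pos
  have hB0 : (0 : ℝ) < B := by
    have : 0 < (C.card : ℝ) * s ^ n := by positivity
    linarith
  have hB0' : 0 < B := by exact_mod_cast hB0
  obtain ⟨x1, hx1⟩ := Finset.card_pos.1 hB0'
  have hx1' := (Finset.mem_filter.1 hx1).2
  have hz0 : z ≠ 0 := by
    rintro rfl
    have := hx1'.2
    simp at this
  have hzn : 0 < ‖z‖ := norm_pos_iff.2 hz0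
  refine ⟨‖z‖⁻¹ • z, C.filter (fun x => z ∈ cone q x), Finset.filter_subset _ _, ?_, ?_, h5⟩
  · rw [norm_smul, norm_inv, norm_norm, inv_mul_cancel₀ hzn.ne']
  · intro x hx
    have h6 := (Finset.mem_filter.1 hx).2.2
    rw [inner_smul_right]
    rw [inv_mul_eq_div, lt_div_iff₀ hzn]
    exact h6

end

end Pool.Agent.Helper57.KS
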