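import Pool.Agent.Helper57.KS.Simplex

/-! Concentration of the distances in a suitable part of a finite set (for MP_b5f63d_co). -/

open MeasureTheory Metric Filter Set
open scoped Topology RealInnerProductSpace
open Pool.Agent.H818R2 Pool.Agent.N596.KC Pool.Agent.K4H71.SP

namespace Pool.Agent.Helper57.KS

section
variable {E : Type*} [NormedAddCommGroup E] [InnerProductSpace ℝ E]

/-- A point far from the centre is in a relation with few points. -/
lemma rel_count {X : Set E} {ε r : ℝ} (hr : 0 < r) (hε0 : 0 < ε) (hε : ε ≤ 1 / 2)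
    {c : E} {T : Finset E} (hTX : ↑T ⊆ X) (hTc : ∀ x ∈ T, dist x c ≤ r) {M : ℕ}
    (hM : Cap X (√(1 - ε ^ 2) * r) M) {p : E} (hp : p ∈ T) (hp1 : √(1 - ε ^ 2) * r < dist p c)
    {P : Finset E} (hP : P ⊆ T) (hPR : ∀ y ∈ P, ε * r ^ 2 ≤ |⟪p - c, y - c⟫|) :
    P.card ≤ 2 * M := by
  classical
  set t : ℝ := √(1 - ε ^ 2) with ht
  have h0 : 0 ≤ 1 - ε ^ 2 := by nlinarith
  have ht0 : 0 ≤ t := Real.sqrt_nonneg _
  have hp2 := hTc p hp
  set a : ℝ := ‖p - c‖ with ha
  have ha1 : a ≤ r := by rw [ha, ← dist_eq_norm]; exact hp2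
  have ha2 : t * r < a := by rw [ha, ← dist_eq_norm]; exact hp1
  have hapos : 0 < a := lt_of_le_of_lt (by positivity) ha2
  set w : E := a⁻¹ • (p - c) with hw
  have hw1 : ‖w‖ = 1 := by
    rw [hw, norm_smul, norm_inv, Real.norm_of_nonneg hapos.le, ← ha, inv_mul_cancel₀ hapos.ne']
  have hwi : ∀ y : E, ⟪y - c, w⟫ = ⟪p - c, y - c⟫ / a := by
    intro y
    rw [hw, inner_smul_right, real_inner_comm, div_eq_inv_mul]
  have hsplit : P ⊆ P.filter (fun y => ε * r ≤ ⟪y - c, w⟫) ∪
      P.filter (fun y => ε * r ≤ ⟪y - c, -w⟫) := by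
    intro y hy
    have hRy : ε * r ^ 2 ≤ |⟪p - c, y - c⟫| := hPR y hy
    have h3 : ε * r ≤ |⟪y - c, w⟫| := by
      rw [hwi, abs_div, abs_of_pos hapos, le_div_iff₀ hapos]
      calc ε * r * a ≤ ε * r * r := by
            apply mul_le_mul_of_nonneg_left ha1 (by positivity)
        _ = ε * r ^ 2 := by ring
        _ ≤ _ := hRy
    rw [Finset.mem_union, Finset.mem_filter, Finset.mem_filter, inner_neg_right]
    rcases le_abs.1 h3 with h | h
    · exact Or.inl ⟨hy, h⟩
    · exact Or.inr ⟨hy, h⟩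
  have hPX : ∀ y ∈ P, y ∈ X ∧ dist y c ≤ r := fun y hy =>
    ⟨hTX (Finset.mem_coe.2 (hP hy)), hTc y (hP hy)⟩
  have c1 : (P.filter (fun y => ε * r ≤ ⟪y - c, w⟫)).card ≤ M := by
    apply hM (c + (ε * r) • w)
    · intro y hy
      exact (hPX y (Finset.filter_subset _ _ hy)).1
    · intro y hy
      rw [Finset.mem_filter] at hy
      exact lens hr.le hε0.le (by linarith) hw1 (hPX y hy.1).2 hy.2
  have c2 : (P.filter (fun y => ε * r ≤ ⟪y - c, -w⟫)).card ≤ M := by
    apply hM (c + (ε * r) • (-w))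
    · intro y hy
      exact (hPX y (Finset.filter_subset _ _ hy)).1
    · intro y hy
      rw [Finset.mem_filter] at hy
      exact lens hr.le hε0.le (by linarith) (by rw [norm_neg]; exact hw1) (hPX y hy.1).2 hy.2
  have := (Finset.card_le_card hsplit).trans (Finset.card_union_le _ _)
  omega

/-- Points far from the centre which are not in the relation have distance about `√2 r`. -/
lemma dist_of_not_rel {ε r : ℝ} (hr : 0 < r) (hε0 : 0 < ε) (hε : ε ≤ 1 / 2) {c x y : E}
    (hx1 : √(1 - ε ^ 2) * r < dist x c) (hx2 : dist x c ≤ r)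
    (hy1 : √(1 - ε ^ 2) * r < dist y c) (hy2 : dist y c ≤ r)
    (hn : |⟪x - c, y - c⟫| < ε * r ^ 2) :
    (1 - ε) * (√2 * r) ≤ dist x y ∧ dist x y ≤ (1 + ε) * (√2 * r) := by
  set t : ℝ := √(1 - ε ^ 2) with ht
  have h0 : 0 ≤ 1 - ε ^ 2 := by nlinarith
  have ht2 : t ^ 2 = 1 - ε ^ 2 := Real.sq_sqrt h0
  have ht0 : 0 ≤ t := Real.sqrt_nonneg _
  rw [dist_eq_norm] at hx1 hx2 hy1 hy2
  have sx1 : (1 - ε ^ 2) * r ^ 2 ≤ ‖x - c‖ ^ 2 := by
    rw [← ht2, ← mul_pow]
    exact pow_le_pow_left₀ (by positivity) hx1.le 2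
  have sy1 : (1 - ε ^ 2) * r ^ 2 ≤ ‖y - c‖ ^ 2 := by
    rw [← ht2, ← mul_pow]
    exact pow_le_pow_left₀ (by positivity) hy1.le 2
  have sx2 : ‖x - c‖ ^ 2 ≤ r ^ 2 := pow_le_pow_left₀ (norm_nonneg _) hx2 2
  have sy2 : ‖y - c‖ ^ 2 ≤ r ^ 2 := pow_le_pow_left₀ (norm_nonneg _) hy2 2
  have e : dist x y ^ 2 = ‖x - c‖ ^ 2 - 2 * ⟪x - c, y - c⟫ + ‖y - c‖ ^ 2 := by
    rw [dist_eq_norm, ← norm_sub_sq_real]
    congr 2
    abel
  have s2 : (√2 : ℝ) ^ 2 = 2 := Real.sq_sqrt (by norm_num)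
  obtain ⟨b1, b2⟩ := abs_lt.1 hn
  have hr2 : 0 < r ^ 2 := by positivity
  constructor
  · apply le_of_sq_le_sq _ dist_nonneg
    rw [e, mul_pow, mul_pow, s2]
    nlinarith
  · apply le_of_sq_le_sq _ (by positivity)
    rw [e, mul_pow, mul_pow, s2]
    nlinarith

/-- The pairs of points of `T` whose distance is not in `[(1 - ε) d, (1 + ε) d]`. -/
noncomputable def badDist (T : Finset E) (ε d : ℝ) : Finset (E × E) :=
  open Classical in
  (T ×ˢ T).filter (fun p => ¬ ((1 - ε) * d ≤ dist p.1 p.2 ∧ dist p.1 p.2 ≤ (1 + ε) * d))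

/-- One scale at which the maximal number of points in balls grows: almost all pairs of points of
the ball are at the same distance. -/
lemma few_bad {X : Set E} {ε r : ℝ} (hr : 0 < r) (hε0 : 0 < ε) (hε : ε ≤ 1 / 2)
    {c : E} {T : Finset E} (hTX : ↑T ⊆ X) (hTc : ∀ x ∈ T, dist x c ≤ r) {M : ℕ}
    (hM : Cap X (√(1 - ε ^ 2) * r) M) :
    (badDist T ε (√2 * r)).card ≤ 4 * M * T.card := by
  classical
  set t : ℝ := √(1 - ε ^ 2) with ht
  set N : Finset E := T.filter (fun x => ¬ t * r < dist x c) with hN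
  have hNM : N.card ≤ M :=
    hM c _ (fun x hx => hTX (Finset.mem_coe.2 (Finset.filter_subset _ _ hx)))
      (fun x hx => not_lt.1 (Finset.mem_filter.1 hx).2)
  set F : Finset (E × E) := T.sigma
    (fun p => if t * r < dist p c then T.filter (fun y => ε * r ^ 2 ≤ |⟪p - c, y - c⟫|)
      else ∅) |>.map (Equiv.sigmaEquivProd E E).toEmbedding with hF
  have hFc : F.card ≤ T.card * (2 * M) := by
    rw [hF, Finset.card_map, Finset.card_sigma]
    calc _ ≤ ∑ _p ∈ T, 2 * M := by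
          apply Finset.sum_le_sum
          intro p hp
          split_ifs with h
          · exact rel_count hr hε0 hε hTX hTc hM hp h (Finset.filter_subset _ _)
              (fun y hy => (Finset.mem_filter.1 hy).2)
          · simp
      _ = _ := by rw [Finset.sum_const, smul_eq_mul]
  have hsub : badDist T ε (√2 * r) ⊆ (N ×ˢ T) ∪ (T ×ˢ N) ∪ F := by
    rintro ⟨x, y⟩ hxy
    rw [badDist, Finset.mem_filter, Finset.mem_product] at hxy
    obtain ⟨⟨hx, hy⟩, hbad⟩ := hxy
    rw [Finset.mem_union, Finset.mem_union, Finset.mem_product, Finset.mem_product]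
    by_cases h1 : t * r < dist x c
    · by_cases h2 : t * r < dist y c
      · right
        by_cases h3 : ε * r ^ 2 ≤ |⟪x - c, y - c⟫|
        · rw [hF, Finset.mem_map]
          refine ⟨⟨x, y⟩, ?_, rfl⟩
          rw [Finset.mem_sigma]
          refine ⟨hx, ?_⟩
          simp only [h1, if_true]
          exact Finset.mem_filter.2 ⟨hy, h3⟩
        · exact absurd (dist_of_not_rel hr hε0 hε h1 (hTc x hx) h2 (hTc y hy) (not_le.1 h3)) hbad
      · left; right
        exact ⟨hx, Finset.mem_filter.2 ⟨hy, h2⟩⟩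
    · left; left
      exact ⟨Finset.mem_filter.2 ⟨hx, h1⟩, hy⟩
  calc _ ≤ _ := Finset.card_le_card hsub
    _ ≤ N.card * T.card + T.card * N.card + T.card * (2 * M) := by
        refine (Finset.card_union_le _ _).trans ?_
        apply add_le_add _ hFc
        refine (Finset.card_union_le _ _).trans ?_
        rw [Finset.card_product, Finset.card_product]
    _ ≤ M * T.card + T.card * M + T.card * (2 * M) := by gcongr
    _ = _ := by ring

variable [FiniteDimensional ℝ E] [MeasurableSpace E] [BorelSpace E]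

/-- Uniformization: a part `T` of a finite set, of almost the size of `T0`, in a ball of radius
`ρ ≤ R`, such that almost all pairs of its points have distance about `√2 ρ`, and a large almost
regular simplex in it; or `ρ` is small. -/
theorem uniformize {C : Finset E} {R r ε q : ℝ} (hR : 0 < R)
    (hε0 : 0 < ε) (hε : ε ≤ 1 / 2) (hq : 1 ≤ q) {J : ℕ} (hJ : √(1 - ε ^ 2) ^ J * R ≤ r)
    {c0 : E} {T0 : Finset E}
    (hT0C : T0 ⊆ C) (hT0c : ∀ x ∈ T0, dist x c0 ≤ R) (hT0 : T0.Nonempty) :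
    ∃ (T : Finset E) (c : E) (ρ : ℝ), T ⊆ C ∧ T.Nonempty ∧ 0 < ρ ∧ ρ ≤ R ∧
      (∀ x ∈ T, dist x c ≤ ρ) ∧ (T0.card : ℝ) ≤ T.card * q ^ J ∧
      (ρ ≤ r ∨ (((badDist T ε (√2 * ρ)).card : ℝ) * q ≤ 4 * T.card ^ 2 ∧
        (6 < q → ∃ S : Finset E, S ⊆ T ∧ q / 6 ≤ S.card ∧
          ∀ x ∈ S, ∀ y ∈ S, x ≠ y → (1 - ε) * (√2 * ρ) ≤ dist x y ∧
            dist x y ≤ (1 + ε) * (√2 * ρ)))) := by
  classical
  set t : ℝ := √(1 - ε ^ 2) with ht
  have h0 : 0 < 1 - ε ^ 2 := by nlinarith
  have ht2 : t ^ 2 = 1 - ε ^ 2 := Real.sq_sqrt h0.le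
  have ht0 : 0 < t := Real.sqrt_pos.2 h0
  have ht1 : t < 1 := by
    rw [ht, Real.sqrt_lt' one_pos]
    nlinarith [sq_pos_of_pos hε0]
  have hch : ∀ j : ℕ, ∃ (c : E) (T : Finset E), (↑T : Set E) ⊆ ↑C ∧
      (∀ x ∈ T, dist x c ≤ t ^ j * R) ∧
      Cap (↑C : Set E) (t ^ j * R) T.card := fun j => cap_attained_fin C _
  choose cc TT hTX hTc hTM using hch
  obtain ⟨x0, hx0T⟩ := hT0
  have hx0 : x0 ∈ C := hT0C hx0T
  have hN1 : ∀ j, 1 ≤ (TT j).card := fun j => by
    have := hTM j x0 {x0} (by simpa using hx0) (by simp; positivity)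
    simpa using this
  have hN0 : T0.card ≤ (TT 0).card :=
    hTM 0 c0 T0 (Finset.coe_subset.2 hT0C) (by simpa using hT0c)
  -- the first scale of fast growth
  have hex : ∃ j : ℕ, j = J ∨ ((TT (j + 1)).card : ℝ) * q ≤ (TT j).card := ⟨J, Or.inl rfl⟩
  set j : ℕ := Nat.find hex with hj
  have hjs := Nat.find_spec hex
  have hjmin : ∀ i < j, ((TT i).card : ℝ) < (TT (i + 1)).card * q := fun i hi => by
    have := Nat.find_min hex hi
    push Not at this
    exact this.2
  have hjJ : j ≤ J := Nat.find_min' hex (Or.inl rfl)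
  have hq0 : 0 < q := by linarith
  have aux : ∀ i : ℕ, i ≤ j → ((TT 0).card : ℝ) ≤ (TT i).card * q ^ i := by
    intro i
    induction i with
    | zero => intro _; simp
    | succ i ih =>
      intro hi
      have h2 := ih (by omega)
      have h3 := hjmin i (by omega)
      calc ((TT 0).card : ℝ) ≤ (TT i).card * q ^ i := h2
        _ ≤ ((TT (i + 1)).card * q) * q ^ i := by
            apply mul_le_mul_of_nonneg_right h3.le (by positivity)
        _ = (TT (i + 1)).card * q ^ (i + 1) := by ring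
  have hrj : 0 < t ^ j * R := by positivity
  refine ⟨TT j, cc j, t ^ j * R, Finset.coe_subset.1 (hTX j), Finset.card_pos.1 (hN1 j), hrj, ?_,
    hTc j, ?_, ?_⟩
  · have : t ^ j ≤ 1 := pow_le_one₀ ht0.le ht1.le
    nlinarith
  · calc (T0.card : ℝ) ≤ (TT 0).card := by exact_mod_cast hN0
      _ ≤ (TT j).card * q ^ j := aux j le_rfl
      _ ≤ _ := by
          apply mul_le_mul_of_nonneg_left _ (by positivity)
          exact pow_le_pow_right₀ hq hjJ
  · rcases hjs with h | h
    · left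
      have : j = J := h
      rw [this]; exact hJ
    · right
      have hcap : Cap (↑C : Set E) (√(1 - ε ^ 2) * (t ^ j * R)) (TT (j + 1)).card := by
        have h1 := hTM (j + 1)
        have : √(1 - ε ^ 2) * (t ^ j * R) = t ^ (j + 1) * R := by rw [← ht]; ring
        rw [this]; exact h1
      refine ⟨?_, fun hq6 => ?_⟩
      · have h1 := few_bad (X := (↑C : Set E)) hrj hε0 hε (hTX j) (hTc j) hcap
        have h2 : ((badDist (TT j) ε (√2 * (t ^ j * R))).card : ℝ) ≤
            4 * (TT (j + 1)).card * (TT j).card := by exact_mod_cast h1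
        calc _ ≤ (4 * (TT (j + 1)).card * (TT j).card : ℝ) * q :=
              mul_le_mul_of_nonneg_right h2 hq0.le
          _ = 4 * (((TT (j + 1)).card * q) * (TT j).card) := by ring
          _ ≤ 4 * ((TT j).card * (TT j).card) := by
              have : (0 : ℝ) ≤ (TT j).card := Nat.cast_nonneg _
              have := mul_le_mul_of_nonneg_right h this
              linarith
          _ = _ := by ring
      · obtain ⟨S, hSX, hSc, hSd⟩ := one_scale (X := (↑(TT j) : Set E)) hrj hε0 hε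
          (T := TT j) subset_rfl (hTc j)
          (M := (TT (j + 1)).card) (fun c P hP hPc => hcap c P (hP.trans (hTX j)) hPc)
          (q := q) hq6 h (hN1 j)
        exact ⟨S, Finset.coe_subset.1 hSX, hSc, hSd⟩

end

end Pool.Agent.Helper57.KS
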